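import Mathlib

/-!
# A colouring lemma for two sides whose cross neighbourhoods are cliques

(the equality case with two components for full Hadwiger on the class of `PathTransversal`)
-/

open Finset
open scoped Classical

namespace Pool.Agent.T2F

/-- Two stable triples and a perfect matching by nonedges between the rests (general Hall form). -/
lemma core {V : Type} {G : SimpleGraph V} (A B T1 T2 : Finset V) {m : ℕ}
    (hA : A.card = m) (hB : B.card = m)
    (hcov : ∀ v, v ∈ T1 ∨ v ∈ T2 ∨ v ∈ A ∨ v ∈ B)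
    (hT1 : ∀ u ∈ T1, ∀ v ∈ T1, ¬ G.Adj u v) (hT2 : ∀ u ∈ T2, ∀ v ∈ T2, ¬ G.Adj u v)
    (hle : ∀ X' ⊆ A, ∀ Y' ⊆ B, (∀ x ∈ X', ∀ y ∈ Y', G.Adj x y) → X'.card + Y'.card ≤ m) :
    G.Colorable (m + 2) := by
  let t : {x // x ∈ A} → Finset V := fun x => B.filter (fun v => ¬ G.Adj x.1 v)
  have hall : ∀ s : Finset {x // x ∈ A}, s.card ≤ (s.biUnion t).card := by
    intro s
    have h1 := hle (s.map ⟨Subtype.val, Subtype.val_injective⟩) (by
      intro v hv
      rw [mem_map] at hv
      obtain ⟨y, _, rfl⟩ := hv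
      exact y.2) (B \ s.biUnion t) sdiff_subset (by
      intro x hx y hy
      rw [mem_map] at hx
      obtain ⟨x', hx', rfl⟩ := hx
      rw [mem_sdiff] at hy
      by_contra hn
      apply hy.2
      rw [mem_biUnion]
      exact ⟨x', hx', mem_filter.2 ⟨hy.1, hn⟩⟩)
    rw [card_map] at h1
    have hsub : s.biUnion t ⊆ B := by
      intro y hy
      rw [mem_biUnion] at hy
      obtain ⟨x, _, hxy⟩ := hy
      exact (mem_filter.1 hxy).1
    have h2 := card_sdiff_add_card_eq_card hsub
    omega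
  obtain ⟨f, hf, hft⟩ := (Finset.all_card_le_biUnion_card_iff_exists_injective t).1 hall
  have hfB : ∀ x, f x ∈ B := fun x => (mem_filter.1 (hft x)).1
  have hfc : ∀ x, ¬ G.Adj x.1 (f x) := fun x => (mem_filter.1 (hft x)).2
  have hsurj : ∀ b ∈ B, ∃ x, f x = b := by
    have h1 : (univ.image f) = B := by
      apply eq_of_subset_of_card_le
      · intro b hb
        rw [mem_image] at hb
        obtain ⟨x, _, rfl⟩ := hb
        exact hfB x
      · rw [card_image_of_injective _ hf, card_univ, Fintype.card_coe, hA, hB]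
    intro b hb
    rw [← h1, mem_image] at hb
    obtain ⟨x, _, hx⟩ := hb
    exact ⟨x, hx⟩
  let col : V → Option (Option {x // x ∈ A}) := fun v =>
    if v ∈ T1 then none
    else if v ∈ T2 then some none
    else if h : v ∈ A then some (some ⟨v, h⟩)
    else if h : v ∈ B then some (some (hsurj v h).choose)
    else none
  have h0 : ∀ v, col v = none → v ∈ T1 := by
    intro v hv
    by_contra hn
    simp only [col, if_neg hn] at hv
    by_cases h2 : v ∈ T2
    · simp [if_pos h2] at hv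
    · rw [if_neg h2] at hv
      by_cases h3 : v ∈ A
      · simp [dif_pos h3] at hv
      · rw [dif_neg h3] at hv
        by_cases h4 : v ∈ B
        · simp [dif_pos h4] at hv
        · rcases hcov v with h | h | h | h
          · exact hn h
          · exact h2 h
          · exact h3 h
          · exact h4 h
  have h1 : ∀ v, col v = some none → v ∈ T2 := by
    intro v hv
    by_contra h2
    simp only [col] at hv
    by_cases hn : v ∈ T1
    · simp [if_pos hn] at hv
    · rw [if_neg hn, if_neg h2] at hv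
      by_cases h3 : v ∈ A
      · simp [dif_pos h3] at hv
      · rw [dif_neg h3] at hv
        by_cases h4 : v ∈ B
        · simp [dif_pos h4] at hv
        · simp [dif_neg h4] at hv
  have h2 : ∀ v x, col v = some (some x) → v = x.1 ∨ (v ∈ B ∧ f x = v) := by
    intro v x hv
    simp only [col] at hv
    by_cases hn : v ∈ T1
    · simp [if_pos hn] at hv
    · rw [if_neg hn] at hv
      by_cases h2 : v ∈ T2
      · simp [if_pos h2] at hv
      · rw [if_neg h2] at hv
        by_cases h3 : v ∈ A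
        · rw [dif_pos h3] at hv
          simp only [Option.some.injEq] at hv
          left
          rw [← hv]
        · rw [dif_neg h3] at hv
          by_cases h4 : v ∈ B
          · rw [dif_pos h4] at hv
            simp only [Option.some.injEq] at hv
            right
            refine ⟨h4, ?_⟩
            rw [← hv]
            exact (hsurj v h4).choose_spec
          · simp [dif_neg h4] at hv
  have hcol : G.Colorable (Fintype.card (Option (Option {x // x ∈ A}))) := by
    refine SimpleGraph.Coloring.colorable (SimpleGraph.Coloring.mk col ?_)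
    intro u v huv he
    rcases hcu : col u with _ | (_ | x)
    · exact hT1 u (h0 u hcu) v (h0 v (he ▸ hcu)) huv
    · exact hT2 u (h1 u hcu) v (h1 v (he ▸ hcu)) huv
    · rcases h2 u x hcu with hu | ⟨hu, hu'⟩ <;> rcases h2 v x (he ▸ hcu) with hv | ⟨hv, hv'⟩
      · exact huv.ne (hu.trans hv.symm)
      · subst hu
        exact hfc x (by rw [hv']; exact huv)
      · subst hv
        exact hfc x (by rw [hu']; exact huv.symm)
      · exact huv.ne (hu'.symm.trans hv')
  rw [Fintype.card_option, Fintype.card_option, Fintype.card_coe, hA] at hcol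
  exact hcol

/-- Two sides of size `2h+1`; cross edges only inside the classes of `cl`, all cross neighbourhoods
are cliques, all classes have the same size `≤ h` on both sides, cliques have fewer than `2h`
vertices. -/
structure Sys {V L : Type} (G : SimpleGraph V) (cl : V → L) (X Y : Finset V) (h : ℕ) : Prop where
  cov : ∀ v, v ∈ X ∨ v ∈ Y
  dis : ∀ v, v ∈ X → v ∉ Y
  no : ∀ u ∈ X, ∀ v ∈ Y, G.Adj u v → cl u = cl v
  cliX : ∀ x ∈ X, ∀ y ∈ Y, ∀ z ∈ X, G.Adj x y → G.Adj z y → x ≠ z → G.Adj x z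
  cliY : ∀ x ∈ Y, ∀ y ∈ X, ∀ z ∈ Y, G.Adj x y → G.Adj z y → x ≠ z → G.Adj x z
  nbX : ∀ x ∈ X, ∃ y ∈ Y, G.Adj x y
  nbY : ∀ y ∈ Y, ∃ x ∈ X, G.Adj y x
  eq : ∀ a, (X.filter (fun v => cl v = a)).card = (Y.filter (fun v => cl v = a)).card
  le : ∀ a, (X.filter (fun v => cl v = a)).card ≤ h
  cX : X.card = 2 * h + 1
  cY : Y.card = 2 * h + 1
  om : ∀ s : Finset V, (∀ u ∈ s, ∀ v ∈ s, u ≠ v → G.Adj u v) → s.card < 2 * h

namespace Sys

variable {V L : Type} {G : SimpleGraph V} {cl : V → L} {X Y : Finset V} {h : ℕ}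

lemma symm (S : Sys G cl X Y h) : Sys G cl Y X h where
  cov := fun v => (S.cov v).symm
  dis := fun v hy hx => S.dis v hx hy
  no := fun u hu v hv huv => (S.no v hv u hu huv.symm).symm
  cliX := S.cliY
  cliY := S.cliX
  nbX := S.nbY
  nbY := S.nbX
  eq := fun a => (S.eq a).symm
  le := fun a => by rw [← S.eq a]; exact S.le a
  cX := S.cY
  cY := S.cX
  om := S.om

lemma nonedge (S : Sys G cl X Y h) (Z : Finset V) (hZ : 2 * h ≤ Z.card) :
    ∃ u ∈ Z, ∃ v ∈ Z, u ≠ v ∧ ¬ G.Adj u v := by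
  by_contra hcon
  push Not at hcon
  have := S.om Z hcon
  omega

end Sys

/-- a configuration: two disjoint stable triples -/
structure Cfg {V : Type} (G : SimpleGraph V) (X Y : Finset V) (u v w u' v' w' : V) : Prop where
  hu : u ∈ X
  hv : v ∈ X
  hw : w ∈ X
  hu' : u' ∈ Y
  hv' : v' ∈ Y
  hw' : w' ∈ Y
  uv : u ≠ v
  wu : w ≠ u
  wv : w ≠ v
  uv' : u' ≠ v'
  wu' : w' ≠ u'
  wv' : w' ≠ v'
  a1 : ¬ G.Adj u v
  a2 : ¬ G.Adj u w'
  a3 : ¬ G.Adj v w'
  b1 : ¬ G.Adj u' v'
  b2 : ¬ G.Adj u' w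
  b3 : ¬ G.Adj v' w

lemma Cfg.symm {V : Type} {G : SimpleGraph V} {X Y : Finset V} {u v w u' v' w' : V}
    (c : Cfg G X Y u v w u' v' w') : Cfg G Y X u' v' w' u v w :=
  ⟨c.hu', c.hv', c.hw', c.hu, c.hv, c.hw, c.uv', c.wu', c.wv', c.uv, c.wu, c.wv, c.b1, c.b2, c.b3,
    c.a1, c.a2, c.a3⟩

lemma stable3 {V : Type} {G : SimpleGraph V} (a b c : V) (hab : ¬ G.Adj a b) (hac : ¬ G.Adj a c)
    (hbc : ¬ G.Adj b c) : ∀ x ∈ ({a, b, c} : Finset V), ∀ y ∈ ({a, b, c} : Finset V), ¬ G.Adj x y := by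
  intro x hx y hy
  simp only [mem_insert, mem_singleton] at hx hy
  rcases hx with rfl | rfl | rfl <;> rcases hy with rfl | rfl | rfl
  · exact G.irrefl
  · exact hab
  · exact hac
  · exact fun h => hab h.symm
  · exact G.irrefl
  · exact hbc
  · exact fun h => hac h.symm
  · exact fun h => hbc h.symm
  · exact G.irrefl

/-- if a configuration does not extend to a colouring there is a critical clique -/
lemma crit {V L : Type} {G : SimpleGraph V} {cl : V → L} {X Y : Finset V} {h : ℕ}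
    (S : Sys G cl X Y h) (h2 : 2 ≤ h) (hc : ¬ G.Colorable (2 * h)) {u v w u' v' w' : V}
    (c : Cfg G X Y u v w u' v' w') :
    ∃ (a : L) (X' Y' : Finset V), X' ⊆ X.filter (fun v => cl v = a) ∧
      Y' ⊆ Y.filter (fun v => cl v = a) ∧ Disjoint X' {u, v, w} ∧ Disjoint Y' {u', v', w'} ∧
      (∀ x ∈ X', ∀ y ∈ Y', G.Adj x y) ∧ X'.card + Y'.card = 2 * h - 1 ∧
      (X.filter (fun v => cl v = a)).card = h := by
  by_contra hcon
  push Not at hcon
  apply hc
  have hSX : ({u, v, w} : Finset V) ⊆ X := by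
    intro x hx
    simp only [mem_insert, mem_singleton] at hx
    rcases hx with rfl | rfl | rfl
    · exact c.hu
    · exact c.hv
    · exact c.hw
  have hSY : ({u', v', w'} : Finset V) ⊆ Y := by
    intro x hx
    simp only [mem_insert, mem_singleton] at hx
    rcases hx with rfl | rfl | rfl
    · exact c.hu'
    · exact c.hv'
    · exact c.hw'
  have hcS : ({u, v, w} : Finset V).card = 3 :=
    card_eq_three.2 ⟨u, v, w, c.uv, c.wu.symm, c.wv.symm, rfl⟩
  have hcS' : ({u', v', w'} : Finset V).card = 3 :=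
    card_eq_three.2 ⟨u', v', w', c.uv', c.wu'.symm, c.wv'.symm, rfl⟩
  have hA := card_sdiff_add_card_eq_card hSX
  have hB := card_sdiff_add_card_eq_card hSY
  have cX := S.cX
  have cY := S.cY
  have hmain : G.Colorable ((2 * h - 2) + 2) := by
    apply core (X \ {u, v, w}) (Y \ {u', v', w'}) {u, v, w'} {u', v', w}
    · omega
    · omega
    · intro x
      by_cases hxS : x ∈ ({u, v, w} : Finset V)
      · simp only [mem_insert, mem_singleton] at hxS ⊢
        tauto
      · by_cases hxS' : x ∈ ({u', v', w'} : Finset V)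
        · simp only [mem_insert, mem_singleton] at hxS' ⊢
          tauto
        · rcases S.cov x with h | h
          · exact Or.inr (Or.inr (Or.inl (mem_sdiff.2 ⟨h, hxS⟩)))
          · exact Or.inr (Or.inr (Or.inr (mem_sdiff.2 ⟨h, hxS'⟩)))
    · exact stable3 u v w' c.a1 c.a2 c.a3
    · exact stable3 u' v' w c.b1 c.b2 c.b3
    · intro X' hX' Y' hY' hcomp
      by_contra hlt
      have hX1 := card_le_card hX'
      have hY1 := card_le_card hY'
      have hX0 : X'.Nonempty := card_pos.1 (by omega)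
      have hY0 : Y'.Nonempty := card_pos.1 (by omega)
      obtain ⟨x0, hx0⟩ := hX0
      obtain ⟨y0, hy0⟩ := hY0
      have hXX : X' ⊆ X := hX'.trans sdiff_subset
      have hYY : Y' ⊆ Y := hY'.trans sdiff_subset
      have e1 : ∀ y ∈ Y', cl y = cl x0 := fun y hy =>
        (S.no x0 (hXX hx0) y (hYY hy) (hcomp x0 hx0 y hy)).symm
      have e2 : ∀ x ∈ X', cl x = cl x0 := fun x hx =>
        (S.no x (hXX hx) y0 (hYY hy0) (hcomp x hx y0 hy0)).trans (e1 y0 hy0)
      have s1 : X' ⊆ X.filter (fun v => cl v = cl x0) := fun x hx => mem_filter.2 ⟨hXX hx, e2 x hx⟩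
      have s2 : Y' ⊆ Y.filter (fun v => cl v = cl x0) := fun y hy => mem_filter.2 ⟨hYY hy, e1 y hy⟩
      have hdisj : Disjoint X' Y' := by
        rw [disjoint_left]
        intro x h1 h2
        exact S.dis x (hXX h1) (hYY h2)
      have hom := S.om (X' ∪ Y') (by
        intro x hx y hy hxy
        rw [mem_union] at hx hy
        rcases hx with hx | hx <;> rcases hy with hy | hy
        · exact S.cliX x (hXX hx) y0 (hYY hy0) y (hXX hy) (hcomp x hx y0 hy0) (hcomp y hy y0 hy0) hxy
        · exact hcomp x hx y hy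
        · exact (hcomp y hy x hx).symm
        · exact S.cliY x (hYY hx) x0 (hXX hx0) y (hYY hy) (hcomp x0 hx0 x hx).symm
            (hcomp x0 hx0 y hy).symm hxy)
      rw [card_union_of_disjoint hdisj] at hom
      have l1 := card_le_card s1
      have l2 := card_le_card s2
      have l3 := S.le (cl x0)
      have l4 := S.eq (cl x0)
      refine hcon (cl x0) X' Y' s1 s2 ?_ ?_ hcomp (by omega) (by omega)
      · rw [disjoint_left]
        intro x hx hx'
        exact (mem_sdiff.1 (hX' hx)).2 hx'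
      · rw [disjoint_left]
        intro x hx hx'
        exact (mem_sdiff.1 (hY' hx)).2 hx'
  have : 2 * h - 2 + 2 = 2 * h := by omega
  rwa [this] at hmain

/-- repair of a configuration -/
lemma fix {V L : Type} {G : SimpleGraph V} {cl : V → L} {X Y : Finset V} {h : ℕ}
    (S : Sys G cl X Y h) (h2 : 2 ≤ h) (hc : ¬ G.Colorable (2 * h)) {u v w u' v' w' : V}
    (c : Cfg G X Y u v w u' v' w') {a : L} {X' Y' : Finset V}
    (hX' : X' ⊆ X.filter (fun v => cl v = a)) (hY' : Y' ⊆ Y.filter (fun v => cl v = a))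
    (dX : Disjoint X' {u, v, w}) (dY : Disjoint Y' {u', v', w'})
    (hcomp : ∀ x ∈ X', ∀ y ∈ Y', G.Adj x y) (hcard : X'.card + Y'.card = 2 * h - 1)
    (ha : (X.filter (fun v => cl v = a)).card = h) (hfull : X'.card = h) : False := by
  have eX : X' = X.filter (fun v => cl v = a) := eq_of_subset_of_card_le hX' (by omega)
  obtain ⟨w2, hw2⟩ : Y'.Nonempty := card_pos.1 (by omega)
  have hw2Y := (mem_filter.1 (hY' hw2)).1
  have hw2a := (mem_filter.1 (hY' hw2)).2
  rw [disjoint_left] at dX dY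
  have hw2n := dY hw2
  simp only [mem_insert, mem_singleton, not_or] at hw2n
  have hcu : ∀ z ∈ X, z ∈ ({u, v, w} : Finset V) → cl z ≠ a := by
    intro z hz hz' hza
    exact dX (eX ▸ mem_filter.2 ⟨hz, hza⟩) hz'
  have c2 : Cfg G X Y u v w u' v' w2 := by
    refine ⟨c.hu, c.hv, c.hw, c.hu', c.hv', hw2Y, c.uv, c.wu, c.wv, c.uv', hw2n.1, hw2n.2.1, c.a1,
      ?_, ?_, c.b1, c.b2, c.b3⟩
    · intro hadj
      exact hcu u c.hu (by simp) ((S.no u c.hu w2 hw2Y hadj).trans hw2a)
    · intro hadj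
      exact hcu v c.hv (by simp) ((S.no v c.hv w2 hw2Y hadj).trans hw2a)
  obtain ⟨b, X2, Y2, hX2, hY2, dX2, dY2, hcomp2, hcard2, hb⟩ := crit S h2 hc c2
  have l1 := card_le_card hX2
  have l2 := card_le_card hY2
  have l3 := S.eq b
  have l4 := S.le b
  rw [disjoint_left] at dX2 dY2
  by_cases hab : b = a
  · subst hab
    have hw2Y2 : w2 ∉ Y2 := fun hin => dY2 hin (by simp)
    have l5 : Y2.card ≤ ((Y.filter (fun v => cl v = b)).erase w2).card := by
      apply card_le_card
      intro y hy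
      exact mem_erase.2 ⟨fun e => hw2Y2 (e ▸ hy), hY2 hy⟩
    rw [card_erase_of_mem (hY' hw2)] at l5
    have eX2 : X2 = X.filter (fun v => cl v = b) := eq_of_subset_of_card_le hX2 (by omega)
    have eY2 : Y2 = (Y.filter (fun v => cl v = b)).erase w2 := by
      apply eq_of_subset_of_card_le
      · intro y hy
        exact mem_erase.2 ⟨fun e => hw2Y2 (e ▸ hy), hY2 hy⟩
      · rw [card_erase_of_mem (hY' hw2)]
        omega
    have hall : ∀ x ∈ X.filter (fun v => cl v = b), ∀ y ∈ Y.filter (fun v => cl v = b), G.Adj x y := by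
      intro x hx y hy
      by_cases hyw : y = w2
      · subst hyw
        exact hcomp x (eX ▸ hx) y hw2
      · exact hcomp2 x (eX2 ▸ hx) y (eY2 ▸ mem_erase.2 ⟨hyw, hy⟩)
    have hXne : (X.filter (fun v => cl v = b)).Nonempty := card_pos.1 (by omega)
    obtain ⟨x0, hx0⟩ := hXne
    have hdisj : Disjoint (X.filter (fun v => cl v = b)) (Y.filter (fun v => cl v = b)) := by
      rw [disjoint_left]
      intro x h1 h2
      exact S.dis x (mem_filter.1 h1).1 (mem_filter.1 h2).1
    have hom := S.om (X.filter (fun v => cl v = b) ∪ Y.filter (fun v => cl v = b)) (by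
      intro x hx y hy hxy
      rw [mem_union] at hx hy
      rcases hx with hx | hx <;> rcases hy with hy | hy
      · exact S.cliX x (mem_filter.1 hx).1 w2 hw2Y y (mem_filter.1 hy).1 (hall x hx w2 (hY' hw2))
          (hall y hy w2 (hY' hw2)) hxy
      · exact hall x hx y hy
      · exact (hall y hy x hx).symm
      · exact S.cliY x (mem_filter.1 hx).1 x0 (mem_filter.1 hx0).1 y (mem_filter.1 hy).1
          (hall x0 hx0 x hx).symm (hall x0 hx0 y hy).symm hxy)
    rw [card_union_of_disjoint hdisj] at hom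
    omega
  · -- three disjoint subsets of X
    have hd1 : Disjoint ({u, v, w} : Finset V) X2 := by
      rw [disjoint_left]
      intro z hz hz2
      exact dX2 hz2 hz
    have hd2 : Disjoint (({u, v, w} : Finset V) ∪ X2) X' := by
      rw [disjoint_left]
      intro z hz hz2
      rw [mem_union] at hz
      rcases hz with hz | hz
      · exact dX hz2 hz
      · have e1 := (mem_filter.1 (hX2 hz)).2
        have e2 := (mem_filter.1 (hX' hz2)).2
        exact hab (e1.symm.trans e2)
    have hsub : (({u, v, w} : Finset V) ∪ X2) ∪ X' ⊆ X := by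
      intro z hz
      rw [mem_union, mem_union] at hz
      rcases hz with (hz | hz) | hz
      · simp only [mem_insert, mem_singleton] at hz
        rcases hz with rfl | rfl | rfl
        · exact c.hu
        · exact c.hv
        · exact c.hw
      · exact (mem_filter.1 (hX2 hz)).1
      · exact (mem_filter.1 (hX' hz)).1
    have hcS : ({u, v, w} : Finset V).card = 3 :=
      card_eq_three.2 ⟨u, v, w, c.uv, c.wu.symm, c.wv.symm, rfl⟩
    have := card_le_card hsub
    rw [card_union_of_disjoint hd2, card_union_of_disjoint hd1, hcS, S.cX] at this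
    omega

/-- the size lemma -/
lemma size {V L : Type} {G : SimpleGraph V} {cl : V → L} {X Y : Finset V} {h : ℕ}
    (S : Sys G cl X Y h) (h2 : 2 ≤ h) {u v u' v' : V} (hu : u ∈ X) (hv : v ∈ X)
    (hall : ∀ y ∈ Y, y ≠ u' → y ≠ v' → G.Adj u y ∨ G.Adj v y) :
    cl u ≠ cl v ∧ 2 * h - 1 ≤ (X.filter (fun z => cl z = cl u)).card +
      (X.filter (fun z => cl z = cl v)).card := by
  have hsub : (Y.erase u').erase v' ⊆ Y.filter (fun z => cl z = cl u) ∪
      Y.filter (fun z => cl z = cl v) := by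
    intro y hy
    rw [mem_erase, mem_erase] at hy
    rw [mem_union, mem_filter, mem_filter]
    rcases hall y hy.2.2 hy.2.1 hy.1 with hadj | hadj
    · exact Or.inl ⟨hy.2.2, (S.no u hu y hy.2.2 hadj).symm⟩
    · exact Or.inr ⟨hy.2.2, (S.no v hv y hy.2.2 hadj).symm⟩
  have l1 := card_le_card hsub
  have l2 := pred_card_le_card_erase (s := Y) (a := u')
  have l3 := pred_card_le_card_erase (s := Y.erase u') (a := v')
  have l4 := S.cY
  have l5 := S.le (cl u)
  have l6 := S.eq (cl u)
  have l7 := S.eq (cl v)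
  constructor
  · intro he
    rw [he, union_idempotent] at l1
    rw [he] at l5
    omega
  · have l8 := card_union_le (Y.filter (fun z => cl z = cl u)) (Y.filter (fun z => cl z = cl v))
    omega

/-- a vertex of a third class -/
lemma third {V L : Type} {G : SimpleGraph V} {cl : V → L} {X Y : Finset V} {h : ℕ}
    (S : Sys G cl X Y h) (a b : L) : ∃ z ∈ X, cl z ≠ a ∧ cl z ≠ b := by
  by_contra hcon
  push Not at hcon
  have hsub : X ⊆ X.filter (fun z => cl z = a) ∪ X.filter (fun z => cl z = b) := by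
    intro z hz
    rw [mem_union, mem_filter, mem_filter]
    by_cases h : cl z = a
    · exact Or.inl ⟨hz, h⟩
    · exact Or.inr ⟨hz, hcon z hz h⟩
  have l1 := card_le_card hsub
  have l2 := card_union_le (X.filter (fun z => cl z = a)) (X.filter (fun z => cl z = b))
  have l3 := S.le a
  have l4 := S.le b
  have l5 := S.cX
  omega

lemma half3 {V L : Type} {G : SimpleGraph V} {cl : V → L} {X Y : Finset V} {h : ℕ}
    (S : Sys G cl X Y h) (h2 : 2 ≤ h) {u v u' v' u2 v2 : V} (hu : u ∈ X) (hv : v ∈ X)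
    (hu' : u' ∈ Y) (hv' : v' ∈ Y) (huv' : u' ≠ v') (hna' : ¬ G.Adj u' v')
    (hu2 : u2 ∈ Y) (hv2 : v2 ∈ Y)
    (B1 : ∀ y ∈ Y, y ≠ u' → y ≠ v' → G.Adj u y ∨ G.Adj v y)
    (B2 : ∀ x ∈ X, x ≠ u → x ≠ v → G.Adj u2 x ∨ G.Adj v2 x)
    (hE1 : cl u2 ≠ cl u) (hE2 : cl u2 ≠ cl v) (hD : cl v2 = cl u) : False := by
  obtain ⟨c1, s1⟩ := size S h2 hu hv B1
  -- the class of v is {v} in X
  have hD' : X.filter (fun z => cl z = cl v) ⊆ {v} := by
    intro z hz
    rw [mem_filter] at hz
    rw [mem_singleton]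
    by_contra hzv
    have hzu : z ≠ u := fun e => c1 (by rw [← e]; exact hz.2)
    rcases B2 z hz.1 hzu hzv with hadj | hadj
    · exact hE2 (((S.no z hz.1 u2 hu2 hadj.symm).symm).trans hz.2)
    · exact c1 (hD.symm.trans (((S.no z hz.1 v2 hv2 hadj.symm).symm).trans hz.2))
  have l1 := card_le_card hD'
  rw [card_singleton] at l1
  have l2 := S.le (cl u)
  have hh : h = 2 := by omega
  subst hh
  -- all classes
  have hsub : X ⊆ (X.filter (fun z => cl z = cl u) ∪ X.filter (fun z => cl z = cl v)) ∪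
      X.filter (fun z => cl z = cl u2) := by
    intro z hz
    rw [mem_union, mem_union, mem_filter, mem_filter, mem_filter]
    by_cases hzu : z = u
    · subst hzu; exact Or.inl (Or.inl ⟨hz, rfl⟩)
    by_cases hzv : z = v
    · subst hzv; exact Or.inl (Or.inr ⟨hz, rfl⟩)
    rcases B2 z hz hzu hzv with hadj | hadj
    · exact Or.inr ⟨hz, S.no z hz u2 hu2 hadj.symm⟩
    · exact Or.inl (Or.inl ⟨hz, (S.no z hz v2 hv2 hadj.symm).trans hD⟩)
  have l3 := card_le_card hsub
  have l4 := card_union_le (X.filter (fun z => cl z = cl u) ∪ X.filter (fun z => cl z = cl v))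
    (X.filter (fun z => cl z = cl u2))
  have l5 := card_union_le (X.filter (fun z => cl z = cl u)) (X.filter (fun z => cl z = cl v))
  have l6 := S.cX
  have l7 := S.eq (cl u2)
  -- the class of u2 in Y is {u', v'}
  have hE : Y.filter (fun z => cl z = cl u2) ⊆ {u', v'} := by
    intro y hy
    rw [mem_filter] at hy
    rw [mem_insert, mem_singleton]
    by_contra hn
    push Not at hn
    rcases B1 y hy.1 hn.1 hn.2 with hadj | hadj
    · exact hE1 (hy.2.symm.trans (S.no u hu y hy.1 hadj).symm)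
    · exact hE2 (hy.2.symm.trans (S.no v hv y hy.1 hadj).symm)
  have hcard2 : ({u', v'} : Finset V).card = 2 := card_pair huv'
  have hEeq : Y.filter (fun z => cl z = cl u2) = {u', v'} :=
    eq_of_subset_of_card_le hE (by omega)
  have hu2m : u2 ∈ ({u', v'} : Finset V) := by
    rw [← hEeq]; exact mem_filter.2 ⟨hu2, rfl⟩
  obtain ⟨z0, hz0, hz0ne, hz0na⟩ : ∃ z0 ∈ ({u', v'} : Finset V), z0 ≠ u2 ∧ ¬ G.Adj u2 z0 := by
    rw [mem_insert, mem_singleton] at hu2m
    rcases hu2m with rfl | rfl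
    · exact ⟨v', by simp, huv'.symm, hna'⟩
    · exact ⟨u', by simp, huv', fun hadj => hna' hadj.symm⟩
  rw [← hEeq, mem_filter] at hz0
  obtain ⟨w, hw, hwz⟩ := S.nbY z0 hz0.1
  have hwE : cl w = cl u2 := (S.no w hw z0 hz0.1 hwz.symm).trans hz0.2
  have hwu : w ≠ u := fun e => hE1 (by rw [← hwE, e])
  have hwv : w ≠ v := fun e => hE2 (by rw [← hwE, e])
  rcases B2 w hw hwu hwv with hadj | hadj
  · exact hz0na (S.cliY u2 hu2 w hw z0 hz0.1 hadj hwz hz0ne.symm)
  · exact hE1 (hwE.symm.trans ((S.no w hw v2 hv2 hadj.symm).trans hD))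

lemma half2 {V L : Type} {G : SimpleGraph V} {cl : V → L} {X Y : Finset V} {h : ℕ}
    (S : Sys G cl X Y h) (h2 : 2 ≤ h) {u v u' v' u2 v2 : V} (hu : u ∈ X) (hv : v ∈ X)
    (hu' : u' ∈ Y) (hv' : v' ∈ Y) (huv' : u' ≠ v') (hna' : ¬ G.Adj u' v')
    (hu2 : u2 ∈ Y) (hv2 : v2 ∈ Y)
    (B1 : ∀ y ∈ Y, y ≠ u' → y ≠ v' → G.Adj u y ∨ G.Adj v y)
    (B2 : ∀ x ∈ X, x ≠ u → x ≠ v → G.Adj u2 x ∨ G.Adj v2 x)
    (hE1 : cl u2 ≠ cl u) (hE2 : cl u2 ≠ cl v) : False := by
  obtain ⟨c1, s1⟩ := size S h2 hu hv B1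
  obtain ⟨c2, s2⟩ := size S.symm h2 hu2 hv2 B2
  have q1 := S.eq (cl u2)
  have q2 := S.eq (cl v2)
  by_cases hD : cl v2 = cl u
  · exact half3 S h2 hu hv hu' hv' huv' hna' hu2 hv2 B1 B2 hE1 hE2 hD
  by_cases hD' : cl v2 = cl v
  · exact half3 S h2 hv hu hu' hv' huv' hna' hu2 hv2 (fun y hy h1 h2 => (B1 y hy h1 h2).symm)
      (fun x hx h1 h2 => B2 x hx h2 h1) hE2 hE1 hD'
  -- four distinct classes
  have hd1 : Disjoint (X.filter (fun z => cl z = cl u)) (X.filter (fun z => cl z = cl v)) := by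
    rw [disjoint_left]
    intro z h1 h2
    exact c1 ((mem_filter.1 h1).2.symm.trans (mem_filter.1 h2).2)
  have hd2 : Disjoint (X.filter (fun z => cl z = cl u2)) (X.filter (fun z => cl z = cl v2)) := by
    rw [disjoint_left]
    intro z h1 h2
    exact c2 ((mem_filter.1 h1).2.symm.trans (mem_filter.1 h2).2)
  have hd3 : Disjoint (X.filter (fun z => cl z = cl u) ∪ X.filter (fun z => cl z = cl v))
      (X.filter (fun z => cl z = cl u2) ∪ X.filter (fun z => cl z = cl v2)) := by
    rw [disjoint_left]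
    intro z h1 h2
    rw [mem_union, mem_filter, mem_filter] at h1 h2
    rcases h1 with h1 | h1 <;> rcases h2 with h2 | h2
    · exact hE1 (h2.2.symm.trans h1.2)
    · exact hD (h2.2.symm.trans h1.2)
    · exact hE2 (h2.2.symm.trans h1.2)
    · exact hD' (h2.2.symm.trans h1.2)
  have hsub : (X.filter (fun z => cl z = cl u) ∪ X.filter (fun z => cl z = cl v)) ∪
      (X.filter (fun z => cl z = cl u2) ∪ X.filter (fun z => cl z = cl v2)) ⊆ X := by
    intro z hz
    simp only [mem_union, mem_filter] at hz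
    rcases hz with (hz | hz) | (hz | hz) <;> exact hz.1
  have l1 := card_le_card hsub
  rw [card_union_of_disjoint hd3, card_union_of_disjoint hd1, card_union_of_disjoint hd2, S.cX] at l1
  omega

/-- one direction of the existence of a configuration -/
lemma half {V L : Type} {G : SimpleGraph V} {cl : V → L} {X Y : Finset V} {h : ℕ}
    (S : Sys G cl X Y h) (h2 : 2 ≤ h)
    (B : ∀ u ∈ X, ∀ v ∈ X, u ≠ v → ¬ G.Adj u v → ∀ u' ∈ Y, ∀ v' ∈ Y, u' ≠ v' → ¬ G.Adj u' v' →
      (∀ y ∈ Y, y ≠ u' → y ≠ v' → G.Adj u y ∨ G.Adj v y) ∨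
      (∀ x ∈ X, x ≠ u → x ≠ v → G.Adj u' x ∨ G.Adj v' x))
    {u v u' v' : V} (hu : u ∈ X) (hv : v ∈ X) (huv : u ≠ v) (hna : ¬ G.Adj u v)
    (hu' : u' ∈ Y) (hv' : v' ∈ Y) (huv' : u' ≠ v') (hna' : ¬ G.Adj u' v')
    (B1 : ∀ y ∈ Y, y ≠ u' → y ≠ v' → G.Adj u y ∨ G.Adj v y) : False := by
  obtain ⟨e, he, heu, hev⟩ := third S.symm (cl u) (cl v)
  have hne : ¬ (G.Adj u e ∨ G.Adj v e) := by
    rintro (hadj | hadj)
    · exact heu (S.no u hu e he hadj).symm
    · exact hev (S.no v hv e he hadj).symm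
  have hcard : 2 * h ≤ (Y.erase e).card := by
    rw [card_erase_of_mem he, S.cY]
    omega
  obtain ⟨u2, hu2, v2, hv2, huv2, hna2⟩ := S.nonedge _ hcard
  rw [mem_erase] at hu2 hv2
  rcases B u hu v hv huv hna u2 hu2.2 v2 hv2.2 huv2 hna2 with B1' | B2
  · exact hne (B1' e he hu2.1.symm hv2.1.symm)
  obtain ⟨z, hz, hzu, hzv⟩ := third S (cl u) (cl v)
  have hzu' : z ≠ u := fun e => hzu (by rw [e])
  have hzv' : z ≠ v := fun e => hzv (by rw [e])
  rcases B2 z hz hzu' hzv' with hadj | hadj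
  · have e1 := S.no z hz u2 hu2.2 hadj.symm
    exact half2 S h2 hu hv hu' hv' huv' hna' hu2.2 hv2.2 B1 B2 (by rw [← e1]; exact hzu)
      (by rw [← e1]; exact hzv)
  · have e1 := S.no z hz v2 hv2.2 hadj.symm
    exact half2 S h2 hu hv hu' hv' huv' hna' hv2.2 hu2.2 B1
      (fun x hx h1 h2 => (B2 x hx h1 h2).symm) (by rw [← e1]; exact hzu)
      (by rw [← e1]; exact hzv)

lemma exists_cfg {V L : Type} {G : SimpleGraph V} {cl : V → L} {X Y : Finset V} {h : ℕ}
    (S : Sys G cl X Y h) (h2 : 2 ≤ h) : ∃ u v w u' v' w', Cfg G X Y u v w u' v' w' := by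
  by_contra hcon
  have B : ∀ u ∈ X, ∀ v ∈ X, u ≠ v → ¬ G.Adj u v → ∀ u' ∈ Y, ∀ v' ∈ Y, u' ≠ v' → ¬ G.Adj u' v' →
      (∀ y ∈ Y, y ≠ u' → y ≠ v' → G.Adj u y ∨ G.Adj v y) ∨
      (∀ x ∈ X, x ≠ u → x ≠ v → G.Adj u' x ∨ G.Adj v' x) := by
    intro u hu v hv huv hna u' hu' v' hv' huv' hna'
    by_contra hn
    push Not at hn
    obtain ⟨⟨w', hw', hwu', hwv', a2, a3⟩, ⟨w, hw, hwu, hwv, b2, b3⟩⟩ := hn
    exact hcon ⟨u, v, w, u', v', w', hu, hv, hw, hu', hv', hw', huv, hwu, hwv, huv', hwu', hwv',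
      hna, a2, a3, hna', b2, b3⟩
  obtain ⟨u, hu, v, hv, huv, hna⟩ := S.nonedge X (by rw [S.cX]; omega)
  obtain ⟨u', hu', v', hv', huv', hna'⟩ := S.nonedge Y (by rw [S.cY]; omega)
  rcases B u hu v hv huv hna u' hu' v' hv' huv' hna' with B1 | B2
  · exact half S h2 B hu hv huv hna hu' hv' huv' hna' B1
  · exact half S.symm h2 (fun a ha b hb hab hnab a' ha' b' hb' hab' hnab' =>
      (B a' ha' b' hb' hab' hnab' a ha b hb hab hnab).symm) hu' hv' huv' hna' hu hv huv hna B2

theorem colorable {V L : Type} {G : SimpleGraph V} {cl : V → L} {X Y : Finset V} {h : ℕ}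
    (S : Sys G cl X Y h) : G.Colorable (2 * h) := by
  have h2 : 2 ≤ h := by
    have c1 := S.cX
    obtain ⟨x, hx⟩ : X.Nonempty := card_pos.1 (by omega)
    obtain ⟨y, hy, hxy⟩ := S.nbX x hx
    have := S.om {x, y} (by
      intro a ha b hb hab
      simp only [mem_insert, mem_singleton] at ha hb
      rcases ha with rfl | rfl <;> rcases hb with rfl | rfl
      · exact absurd rfl hab
      · exact hxy
      · exact hxy.symm
      · exact absurd rfl hab)
    rw [card_pair hxy.ne] at this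
    omega
  by_contra hc
  obtain ⟨u, v, w, u', v', w', c⟩ := exists_cfg S h2
  obtain ⟨a, X', Y', hX', hY', dX, dY, hcomp, hcard, ha⟩ := crit S h2 hc c
  have l1 := card_le_card hX'
  have l2 := card_le_card hY'
  have l3 := S.eq a
  by_cases hfull : X'.card = h
  · exact fix S h2 hc c hX' hY' dX dY hcomp hcard ha hfull
  · exact fix S.symm h2 hc c.symm hY' hX' dY dX (fun x hx y hy => (hcomp y hy x hx).symm)
      (by omega) (by omega) (by omega)

end Pool.Agent.T2F
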