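import Mathlib

/-!
# Counting for full Hadwiger on the class of `PathTransversal`: at least `2 chi` vertices

Equality cases of the Tutte-Berge count for an arbitrary number of parts (after helper31's version
for three cliques).
-/

set_option autoImplicit false

namespace Pool.Agent.T2F

open Finset
open scoped Classical

theorem arithG {I L : Type} [Fintype I] [Fintype L] (u k : ℕ) (x : L → I → ℕ) (n : I → ℕ)
    (hx : ∀ i, ∑ a, x a i = n i)
    (hsep : ∀ (a : L) (J : Finset I), (∃ i ∈ J, 0 < x a i) → (∃ i, i ∉ J ∧ x a i < n i) →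
      k + 1 ≤ u + ∑ i, (if i ∈ J then n i - x a i else x a i))
    (hclq : ∀ a, (∀ i, 0 < n i → 0 < x a i) → ∑ i, x a i ≤ k)
    (hn : 2 * (k + 1) ≤ u + ∑ i, n i) (hU : u + ∑ i, n i / 2 ≤ k) :
    (3 ≤ (univ.filter (fun i => 0 < n i)).card ∧ ∃ i0, 0 < n i0 ∧ ∀ i, 0 < n i →
      n i = 3 ∧ ∀ a, x a i = x a i0 ∧ x a i ≤ 1) ∨
    (u = 0 ∧ ∃ i j, i ≠ j ∧ (∀ l, l ≠ i → l ≠ j → n l = 0) ∧ n i = k + 1 ∧ n j = k + 1 ∧
      (k + 1) % 2 = 1 ∧ ∀ a, x a i = x a j ∧ 2 * x a i ≤ k) := by
  have hle : ∀ a i, x a i ≤ n i := by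
    intro a i
    rw [← hx i]
    exact Finset.single_le_sum (f := fun a => x a i) (fun _ _ => Nat.zero_le _) (mem_univ a)
  -- two nonempty components
  obtain ⟨i0, j0, hij0, hi0, hj0⟩ : ∃ i j, i ≠ j ∧ 0 < n i ∧ 0 < n j := by
    by_contra hcon
    push Not at hcon
    by_cases hex : ∃ i, 0 < n i
    · obtain ⟨i, hi⟩ := hex
      have hz : ∀ j, j ≠ i → n j = 0 := fun j hj => by
        have := hcon i j (Ne.symm hj) hi
        omega
      have h1 : ∑ j, n j = n i := Finset.sum_eq_single i (fun j _ hj => hz j hj) (fun h => absurd (mem_univ _) h)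
      have h2 : ∑ j, n j / 2 = n i / 2 := Finset.sum_eq_single i (fun j _ hj => by rw [hz j hj]; rfl)
        (fun h => absurd (mem_univ _) h)
      omega
    · push Not at hex
      have h1 : ∑ j, n j = 0 := Finset.sum_eq_zero (fun j _ => by have := hex j; omega)
      omega
  -- no heavy-light pair
  have claim1 : ∀ (a : L) (i j : I), i ≠ j → 0 < n i → 0 < n j → n i ≤ 2 * x a i → 2 * x a j ≤ n j → False := by
    intro a i j hij hi hj h1 h2
    have h3 := hsep a (univ.filter (fun l => l ≠ j ∧ n l ≤ 2 * x a l))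
      ⟨i, mem_filter.2 ⟨mem_univ _, hij, h1⟩, by omega⟩
      ⟨j, fun h => (mem_filter.1 h).2.1 rfl, by omega⟩
    have h4 : ∑ l, (if l ∈ (univ.filter (fun l => l ≠ j ∧ n l ≤ 2 * x a l)) then n l - x a l else x a l) ≤
        ∑ l, n l / 2 := by
      apply Finset.sum_le_sum
      intro l _
      by_cases hl : l ∈ (univ.filter (fun l => l ≠ j ∧ n l ≤ 2 * x a l))
      · rw [if_pos hl]
        have := (mem_filter.1 hl).2.2
        omega
      · rw [if_neg hl]
        by_cases hlj : l = j
        · rw [hlj]; omega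
        · have : ¬ n l ≤ 2 * x a l := fun h => hl (mem_filter.2 ⟨mem_univ _, hlj, h⟩)
          omega
    omega
  have claim2 : ∀ a : L, (∀ i, 0 < n i → n i < 2 * x a i) ∨ (∀ i, 0 < n i → 2 * x a i < n i) := by
    intro a
    by_cases h : n i0 ≤ 2 * x a i0
    · left
      have h1 : ∀ j, j ≠ i0 → 0 < n j → n j < 2 * x a j := by
        intro j hj hnj
        by_contra hc
        exact claim1 a i0 j (Ne.symm hj) hi0 hnj h (by omega)
      intro i hi
      by_cases hii : i = i0
      · subst hii
        by_contra hc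
        have := h1 j0 (Ne.symm hij0) hj0
        exact claim1 a j0 i (Ne.symm hij0) hj0 hi (by omega) (by omega)
      · exact h1 i hii hi
    · right
      intro i hi
      by_cases hii : i = i0
      · subst hii; omega
      · by_contra hc
        exact claim1 a i i0 hii hi hi0 (by omega) (by omega)
  -- the parity of the components
  have hsplit : ∑ i, n i = ∑ i, n i / 2 + ∑ i, (n i - n i / 2) := by
    rw [← Finset.sum_add_distrib]
    apply Finset.sum_congr rfl
    intro i _
    omega
  -- no heavy index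
  have claim3 : ∀ a : L, ∀ i, 0 < n i → 2 * x a i < n i := by
    intro a
    rcases claim2 a with h | h
    · exfalso
      have h1 := hclq a (fun i hi => by have := h i hi; omega)
      have h2 : ∑ i, (n i - n i / 2) ≤ ∑ i, x a i := by
        apply Finset.sum_le_sum
        intro i _
        rcases Nat.eq_zero_or_pos (n i) with h3 | h3
        · omega
        · have := h i h3; omega
      omega
    · exact h
  -- the separations
  have hE : ∀ a i j, i ≠ j → 0 < x a i → 0 < n j →
      (∑ l ∈ (univ.erase i).erase j, (n l / 2 - x a l)) + (n j / 2 - x a j) + 1 ≤ n i - n i / 2 - x a i := by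
    intro a i1 i2 hne hxi1 hi2
    have hi1 : 0 < n i1 := lt_of_lt_of_le hxi1 (hle a i1)
    have h3 := hsep a {i1} ⟨i1, mem_singleton_self _, hxi1⟩
      ⟨i2, fun h => hne (mem_singleton.1 h).symm, by have := claim3 a i2 hi2; omega⟩
    have h4 : ∑ i, (if i ∈ ({i1} : Finset I) then n i - x a i else x a i) =
        (n i1 - x a i1) + ∑ i ∈ univ.erase i1, x a i := by
      rw [← Finset.add_sum_erase univ _ (mem_univ i1), if_pos (mem_singleton_self _)]
      congr 1
      apply Finset.sum_congr rfl
      intro i hi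
      rw [if_neg]
      rw [mem_singleton]
      exact (mem_erase.1 hi).1
    have h5 : ∑ i, n i / 2 = n i1 / 2 + ∑ i ∈ univ.erase i1, n i / 2 :=
      (Finset.add_sum_erase univ _ (mem_univ i1)).symm
    have hi2e : i2 ∈ univ.erase i1 := mem_erase.2 ⟨Ne.symm hne, mem_univ _⟩
    have h6 : ∑ i ∈ univ.erase i1, n i / 2 = n i2 / 2 + ∑ i ∈ (univ.erase i1).erase i2, n i / 2 :=
      (Finset.add_sum_erase _ _ hi2e).symm
    have h7 : ∑ i ∈ univ.erase i1, x a i = x a i2 + ∑ i ∈ (univ.erase i1).erase i2, x a i :=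
      (Finset.add_sum_erase _ _ hi2e).symm
    have h8 : ∑ i ∈ (univ.erase i1).erase i2, n i / 2 =
        ∑ i ∈ (univ.erase i1).erase i2, (n i / 2 - x a i) + ∑ i ∈ (univ.erase i1).erase i2, x a i := by
      rw [← Finset.sum_add_distrib]
      apply Finset.sum_congr rfl
      intro i _
      rcases Nat.eq_zero_or_pos (n i) with h | h
      · have := hle a i; omega
      · have := claim3 a i h; omega
    have h10 := claim3 a i1 hi1
    have h11 := claim3 a i2 hi2
    omega
  -- the smallest component
  obtain ⟨s, hs', hsmin'⟩ := Finset.exists_min_image (univ.filter (fun i => 0 < n i)) n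
    ⟨i0, mem_filter.2 ⟨mem_univ _, hi0⟩⟩
  have hs : 0 < n s := (mem_filter.1 hs').2
  have hsmin : ∀ j, 0 < n j → n s ≤ n j := fun j hj => hsmin' j (mem_filter.2 ⟨mem_univ _, hj⟩)
  -- every part meeting the smallest component meets all components
  have hglob : ∀ a, 0 < x a s → ∀ j, 0 < n j → 0 < x a j := by
    intro a ha j hj
    by_cases hjs : j = s
    · rw [hjs]; exact ha
    by_contra h0
    have h1 := hE a s j (Ne.symm hjs) ha hj
    have h2 := hsmin j hj
    omega
  have hother : ∀ i, ∃ j, j ≠ i ∧ 0 < n j := by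
    intro i
    by_cases h : i0 = i
    · exact ⟨j0, fun h' => hij0 (h.trans h'.symm), hj0⟩
    · exact ⟨i0, h, hi0⟩
  have heq : ∀ a, 0 < x a s → ∀ j, j ≠ s → 0 < n j → n s % 2 = 1 ∧ n j % 2 = 1 ∧
      n j / 2 - x a j = n s / 2 - x a s ∧ ∑ l ∈ (univ.erase s).erase j, (n l / 2 - x a l) = 0 := by
    intro a ha j hj hnj
    have h1 := hE a s j (Ne.symm hj) ha hnj
    have h2 := hE a j s hj (hglob a ha j hnj) hs
    have h3 := claim3 a s hs
    have h4 := claim3 a j hnj
    have h5 : ∑ l ∈ (univ.erase j).erase s, (n l / 2 - x a l) =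
        ∑ l ∈ (univ.erase s).erase j, (n l / 2 - x a l) := by
      rw [Finset.erase_right_comm]
    rw [h5] at h2
    refine ⟨?_, ?_, ?_, ?_⟩ <;> omega
  -- the parts meeting the smallest component
  let T : Finset L := univ.filter (fun a => 0 < x a s)
  have hT : ∀ a, a ∈ T ↔ 0 < x a s := fun a => by simp [T]
  have hsumT : ∑ a ∈ T, x a s = n s := by
    rw [← hx s]
    apply Finset.sum_subset (subset_univ T)
    intro a _ ha
    rw [hT] at ha
    omega
  have hTne : T.Nonempty := by
    by_contra h
    rw [not_nonempty_iff_eq_empty] at h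
    rw [h, Finset.sum_empty] at hsumT
    omega
  have hsumle : ∀ j, ∑ a ∈ T, x a j ≤ n j := by
    intro j
    rw [← hx j]
    exact Finset.sum_le_sum_of_subset (subset_univ T)
  have hrest : ∀ j, ∑ a ∈ T, x a j = n j → ∀ a, a ∉ T → x a j = 0 := by
    intro j hj a ha
    have h1 : ∑ b ∈ insert a T, x b j ≤ n j := by
      rw [← hx j]
      exact Finset.sum_le_sum_of_subset (subset_univ _)
    rw [Finset.sum_insert ha] at h1
    omega
  by_cases h3 : ∃ l1 l2, l1 ≠ s ∧ l2 ≠ s ∧ l1 ≠ l2 ∧ 0 < n l1 ∧ 0 < n l2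
  · left
    obtain ⟨l1, l2, hl1, hl2, hl12, hn1, hn2⟩ := h3
    have hz : ∀ a ∈ T, ∀ l, 0 < n l → n l / 2 - x a l = 0 := by
      intro a ha l hl
      rw [hT] at ha
      have key : ∀ l, l ≠ s → 0 < n l → n l / 2 - x a l = 0 := by
        intro l hls hl
        obtain ⟨j, hj1, hj2, hj3⟩ : ∃ j, j ≠ s ∧ j ≠ l ∧ 0 < n j := by
          by_cases h : l1 = l
          · exact ⟨l2, hl2, fun e => hl12 (h.trans e.symm), hn2⟩
          · exact ⟨l1, hl1, h, hn1⟩
        have h4 := (heq a ha j hj1 hj3).2.2.2
        exact Finset.sum_eq_zero_iff.1 h4 l (mem_erase.2 ⟨hj2.symm, mem_erase.2 ⟨hls, mem_univ _⟩⟩)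
      by_cases hls : l = s
      · rw [hls, ← (heq a ha l1 hl1 hn1).2.2.1]
        exact key l1 hl1 hn1
      · exact key l hls hl
    have hodd : ∀ l, 0 < n l → n l % 2 = 1 := by
      intro l hl
      obtain ⟨a, ha⟩ := hTne
      rw [hT] at ha
      by_cases hls : l = s
      · rw [hls]; exact (heq a ha l1 hl1 hn1).1
      · exact (heq a ha l hls hl).2.1
    have hval : ∀ a ∈ T, ∀ l, 0 < n l → x a l = n l / 2 := by
      intro a ha l hl
      have h1 := hz a ha l hl
      have h2 := claim3 a l hl
      omega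
    have hsumv : ∀ l, 0 < n l → ∑ a ∈ T, x a l = T.card * (n l / 2) := by
      intro l hl
      rw [Finset.sum_congr rfl (fun a ha => hval a ha l hl), Finset.sum_const, smul_eq_mul]
    have hmpos : 0 < n s / 2 := by
      obtain ⟨a, ha⟩ := hTne
      rw [← hval a ha s hs]
      exact (hT a).1 ha
    have hcard3 : T.card = 3 := by
      have h1 := hsumv s hs
      rw [hsumT] at h1
      have h2 := hodd s hs
      have h4 : 3 ≤ T.card := by
        by_contra hc
        have h5 : T.card * (n s / 2) ≤ 2 * (n s / 2) := Nat.mul_le_mul_right _ (by omega)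
        omega
      have h6 : T.card ≤ 3 := by
        by_contra hc
        have h5 : 4 * (n s / 2) ≤ T.card * (n s / 2) := Nat.mul_le_mul_right _ (by omega)
        omega
      omega
    have hn3 : ∀ l, 0 < n l → n l = 3 ∧ ∑ a ∈ T, x a l = n l := by
      intro l hl
      have h1 := hsumv l hl
      rw [hcard3] at h1
      have h2 := hsumle l
      have h4 := hodd l hl
      obtain ⟨a, ha⟩ := hTne
      have h5 := hval a ha l hl
      have h6 := hglob a ((hT a).1 ha) l hl
      omega
    refine ⟨?_, s, hs, ?_⟩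
    · have : ({s, l1, l2} : Finset I) ⊆ univ.filter (fun i => 0 < n i) := by
        intro i hi
        simp only [mem_insert, mem_singleton] at hi
        rw [mem_filter]
        rcases hi with rfl | rfl | rfl
        · exact ⟨mem_univ _, hs⟩
        · exact ⟨mem_univ _, hn1⟩
        · exact ⟨mem_univ _, hn2⟩
      refine le_trans ?_ (Finset.card_le_card this)
      rw [Finset.card_eq_three.2 ⟨s, l1, l2, Ne.symm hl1, Ne.symm hl2, hl12, rfl⟩]
    · intro i hi
      obtain ⟨e1, e2⟩ := hn3 i hi
      refine ⟨e1, fun a => ?_⟩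
      by_cases ha : a ∈ T
      · have h1 := hval a ha i hi
        have h2 := hval a ha s hs
        have h4 := (hn3 s hs).1
        omega
      · have h1 := hrest i e2 a ha
        have h2 := hrest s (hn3 s hs).2 a ha
        omega
  · right
    push Not at h3
    obtain ⟨j, hjs, hj⟩ := hother s
    have hz : ∀ l, l ≠ s → l ≠ j → n l = 0 := fun l h1 h2 => by
      have := h3 j l hjs h1 (Ne.symm h2) hj
      omega
    have hje : j ∈ univ.erase s := mem_erase.2 ⟨hjs, mem_univ _⟩
    have s1 : ∑ l, n l = n s + n j := by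
      rw [← Finset.add_sum_erase univ _ (mem_univ s), ← Finset.add_sum_erase _ _ hje]
      rw [Finset.sum_eq_zero (s := (univ.erase s).erase j)]
      · rfl
      · intro l hl
        rw [mem_erase, mem_erase] at hl
        exact hz l hl.2.1 hl.1
    have s2 : ∑ l, n l / 2 = n s / 2 + n j / 2 := by
      rw [← Finset.add_sum_erase univ _ (mem_univ s), ← Finset.add_sum_erase _ _ hje]
      rw [Finset.sum_eq_zero (s := (univ.erase s).erase j)]
      · rfl
      · intro l hl
        rw [mem_erase, mem_erase] at hl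
        have := hz l hl.2.1 hl.1
        omega
    rw [s1] at hn
    rw [s2] at hU
    obtain ⟨a0, ha0⟩ := hTne
    obtain ⟨o1, o2, -, -⟩ := heq a0 ((hT a0).1 ha0) j hjs hj
    have hmin := hsmin j hj
    have hT3 : 3 ≤ T.card := by
      by_contra hc
      have h1 : ∑ a ∈ T, x a s ≤ T.card * (n s / 2) := by
        rw [← smul_eq_mul, ← Finset.sum_const]
        apply Finset.sum_le_sum
        intro a _
        have := claim3 a s hs
        omega
      have h5 : T.card * (n s / 2) ≤ 2 * (n s / 2) := Nat.mul_le_mul_right _ (by omega)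
      omega
    have hval : ∀ a ∈ T, x a j = x a s + (n j / 2 - n s / 2) := by
      intro a ha
      have h1 := (heq a ((hT a).1 ha) j hjs hj).2.2.1
      have h2 := claim3 a s hs
      have h4 := claim3 a j hj
      omega
    have hsumj : ∑ a ∈ T, x a j = n s + T.card * (n j / 2 - n s / 2) := by
      rw [Finset.sum_congr rfl hval, Finset.sum_add_distrib, hsumT, Finset.sum_const, smul_eq_mul]
    have hle2 := hsumle j
    have hd : n j / 2 - n s / 2 = 0 := by
      by_contra hc
      have h5 : 3 * (n j / 2 - n s / 2) ≤ T.card * (n j / 2 - n s / 2) := Nat.mul_le_mul_right _ hT3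
      omega
    rw [hd, Nat.mul_zero] at hsumj
    have hnn : n j = n s := by omega
    refine ⟨by omega, s, j, Ne.symm hjs, hz, by omega, by omega, by omega, ?_⟩
    intro a
    have ca := claim3 a s hs
    by_cases ha : a ∈ T
    · have h1 := hval a ha
      omega
    · have h1 := hrest j (by omega) a ha
      have h2 := hrest s hsumT a ha
      omega

end Pool.Agent.T2F
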