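import Mathlib
import Pool.Agent.T2F.Arith
import Pool.Agent.T3F.Col

/-!
# The count for an arbitrary number of parts, in terms of graphs
-/

set_option autoImplicit false

namespace Pool.Agent.T2F

open Finset
open scoped Classical

/-- the count: a barrier for matchings with `k + 1` edges has two components of size `k + 1` which
meet all parts in the same numbers (if `G` is not `k`-colourable) -/
theorem countG {V I L : Type} [Fintype V] [Fintype I] [Fintype L] {G : SimpleGraph V} (cl : V → L)
    {k : ℕ} (hnc : ¬ G.Colorable k) (U : Finset V) (comp : V → I)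
    (hno : ∀ u v, u ∉ U → v ∉ U → comp u ≠ comp v → cl u ≠ cl v → ¬ G.Adj u v)
    (hsep : ∀ A B : Finset V, Disjoint A B → A.Nonempty → B.Nonempty → (∀ a ∈ A, ∀ b ∈ B, ¬ G.Adj a b) →
      k + 1 ≤ (univ \ (A ∪ B)).card)
    (hclq : ∀ a : L, (∀ u, u ∉ U → ∃ v, v ∉ U ∧ comp v = comp u ∧ cl v = a) →
      (univ.filter (fun v => v ∉ U ∧ cl v = a)).card ≤ k)
    (hn : 2 * (k + 1) ≤ Fintype.card V)
    (hU : U.card + ∑ i, (univ.filter (fun v => v ∉ U ∧ comp v = i)).card / 2 ≤ k) :
    U = ∅ ∧ ∃ i j, i ≠ j ∧ (∀ v, comp v = i ∨ comp v = j) ∧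
      (univ.filter (fun v => comp v = i)).card = k + 1 ∧
      (univ.filter (fun v => comp v = j)).card = k + 1 ∧ (k + 1) % 2 = 1 ∧
      ∀ a, (univ.filter (fun v => comp v = i ∧ cl v = a)).card =
          (univ.filter (fun v => comp v = j ∧ cl v = a)).card ∧
        2 * (univ.filter (fun v => comp v = i ∧ cl v = a)).card ≤ k := by
  let n : I → ℕ := fun i => (univ.filter (fun v => v ∉ U ∧ comp v = i)).card
  let x : L → I → ℕ := fun a i => (univ.filter (fun v => (v ∉ U ∧ comp v = i) ∧ cl v = a)).card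
  let y : L → I → ℕ := fun a i => (univ.filter (fun v => (v ∉ U ∧ comp v = i) ∧ ¬ cl v = a)).card
  have hxy : ∀ a i, x a i + y a i = n i := by
    intro a i
    have h := Finset.card_filter_add_card_filter_not (s := univ.filter (fun v => v ∉ U ∧ comp v = i))
      (fun v => cl v = a)
    rw [filter_filter, filter_filter] at h
    exact h
  have hx3 : ∀ i, ∑ a, x a i = n i := by
    intro i
    have h := Finset.card_eq_sum_card_fiberwise (s := univ.filter (fun v => v ∉ U ∧ comp v = i))
      (f := cl) (t := univ) (fun _ _ => mem_univ _)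
    show _ = (univ.filter (fun v => v ∉ U ∧ comp v = i)).card
    rw [h]
    apply Finset.sum_congr rfl
    intro a _
    rw [filter_filter]
  -- sums over components
  have hsum : ∀ (p : V → Prop), (univ.filter (fun v => v ∉ U ∧ p v)).card =
      ∑ i, (univ.filter (fun v => (v ∉ U ∧ comp v = i) ∧ p v)).card := by
    intro p
    rw [Finset.card_eq_sum_card_fiberwise (f := comp) (t := univ) (fun _ _ => mem_univ _)]
    apply Finset.sum_congr rfl
    intro i _
    congr 1
    ext v
    simp only [mem_filter, mem_univ, true_and]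
    tauto
  have hVU : Fintype.card V = U.card + ∑ i, n i := by
    have h1 := hsum (fun _ => True)
    have h2 : (univ.filter (fun v => v ∉ U ∧ True)).card = Fintype.card V - U.card := by
      rw [← card_compl]
      congr 1
      ext v
      simp
    have h5 : (univ.filter (fun v => v ∉ U ∧ True)).card =
        ∑ i, (univ.filter (fun v => (v ∉ U ∧ comp v = i) ∧ True)).card := by
      convert h1
    have h3 : ∑ i, (univ.filter (fun v => (v ∉ U ∧ comp v = i) ∧ True)).card = ∑ i, n i := by
      apply Finset.sum_congr rfl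
      intro i _
      show _ = (univ.filter (fun v => v ∉ U ∧ comp v = i)).card
      congr 1
      ext v
      simp
    have h4 := card_le_univ U
    rw [h2, h3] at h5
    omega
  have hpos : ∀ i, 0 < n i ↔ ∃ v, v ∉ U ∧ comp v = i := by
    intro i
    constructor
    · intro hi
      obtain ⟨v, hv⟩ := card_pos.1 hi
      exact ⟨v, (mem_filter.1 hv).2⟩
    · rintro ⟨v, hv⟩
      exact card_pos.2 ⟨v, mem_filter.2 ⟨mem_univ _, hv⟩⟩
  have hxpos : ∀ a i, 0 < x a i ↔ ∃ v, (v ∉ U ∧ comp v = i) ∧ cl v = a := by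
    intro a i
    constructor
    · intro hi
      obtain ⟨v, hv⟩ := card_pos.1 hi
      exact ⟨v, (mem_filter.1 hv).2⟩
    · rintro ⟨v, hv⟩
      exact card_pos.2 ⟨v, mem_filter.2 ⟨mem_univ _, hv⟩⟩
  have hcls : ∀ a, (∀ i, 0 < n i → 0 < x a i) → ∑ i, x a i ≤ k := by
    intro a hall
    have h1 := hsum (fun v => cl v = a)
    have h2 : ∑ i, x a i = (univ.filter (fun v => v ∉ U ∧ cl v = a)).card := by
      convert h1.symm
    rw [h2]
    apply hclq
    intro u hu
    obtain ⟨v, ⟨h3, h4⟩, h5⟩ := (hxpos a (comp u)).1 (hall (comp u) ((hpos _).2 ⟨u, hu, rfl⟩))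
    exact ⟨v, h3, h4, h5⟩
  have hsep' : ∀ (a : L) (J : Finset I), (∃ i ∈ J, 0 < x a i) → (∃ i, i ∉ J ∧ x a i < n i) →
      k + 1 ≤ U.card + ∑ i, (if i ∈ J then n i - x a i else x a i) := by
    rintro a J ⟨i, hiJ, hi⟩ ⟨j, hjJ, hj⟩
    let A : Finset V := univ.filter (fun v => v ∉ U ∧ comp v ∈ J ∧ cl v = a)
    let B : Finset V := univ.filter (fun v => v ∉ U ∧ comp v ∉ J ∧ cl v ≠ a)
    have hA : A.Nonempty := by
      obtain ⟨v, hv⟩ := card_pos.1 hi
      obtain ⟨⟨h1, h2⟩, h3⟩ := (mem_filter.1 hv).2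
      exact ⟨v, mem_filter.2 ⟨mem_univ _, h1, h2 ▸ hiJ, h3⟩⟩
    have hB : B.Nonempty := by
      have hy := hxy a j
      obtain ⟨v, hv⟩ := card_pos.1 (show 0 < (univ.filter (fun v => (v ∉ U ∧ comp v = j) ∧ ¬ cl v = a)).card by
        change 0 < y a j; omega)
      obtain ⟨⟨h1, h2⟩, h3⟩ := (mem_filter.1 hv).2
      exact ⟨v, mem_filter.2 ⟨mem_univ _, h1, h2 ▸ hjJ, h3⟩⟩
    have hAB : Disjoint A B := by
      rw [Finset.disjoint_left]
      intro v hv hv'
      exact (mem_filter.1 hv').2.2.1 (mem_filter.1 hv).2.2.1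
    have h1 := hsep A B hAB hA hB (by
      intro u hu v hv
      obtain ⟨-, h1, h2, h3⟩ := mem_filter.1 hu
      obtain ⟨-, h1', h2', h3'⟩ := mem_filter.1 hv
      exact hno u v h1 h1' (fun h => h2' (h ▸ h2)) (fun h => h3' (h ▸ h3)))
    refine h1.trans ?_
    have h2 : univ \ (A ∪ B) ⊆ U ∪ univ.filter (fun v => v ∉ U ∧ ((comp v ∈ J ∧ cl v ≠ a) ∨ (comp v ∉ J ∧ cl v = a))) := by
      intro v hv
      simp only [A, B, mem_sdiff, mem_univ, true_and, mem_union, mem_filter] at hv ⊢
      by_cases h3 : v ∈ U <;> by_cases h4 : comp v ∈ J <;> by_cases h5 : cl v = a <;> simp_all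
    refine (card_le_card h2).trans ((card_union_le _ _).trans (Nat.add_le_add_left ?_ _))
    have e1 : (univ.filter (fun v => v ∉ U ∧ ((comp v ∈ J ∧ cl v ≠ a) ∨ (comp v ∉ J ∧ cl v = a)))).card =
        ∑ i, (univ.filter (fun v => (v ∉ U ∧ comp v = i) ∧ ((comp v ∈ J ∧ cl v ≠ a) ∨ (comp v ∉ J ∧ cl v = a)))).card := by
      have e0 := hsum (fun v => (comp v ∈ J ∧ cl v ≠ a) ∨ (comp v ∉ J ∧ cl v = a))
      convert e0
    rw [e1]
    apply Finset.sum_le_sum
    intro l _
    by_cases hl : l ∈ J
    · rw [if_pos hl]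
      have h3 := hxy a l
      have h4 : (univ.filter (fun v => (v ∉ U ∧ comp v = l) ∧ ((comp v ∈ J ∧ cl v ≠ a) ∨ (comp v ∉ J ∧ cl v = a)))).card ≤ y a l := by
        apply card_le_card
        intro v hv
        rw [mem_filter] at hv ⊢
        obtain ⟨-, ⟨h5, h6⟩, h7 | h7⟩ := hv
        · exact ⟨mem_univ _, ⟨h5, h6⟩, h7.2⟩
        · exact absurd (h6 ▸ hl) h7.1
      omega
    · rw [if_neg hl]
      apply card_le_card
      intro v hv
      rw [mem_filter] at hv ⊢
      obtain ⟨-, ⟨h5, h6⟩, h7 | h7⟩ := hv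
      · exact absurd (h6 ▸ h7.1) hl
      · exact ⟨mem_univ _, ⟨h5, h6⟩, h7.2⟩
  have hU' : U.card + ∑ i, n i / 2 ≤ k := hU
  rcases arithG U.card k x n hx3 hsep' hcls (by omega) hU' with ⟨hr, i0, hi0, h1⟩ |
    ⟨hu0, i, j, hij, hz, hni, hnj, hpar, hxa⟩
  · -- transversal triples: a colouring
    exfalso
    have hfil : (univ.filter (fun i => ∃ v, v ∉ U ∧ comp v = i)) = univ.filter (fun i => 0 < n i) := by
      ext i
      simp only [mem_filter, mem_univ, true_and]
      exact (hpos i).symm
    obtain ⟨hn3, hxi0⟩ := h1 i0 hi0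
    obtain ⟨p, q, r, hpq, hpr, hqr, hpqr⟩ := card_eq_three.1
      (show (univ.filter (fun v => v ∉ U ∧ comp v = i0)).card = 3 from hn3)
    have hmem : ∀ z ∈ ({p, q, r} : Finset V), z ∉ U ∧ comp z = i0 := by
      intro z hz
      rw [← hpqr, mem_filter] at hz
      exact hz.2
    have hone : ∀ i, 0 < n i → ∀ u v, u ∉ U → v ∉ U → comp u = i → comp v = i → cl u = cl v → u = v := by
      intro i hi u v hu hv hui hvi huv
      have h2 := ((h1 i hi).2 (cl u)).2
      have e1 : u ∈ univ.filter (fun v => (v ∉ U ∧ comp v = i) ∧ cl v = cl u) :=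
        mem_filter.2 ⟨mem_univ _, ⟨hu, hui⟩, rfl⟩
      have e2 : v ∈ univ.filter (fun v => (v ∉ U ∧ comp v = i) ∧ cl v = cl u) :=
        mem_filter.2 ⟨mem_univ _, ⟨hv, hvi⟩, huv.symm⟩
      exact card_le_one.1 h2 u e1 v e2
    have hpc := hmem p (by simp)
    have hqc := hmem q (by simp)
    have hrc := hmem r (by simp)
    -- all classes occur in the component of `p`, `q`, `r`
    have hclass : ∀ v, v ∉ U → cl v = cl p ∨ cl v = cl q ∨ cl v = cl r := by
      intro v hv
      have hi : 0 < n (comp v) := (hpos _).2 ⟨v, hv, rfl⟩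
      have h2 := ((h1 (comp v) hi).2 (cl v)).1
      have h3 : 0 < x (cl v) (comp v) := (hxpos _ _).2 ⟨v, ⟨hv, rfl⟩, rfl⟩
      obtain ⟨w, hw, hwc⟩ := (hxpos (cl v) i0).1 (by omega)
      have h4 : w ∈ ({p, q, r} : Finset V) := by
        rw [← hpqr, mem_filter]
        exact ⟨mem_univ _, hw⟩
      simp only [mem_insert, mem_singleton] at h4
      rcases h4 with rfl | rfl | rfl
      · exact Or.inl hwc.symm
      · exact Or.inr (Or.inl hwc.symm)
      · exact Or.inr (Or.inr hwc.symm)
    let cl3 : V → Fin 3 := fun v => if cl v = cl p then 0 else if cl v = cl q then 1 else 2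
    have hcl3 : ∀ u v, u ∉ U → v ∉ U → cl3 u = cl3 v → cl u = cl v := by
      intro u v hu hv huv
      simp only [cl3] at huv
      by_cases h2 : cl u = cl p <;> by_cases h3 : cl v = cl p
      · rw [h2, h3]
      · rw [if_pos h2, if_neg h3] at huv
        by_cases h4 : cl v = cl q
        · rw [if_pos h4] at huv; exact absurd huv (by decide)
        · rw [if_neg h4] at huv; exact absurd huv (by decide)
      · rw [if_neg h2, if_pos h3] at huv
        by_cases h4 : cl u = cl q
        · rw [if_pos h4] at huv; exact absurd huv (by decide)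
        · rw [if_neg h4] at huv; exact absurd huv (by decide)
      · rw [if_neg h2, if_neg h3] at huv
        by_cases h4 : cl u = cl q <;> by_cases h5 : cl v = cl q
        · rw [h4, h5]
        · rw [if_pos h4, if_neg h5] at huv; exact absurd huv (by decide)
        · rw [if_neg h4, if_pos h5] at huv; exact absurd huv (by decide)
        · rcases hclass u hu with h | h | h
          · exact absurd h h2
          · exact absurd h h4
          · rcases hclass v hv with h' | h' | h'
            · exact absurd h' h3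
            · exact absurd h' h5
            · rw [h, h']
    have hcol := T3F.col3 (G := G) cl3 U comp (by
      intro u v hu hv hc hcl'
      exact hno u v hu hv hc (fun e => hcl' (by simp only [cl3, e]))) (by
      intro u v hu hv hc hcl'
      exact hone (comp u) ((hpos _).2 ⟨u, hu, rfl⟩) u v hu hv rfl hc.symm (hcl3 u v hu hv hcl'))
      (by rw [hfil]; exact hr)
    rw [hfil] at hcol
    refine hnc (hcol.mono (le_trans (Nat.add_le_add_left ?_ _) hU'))
    rw [Finset.card_filter]
    apply Finset.sum_le_sum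
    intro i _
    by_cases hi : 0 < n i
    · rw [if_pos hi]
      have := (h1 i hi).1
      omega
    · rw [if_neg hi]; exact Nat.zero_le _
  · have hU0 : U = ∅ := card_eq_zero.1 hu0
    have hall : ∀ v, v ∉ U := fun v => by rw [hU0]; exact notMem_empty v
    have hn' : ∀ l, n l = (univ.filter (fun v => comp v = l)).card := by
      intro l
      show (univ.filter (fun v => v ∉ U ∧ comp v = l)).card = _
      congr 1
      ext v
      simp [hall v]
    have hx' : ∀ a l, x a l = (univ.filter (fun v => comp v = l ∧ cl v = a)).card := by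
      intro a l
      show (univ.filter (fun v => (v ∉ U ∧ comp v = l) ∧ cl v = a)).card = _
      congr 1
      ext v
      simp [hall v]
    refine ⟨hU0, i, j, hij, ?_, by rw [← hn']; exact hni, by rw [← hn']; exact hnj, hpar, ?_⟩
    · intro v
      by_contra hcon
      push Not at hcon
      have h3 := hz (comp v) hcon.1 hcon.2
      have h4 : 0 < n (comp v) := (hpos _).2 ⟨v, hall v, rfl⟩
      omega
    · intro a
      rw [← hx', ← hx']
      exact hxa a

end Pool.Agent.T2F
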