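import Mathlib
import Pool.Agent.T2S.Main
import Pool.Agent.T3F.Big
import Pool.Agent.T2F.Col
import Pool.Agent.T2F.Count

/-!
# Full Hadwiger for the class `Two`: the case of at least `2 chi` vertices
-/

set_option autoImplicit false

namespace Pool.Agent.T2F

open Finset Pool.Agent.CA31 Pool.Agent.CA72 Pool.Agent.CA31C Pool.Agent.T3 Pool.Agent.T2S
open scoped Classical

/-- a barrier has no three components -/
theorem no_three {V I : Type} [Fintype V] [Fintype I] {G H : SimpleGraph V} (h : Two G H) {k : ℕ}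
    (hnc : ¬ G.Colorable k)
    (hsep : ∀ A B : Finset V, Disjoint A B → A.Nonempty → B.Nonempty → (∀ a ∈ A, ∀ b ∈ B, ¬ G.Adj a b) →
      k + 1 ≤ (univ \ (A ∪ B)).card)
    (hclq : ∀ Q : Finset V, (∀ x ∈ Q, ∀ y ∈ Q, x ≠ y → G.Adj x y) → Q.card ≤ k)
    (hn : 2 * (k + 1) ≤ Fintype.card V) (U : Finset V) (comp : V → I)
    (hno : ∀ u v, u ∉ U → v ∉ U → comp u ≠ comp v → ¬ H.Adj u v)
    (hU : U.card + ∑ i, (univ.filter (fun v => v ∉ U ∧ comp v = i)).card / 2 ≤ k)
    {a b c : V} (ha : a ∉ U) (hb : b ∉ U) (hc : c ∉ U) (hab : comp a ≠ comp b)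
    (hac : comp a ≠ comp c) (hbc : comp b ≠ comp c) : False := by
  let K : SimpleGraph V :=
    { Adj := fun u v => (u ∉ U ∧ v ∉ U) ∧ comp u ≠ comp v ∧ G.Adj u v
      symm := ⟨fun u v h => ⟨⟨h.1.2, h.1.1⟩, h.2.1.symm, h.2.2.symm⟩⟩
      loopless := ⟨fun u h => h.2.1 rfl⟩ }
  have hK1 : ∀ x y z, K.Adj x y → K.Adj y z → x ≠ z → G.Adj x z := by
    intro x y z hxy hyz hxz
    by_contra hn
    rcases h.2.2 x y z hxy.2.2 hyz.2.2 hxz hn with h | h
    · exact hno x y hxy.1.1 hxy.1.2 hxy.2.1 h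
    · exact hno y z hyz.1.1 hyz.1.2 hyz.2.1 h
  have hK2 : ∀ x y z, K.Adj x y → K.Adj y z → comp x ≠ comp z → K.Adj x z := by
    intro x y z hxy hyz hxz
    exact ⟨⟨hxy.1.1, hyz.1.2⟩, hxz, hK1 x y z hxy hyz (fun e => hxz (by rw [e]))⟩
  obtain ⟨-, i, j, -, hall, -⟩ := countG (G := G) (fun v => K.connectedComponentMk v) (k := k) hnc U comp
    (fun u v hu hv hc' hcl' hadj => hcl' (SimpleGraph.ConnectedComponent.sound
        (SimpleGraph.Adj.reachable (show K.Adj u v from ⟨⟨hu, hv⟩, hc', hadj⟩)))) hsep (by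
      intro D hD
      obtain ⟨a', ha1, ha2, ha3⟩ := hD a ha
      obtain ⟨b', hb1, hb2, hb3⟩ := hD b hb
      obtain ⟨c', hc1, hc2, hc3⟩ := hD c hc
      refine hclq _ ?_
      intro x hx y hy hxy
      have hx' := (mem_filter.1 hx).2.2
      have hy' := (mem_filter.1 hy).2.2
      exact comp_clique (K := K) comp (fun x y h => h.2.1) hK1 hK2 (fun x y h => h.2.2)
        (a := a') (b := b') (c := c')
        (by rw [ha2, hb2]; exact hab) (by rw [ha2, hc2]; exact hac) (by rw [hb2, hc2]; exact hbc)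
        (SimpleGraph.ConnectedComponent.exact (ha3.trans hb3.symm))
        (SimpleGraph.ConnectedComponent.exact (ha3.trans hc3.symm))
        (SimpleGraph.ConnectedComponent.exact (ha3.trans hx'.symm))
        (SimpleGraph.ConnectedComponent.exact (ha3.trans hy'.symm)) hxy) hn hU
  rcases hall a with h1 | h1 <;> rcases hall b with h2 | h2 <;> rcases hall c with h3 | h3
  · exact hab (h1.trans h2.symm)
  · exact hab (h1.trans h2.symm)
  · exact hac (h1.trans h3.symm)
  · exact hbc (h2.trans h3.symm)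
  · exact hbc (h2.trans h3.symm)
  · exact hac (h1.trans h3.symm)
  · exact hab (h1.trans h2.symm)
  · exact hab (h1.trans h2.symm)

/-- two sides without edges of `H` between them which are factor-critical in `H` -/
structure Sid {V : Type} (H : SimpleGraph V) (X Y : Finset V) (p q : ℕ) : Prop where
  cov : ∀ v, v ∈ X ∨ v ∈ Y
  dis : ∀ v, v ∈ X → v ∉ Y
  nh : ∀ x ∈ X, ∀ y ∈ Y, ¬ H.Adj x y
  mX : ∀ v ∈ X, ∃ x y : Fin p → V, (∀ i, H.Adj (x i) (y i)) ∧ (∀ i j, i ≠ j → x i ≠ x j ∧ y i ≠ y j) ∧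
    (∀ i j, x i ≠ y j) ∧ ∀ i, (x i ∈ X ∧ x i ≠ v) ∧ (y i ∈ X ∧ y i ≠ v)
  mY : ∀ v ∈ Y, ∃ x y : Fin q → V, (∀ i, H.Adj (x i) (y i)) ∧ (∀ i j, i ≠ j → x i ≠ x j ∧ y i ≠ y j) ∧
    (∀ i j, x i ≠ y j) ∧ ∀ i, (x i ∈ Y ∧ x i ≠ v) ∧ (y i ∈ Y ∧ y i ≠ v)
  cX : X.card = 2 * p + 1
  cY : Y.card = 2 * q + 1

namespace Sid

variable {V : Type} {G H : SimpleGraph V} {X Y : Finset V} {p q : ℕ}

theorem symm (S : Sid H X Y p q) : Sid H Y X q p where
  cov := fun v => (S.cov v).symm
  dis := fun v hy hx => S.dis v hx hy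
  nh := fun x hx y hy hxy => S.nh y hy x hx hxy.symm
  mX := S.mY
  mY := S.mX
  cX := S.cY
  cY := S.cX

theorem cli (S : Sid H X Y p q) (h : Two G H) {x y z : V} (hx : x ∈ X) (hy : y ∈ Y) (hz : z ∈ X)
    (hxy : G.Adj x y) (hzy : G.Adj z y) (hxz : x ≠ z) : G.Adj x z := by
  by_contra hn
  rcases h.2.2 x y z hxy hzy.symm hxz hn with h1 | h1
  · exact S.nh x hx y hy h1
  · exact S.nh z hz y hy h1.symm

/-- the first case: a good cross pair -/
theorem minor (S : Sid H X Y p q) (h : Two G H) {a b c d : V} (ha : a ∈ X) (hb : b ∈ X) (hc : c ∈ Y)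
    (hd : d ∈ Y) (hab : H.Adj a b) (hcd : H.Adj c d) (hac : G.Adj a c) (had : G.Adj a d)
    (hbc : G.Adj b c) : HasMinor G (p + q + 1) := by
  obtain ⟨x1, y1, e1, e2, e3, e4⟩ := S.mX a ha
  obtain ⟨x2, y2, f1, f2, f3, f4⟩ := S.mY c hc
  have hne : ∀ u ∈ X, ∀ v ∈ Y, u ≠ v := fun u hu v hv e => S.dis u hu (e ▸ hv)
  -- an H-edge in X without a touches the pair
  have t1 : ∀ r ∈ X, ∀ s ∈ X, r ≠ a → s ≠ a → H.Adj r s →
      G.Adj a r ∨ G.Adj a s ∨ G.Adj c r ∨ G.Adj c s := by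
    intro r hr s hs hra hsa hrs
    rcases h.2.1 r s c d hrs hcd (hne r hr c hc) (hne r hr d hd) (hne s hs c hc) (hne s hs d hd)
      with g | g | g | g
    · exact Or.inr (Or.inr (Or.inl g.symm))
    · exact Or.inl (S.cli h ha hd hr had g hra.symm)
    · exact Or.inr (Or.inr (Or.inr g.symm))
    · exact Or.inr (Or.inl (S.cli h ha hd hs had g hsa.symm))
  have t2 : ∀ r ∈ Y, ∀ s ∈ Y, r ≠ c → s ≠ c → H.Adj r s →
      G.Adj a r ∨ G.Adj a s ∨ G.Adj c r ∨ G.Adj c s := by
    intro r hr s hs hrc hsc hrs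
    rcases h.2.1 a b r s hab hrs (hne a ha r hr) (hne a ha s hs) (hne b hb r hr) (hne b hb s hs)
      with g | g | g | g
    · exact Or.inl g
    · exact Or.inr (Or.inl g)
    · exact Or.inr (Or.inr (Or.inl (S.symm.cli h hc hb hr hbc.symm g.symm hrc.symm)))
    · exact Or.inr (Or.inr (Or.inr (S.symm.cli h hc hb hs hbc.symm g.symm hsc.symm)))
  -- all pairs, with labels in a sum
  let ι : Type := (Fin p ⊕ Fin q) ⊕ Unit
  let x : ι → V := Sum.elim (Sum.elim x1 x2) (fun _ => a)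
  let y : ι → V := Sum.elim (Sum.elim y1 y2) (fun _ => c)
  have hcard : Fintype.card ι = p + q + 1 := by simp [ι]
  let e : Fin (p + q + 1) ≃ ι := (Fintype.equivFinOfCardEq hcard).symm
  have hxy : ∀ i, G.Adj (x i) (y i) := by
    rintro ((i | i) | i)
    · exact h.1 _ _ (e1 i)
    · exact h.1 _ _ (f1 i)
    · exact hac
  have hx : ∀ i j, i ≠ j → x i ≠ x j := by
    rintro ((i | i) | i) ((j | j) | j) hij
    · exact (e2 i j (fun e => hij (by rw [e]))).1
    · exact hne _ (e4 i).1.1 _ (f4 j).1.1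
    · exact (e4 i).1.2
    · exact (hne _ (e4 j).1.1 _ (f4 i).1.1).symm
    · exact (f2 i j (fun e => hij (by rw [e]))).1
    · exact (hne a ha _ (f4 i).1.1).symm
    · exact (e4 j).1.2.symm
    · exact hne a ha _ (f4 j).1.1
    · exact absurd rfl hij
  have hy : ∀ i j, i ≠ j → y i ≠ y j := by
    rintro ((i | i) | i) ((j | j) | j) hij
    · exact (e2 i j (fun e => hij (by rw [e]))).2
    · exact hne _ (e4 i).2.1 _ (f4 j).2.1
    · exact hne _ (e4 i).2.1 c hc
    · exact (hne _ (e4 j).2.1 _ (f4 i).2.1).symm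
    · exact (f2 i j (fun e => hij (by rw [e]))).2
    · exact (f4 i).2.2
    · exact (hne _ (e4 j).2.1 c hc).symm
    · exact (f4 j).2.2.symm
    · exact absurd rfl hij
  have hd' : ∀ i j, x i ≠ y j := by
    rintro ((i | i) | i) ((j | j) | j)
    · exact e3 i j
    · exact hne _ (e4 i).1.1 _ (f4 j).2.1
    · exact hne _ (e4 i).1.1 c hc
    · exact (hne _ (e4 j).2.1 _ (f4 i).1.1).symm
    · exact f3 i j
    · exact (f4 i).1.2
    · exact (e4 j).2.2.symm
    · exact hne a ha _ (f4 j).2.1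
    · exact hne a ha c hc
  have hH : ∀ i j, i ≠ j → H.Adj (x i) (y i) → H.Adj (x j) (y j) →
      G.Adj (x i) (x j) ∨ G.Adj (x i) (y j) ∨ G.Adj (y i) (x j) ∨ G.Adj (y i) (y j) := by
    intro i j hij hi hj
    exact h.2.1 _ _ _ _ hi hj (hx i j hij) (hd' i j) (hd' j i).symm (hy i j hij)
  have hp : ∀ i : Fin p ⊕ Fin q, H.Adj (x (Sum.inl i)) (y (Sum.inl i)) := by
    rintro (i | i)
    · exact e1 i
    · exact f1 i
  have hc' : ∀ i : Fin p ⊕ Fin q, G.Adj a (x (Sum.inl i)) ∨ G.Adj a (y (Sum.inl i)) ∨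
      G.Adj c (x (Sum.inl i)) ∨ G.Adj c (y (Sum.inl i)) := by
    rintro (i | i)
    · exact t1 _ (e4 i).1.1 _ (e4 i).2.1 (e4 i).1.2 (e4 i).2.2 (e1 i)
    · exact t2 _ (f4 i).1.1 _ (f4 i).2.1 (f4 i).1.2 (f4 i).2.2 (f1 i)
  have ht : ∀ i j, i ≠ j → G.Adj (x i) (x j) ∨ G.Adj (x i) (y j) ∨ G.Adj (y i) (x j) ∨ G.Adj (y i) (y j) := by
    rintro (i | i) (j | j) hij
    · exact hH _ _ hij (hp i) (hp j)
    · rcases hc' i with g | g | g | g
      · exact Or.inl g.symm
      · exact Or.inr (Or.inr (Or.inl g.symm))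
      · exact Or.inr (Or.inl g.symm)
      · exact Or.inr (Or.inr (Or.inr g.symm))
    · exact hc' j
    · exact absurd rfl hij
  exact T3F.hasMinor_of_pairs (fun i => x (e i)) (fun i => y (e i)) (fun i => hxy _)
    (fun i j hij => hx _ _ (fun h' => hij (e.injective h')))
    (fun i j hij => hy _ _ (fun h' => hij (e.injective h'))) (fun i j => hd' _ _)
    (fun i j hij => ht _ _ (fun h' => hij (e.injective h')))

/-- a set meeting all edges of `H` in `X` is large -/
theorem cover (S : Sid H X Y p q) (A : Finset V) (hA : ∀ r ∈ X, ∀ s ∈ X, H.Adj r s → r ∈ A ∨ s ∈ A)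
    {v : V} (hv : v ∈ X) : p ≤ (A.erase v).card := by
  obtain ⟨x, y, e1, e2, e3, e4⟩ := S.mX v hv
  let f : Fin p → V := fun i => if x i ∈ A then x i else y i
  have hf : ∀ i, f i ∈ A.erase v := by
    intro i
    rw [mem_erase]
    by_cases hi : x i ∈ A
    · simp only [f, if_pos hi]
      exact ⟨(e4 i).1.2, hi⟩
    · simp only [f, if_neg hi]
      exact ⟨(e4 i).2.2, (hA _ (e4 i).1.1 _ (e4 i).2.1 (e1 i)).resolve_left hi⟩
  have hinj : Function.Injective f := by
    intro i j hij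
    by_contra hne
    simp only [f] at hij
    by_cases hi : x i ∈ A <;> by_cases hj : x j ∈ A
    · rw [if_pos hi, if_pos hj] at hij
      exact (e2 i j hne).1 hij
    · rw [if_pos hi, if_neg hj] at hij
      exact e3 i j hij
    · rw [if_neg hi, if_pos hj] at hij
      exact e3 j i hij.symm
    · rw [if_neg hi, if_neg hj] at hij
      exact (e2 i j hne).2 hij
  have h1 : univ.image f ⊆ A.erase v := by
    intro w hw
    obtain ⟨i, -, rfl⟩ := mem_image.1 hw
    exact hf i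
  have h2 := card_le_card h1
  rwa [card_image_of_injective _ hinj, card_univ, Fintype.card_fin] at h2

/-- if there is no good cross pair, then no vertex is adjacent to both ends of an edge of `H` on the
other side -/
theorem claim [Fintype V] (S : Sid H X Y p q) (h : Two G H) {k : ℕ}
    (hsep : ∀ A B : Finset V, Disjoint A B → A.Nonempty → B.Nonempty → (∀ a ∈ A, ∀ b ∈ B, ¬ G.Adj a b) →
      k + 1 ≤ (univ \ (A ∪ B)).card)
    (hclq : ∀ Q : Finset V, (∀ x ∈ Q, ∀ y ∈ Q, x ≠ y → G.Adj x y) → Q.card ≤ k)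
    (hn : k + 1 ≤ Fintype.card V)
    (hI : ∀ a ∈ X, ∀ b ∈ X, ∀ c ∈ Y, ∀ d ∈ Y, H.Adj a b → H.Adj c d → G.Adj a c → G.Adj a d →
      ¬ G.Adj b c) :
    ∀ a ∈ X, ∀ c ∈ Y, ∀ d ∈ Y, H.Adj c d → G.Adj a c → ¬ G.Adj a d := by
  intro a ha c hc d hd hcd hac had
  have hne : ∀ u ∈ X, ∀ v ∈ Y, u ≠ v := fun u hu v hv e => S.dis u hu (e ▸ hv)
  have key : ∀ c ∈ Y, ∀ d ∈ Y, H.Adj c d → G.Adj a c → G.Adj a d → ∀ x ∈ X, G.Adj x c → G.Adj x d := by
    intro c hc d hd hcd hac had x hx hxc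
    by_cases hxa : x = a
    · rw [hxa]; exact had
    · have h1 : G.Adj x a := S.cli h hx hc ha hxc hac hxa
      have h2 : ¬ H.Adj a x := fun h3 => hI a ha x hx c hc d hd h3 hcd hac had hxc
      by_contra h3
      rcases h.2.2 x a d h1 had (hne x hx d hd) h3 with h4 | h4
      · exact h2 h4.symm
      · exact S.nh a ha d hd h4
  let A : Finset V := X.filter (fun x => G.Adj x c)
  have hA : ∀ x, x ∈ A ↔ x ∈ X ∧ G.Adj x c := fun x => mem_filter
  have hAd : ∀ x ∈ A, G.Adj x d := fun x hx =>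
    key c hc d hd hcd hac had x ((hA x).1 hx).1 ((hA x).1 hx).2
  have hAd' : ∀ x ∈ X, G.Adj x d → x ∈ A := fun x hx hxd =>
    (hA x).2 ⟨hx, key d hd c hc hcd.symm had hac x hx hxd⟩
  have hAX : A ⊆ X := filter_subset _ _
  have haA : a ∈ A := (hA a).2 ⟨ha, hac⟩
  -- edges of `H` in `X` have exactly one end in `A`
  have hone : ∀ r ∈ X, ∀ s ∈ X, H.Adj r s → r ∈ A ∨ s ∈ A := by
    intro r hr s hs hrs
    rcases h.2.1 r s c d hrs hcd (hne r hr c hc) (hne r hr d hd) (hne s hs c hc) (hne s hs d hd)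
      with g | g | g | g
    · exact Or.inl ((hA r).2 ⟨hr, g⟩)
    · exact Or.inl (hAd' r hr g)
    · exact Or.inr ((hA s).2 ⟨hs, g⟩)
    · exact Or.inr (hAd' s hs g)
  have hnot : ∀ r ∈ A, ∀ s ∈ A, ¬ H.Adj r s := by
    intro r hr s hs hrs
    exact hI r (hAX hr) s (hAX hs) c hc d hd hrs hcd ((hA r).1 hr).2 (hAd r hr) ((hA s).1 hs).2
  have c1 := S.cover A hone ha
  rw [card_erase_of_mem haA] at c1
  have c0 : 0 < A.card := card_pos.2 ⟨a, haA⟩
  by_cases hex : ∃ v ∈ X, v ∉ A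
  · obtain ⟨v, hv, hvA⟩ := hex
    have c2 := S.cover (X \ A) (by
      intro r hr s hs hrs
      by_cases hrA : r ∈ A
      · right
        exact mem_sdiff.2 ⟨hs, fun hsA => hnot r hrA s hsA hrs⟩
      · left
        exact mem_sdiff.2 ⟨hr, hrA⟩) hv
    have hvm : v ∈ X \ A := mem_sdiff.2 ⟨hv, hvA⟩
    rw [card_erase_of_mem hvm] at c2
    have c3 : 0 < (X \ A).card := card_pos.2 ⟨v, hvm⟩
    have c4 := card_sdiff_add_card_eq_card hAX
    have c5 := S.cX
    omega
  · push Not at hex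
    have hp0 : p = 0 := by
      by_contra hp
      obtain ⟨x, y, e1, -, -, e4⟩ := S.mX a ha
      have i0 : Fin p := ⟨0, by omega⟩
      exact hnot _ (hex _ (e4 i0).1.1) _ (hex _ (e4 i0).2.1) (e1 i0)
    have hX1 : ∀ v ∈ X, v = a := by
      have := S.cX
      intro v hv
      exact card_le_one.1 (by omega) v hv a ha
    have hY : ∀ v, v ≠ a → v ∈ Y := fun v hv => (S.cov v).resolve_left (fun h' => hv (hX1 v h'))
    have hcl : ∀ u v, G.Adj a u → G.Adj a v → u ≠ v → G.Adj u v := by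
      intro u v hu hv huv
      exact S.symm.cli h (hY u hu.ne') ha (hY v hv.ne') hu.symm hv.symm huv
    by_cases hB : ∃ b, b ≠ a ∧ ¬ G.Adj a b
    · obtain ⟨b, hb, hab⟩ := hB
      have h1 := hsep {a} (univ.filter (fun v => v ≠ a ∧ ¬ G.Adj a v)) (by
        rw [Finset.disjoint_left]
        intro v hv hv'
        exact (mem_filter.1 hv').2.1 (mem_singleton.1 hv)) ⟨a, mem_singleton_self a⟩
        ⟨b, mem_filter.2 ⟨mem_univ _, hb, hab⟩⟩ (by
        intro u hu v hv
        rw [mem_singleton.1 hu]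
        exact (mem_filter.1 hv).2.2)
      have h2 := hclq (univ \ ({a} ∪ univ.filter (fun v => v ≠ a ∧ ¬ G.Adj a v))) (by
        intro u hu v hv huv
        simp only [mem_sdiff, mem_univ, true_and, mem_union, mem_singleton, mem_filter, not_or,
          not_and, not_not] at hu hv
        exact hcl u v (hu.2 hu.1) (hv.2 hv.1) huv)
      omega
    · push Not at hB
      have h2 := hclq univ (by
        intro u _ v _ huv
        by_cases hu : u = a
        · rw [hu]
          exact hB v (fun e => huv (hu.trans e.symm))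
        · by_cases hv : v = a
          · rw [hv]
            exact (hB u hu).symm
          · exact hcl u v (hB u hu) (hB v hv) huv)
      rw [card_univ] at h2
      omega

/-- if no vertex is adjacent to both ends of an edge of `H` on the other side, the components of the
cross edges are cliques -/
theorem parts (S : Sid H X Y p q) (h : Two G H) (K : SimpleGraph V)
    (hK : ∀ u v, K.Adj u v ↔ (¬ (u ∈ X ↔ v ∈ X)) ∧ G.Adj u v)
    (h1 : ∀ a ∈ X, ∀ c ∈ Y, ∀ d ∈ Y, H.Adj c d → G.Adj a c → ¬ G.Adj a d)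
    (h2 : ∀ a ∈ Y, ∀ c ∈ X, ∀ d ∈ X, H.Adj c d → G.Adj a c → ¬ G.Adj a d) :
    ∀ u v, K.Reachable u v → u ≠ v → G.Adj u v := by
  have hXY : ∀ v, v ∉ X → v ∈ Y := fun v hv => (S.cov v).resolve_left hv
  have hnh : ∀ u v, K.Adj u v → ¬ H.Adj u v := by
    intro u v huv hH
    have h3 := ((hK u v).1 huv).1
    by_cases hu : u ∈ X
    · have hv : v ∉ X := fun hv => h3 ⟨fun _ => hv, fun _ => hu⟩
      exact S.nh u hu v (hXY v hv) hH
    · have hv : v ∈ X := by
        by_contra hv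
        exact h3 ⟨fun h' => absurd h' hu, fun h' => absurd h' hv⟩
      exact S.nh v hv u (hXY u hu) hH.symm
  have key : ∀ (u v : V) (w : K.Walk u v), ∀ z, (z = u ∨ (G.Adj z u ∧ ¬ H.Adj z u)) →
      (z = v ∨ (G.Adj z v ∧ ¬ H.Adj z v)) := by
    intro u v w
    induction w with
    | nil => exact fun z hz => hz
    | @cons a b _ hab _ ih =>
      intro z hz
      apply ih
      have hab' := (hK a b).1 hab
      rcases hz with rfl | ⟨hz1, hz2⟩
      · exact Or.inr ⟨hab'.2, hnh _ _ hab⟩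
      · by_cases hzb : z = b
        · exact Or.inl hzb
        · right
          have hadj : G.Adj z b := by
            by_contra hn
            rcases h.2.2 z a b hz1 hab'.2 hzb hn with h3 | h3
            · exact hz2 h3
            · exact hnh _ _ hab h3
          refine ⟨hadj, fun hH => ?_⟩
          by_cases hzX : z ∈ X <;> by_cases hbX : b ∈ X
          · have haX : a ∉ X := fun haX => hab'.1 ⟨fun _ => hbX, fun _ => haX⟩
            exact h2 a (hXY a haX) z hzX b hbX hH hz1.symm hab'.2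
          · exact S.nh z hzX b (hXY b hbX) hH
          · exact S.nh b hbX z (hXY z hzX) hH.symm
          · have haX : a ∈ X := by
              by_contra haX
              exact hab'.1 ⟨fun h' => absurd h' haX, fun h' => absurd h' hbX⟩
            exact h1 a haX z (hXY z hzX) b (hXY b hbX) hH hz1.symm hab'.2
  intro u v huv hne
  obtain ⟨w⟩ := huv
  rcases key u v w u (Or.inl rfl) with h3 | h3
  · exact absurd h3 hne
  · exact h3.1

end Sid

end Pool.Agent.T2F
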