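import Mathlib
import Pool.Agent.T2F.Big

/-!
# Full Hadwiger for the class `Two`: the case of at least `2 chi` vertices, assembly
-/

set_option autoImplicit false

namespace Pool.Agent.T2F

open Finset Pool.Agent.CA31 Pool.Agent.CA72 Pool.Agent.CA31C Pool.Agent.T3 Pool.Agent.T2S
open scoped Classical

/-- membership in a filter, for any decision procedure -/
theorem mf {V : Type} [Fintype V] (p : V → Prop) (inst : DecidablePred p) (v : V)
    (h : v ∈ @Finset.filter V p inst univ) : p v := (Finset.mem_filter.1 h).2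

/-- counting odd parts -/
theorem odd_parts {V I : Type} [Fintype I] (S : Finset V) (comp : V → I) :
    S.card ≤ 2 * ∑ i, (S.filter (fun v => comp v = i)).card / 2 +
      (univ.filter (fun i => Odd (S.filter (fun v => comp v = i)).card)).card := by
  rw [Finset.card_eq_sum_card_fiberwise (s := S) (f := comp) (t := univ) (fun _ _ => mem_univ _)]
  rw [Finset.card_filter, Finset.mul_sum, ← Finset.sum_add_distrib]
  refine Finset.sum_le_sum (fun i _ => ?_)
  by_cases ho : Odd (S.filter (fun v => comp v = i)).card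
  · rw [if_pos ho]
    omega
  · rw [if_neg ho]
    have := Nat.even_iff.1 (Nat.not_odd_iff_even.1 ho)
    omega

/-- a matching inside a finite set -/
theorem match_in {V : Type} [Fintype V] (H : SimpleGraph V) (S : Finset V) {m : ℕ} (hS : S.card = 2 * m)
    (hb : ∀ (U : Finset V) (I : Type) [Fintype I] (comp : V → I), U ⊆ S →
      (∀ u ∈ S, ∀ v ∈ S, u ∉ U → v ∉ U → comp u ≠ comp v → ¬ H.Adj u v) →
      U.card + ∑ i, (S.filter (fun v => v ∉ U ∧ comp v = i)).card / 2 < m →
      (∃ a b, (a ∈ S ∧ a ∉ U) ∧ (b ∈ S ∧ b ∉ U) ∧ comp a ≠ comp b) → False) :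
    ∃ x y : Fin m → V, (∀ i, H.Adj (x i) (y i)) ∧ (∀ i j, i ≠ j → x i ≠ x j ∧ y i ≠ y j) ∧
      (∀ i j, x i ≠ y j) ∧ ∀ i, x i ∈ S ∧ y i ∈ S := by
  let H' : SimpleGraph V :=
    { Adj := fun u v => (u ∈ S ∧ v ∈ S) ∧ H.Adj u v
      symm := ⟨fun u v h => ⟨⟨h.1.2, h.1.1⟩, h.2.symm⟩⟩
      loopless := ⟨fun u h => h.2.ne rfl⟩ }
  obtain ⟨x, y, h1, h2, h3⟩ := berge H' m (by rw [← hS]; exact card_le_univ S)
    (fun U I _ comp hno => by
      by_contra hcon
      push Not at hcon
      have e1 : (U ∩ S).card ≤ U.card := card_le_card inter_subset_left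
      have e2 : ∑ i, (S.filter (fun v => v ∉ U ∩ S ∧ comp v = i)).card / 2 ≤
          ∑ i, (univ.filter (fun v => v ∉ U ∧ comp v = i)).card / 2 := by
        refine sum_le_sum (fun i _ => Nat.div_le_div_right (card_le_card ?_))
        intro v hv
        rw [mem_filter] at hv ⊢
        exact ⟨mem_univ _, fun h => hv.2.1 (mem_inter.2 ⟨h, hv.1⟩), hv.2.2⟩
      refine hb (U ∩ S) I comp inter_subset_right (fun u hu v hv hu' hv' hc hH =>
        hno u v (fun h => hu' (mem_inter.2 ⟨h, hu⟩)) (fun h => hv' (mem_inter.2 ⟨h, hv⟩)) hc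
          ⟨⟨hu, hv⟩, hH⟩) (by omega) ?_
      -- parity
      have e3 := odd_parts (S \ (U ∩ S)) comp
      have e4 := card_sdiff_add_card_eq_card (show U ∩ S ⊆ S from inter_subset_right)
      have e5 : ∀ i, (S \ (U ∩ S)).filter (fun v => comp v = i) =
          S.filter (fun v => v ∉ U ∩ S ∧ comp v = i) := by
        intro i
        ext v
        simp only [mem_filter, mem_sdiff]
        tauto
      simp only [e5] at e3
      have e6 : 1 < (univ.filter (fun i => Odd (S.filter (fun v => v ∉ U ∩ S ∧ comp v = i)).card)).card := by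
        omega
      obtain ⟨i, hi, j, hj, hij⟩ := one_lt_card.1 e6
      obtain ⟨a, ha⟩ := card_pos.1 (mem_filter.1 hi).2.pos
      obtain ⟨b, hb⟩ := card_pos.1 (mem_filter.1 hj).2.pos
      obtain ⟨ha1, ha2, ha3⟩ := mem_filter.1 ha
      obtain ⟨hb1, hb2, hb3⟩ := mem_filter.1 hb
      exact ⟨a, b, ⟨ha1, ha2⟩, ⟨hb1, hb2⟩, by rw [ha3, hb3]; exact hij⟩)
  exact ⟨x, y, fun i => (h1 i).2, h2, h3, fun i => (h1 i).1⟩

/-- the sides of a barrier are factor-critical -/
theorem side_match {V : Type} [Fintype V] {G H : SimpleGraph V} (h : Two G H) {k : ℕ}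
    (hnc : ¬ G.Colorable k)
    (hsep : ∀ A B : Finset V, Disjoint A B → A.Nonempty → B.Nonempty → (∀ a ∈ A, ∀ b ∈ B, ¬ G.Adj a b) →
      k + 1 ≤ (univ \ (A ∪ B)).card)
    (hclq : ∀ Q : Finset V, (∀ x ∈ Q, ∀ y ∈ Q, x ≠ y → G.Adj x y) → Q.card ≤ k)
    (hn : 2 * (k + 1) ≤ Fintype.card V) {X Y : Finset V} {p q : ℕ}
    (cov : ∀ v, v ∈ X ∨ v ∈ Y) (dis : ∀ v, v ∈ X → v ∉ Y) (nh : ∀ x ∈ X, ∀ y ∈ Y, ¬ H.Adj x y)
    (cX : X.card = 2 * p + 1) (cY : Y.card = 2 * q + 1) (hpq : p + q = k) :
    ∀ v ∈ X, ∃ x y : Fin p → V, (∀ i, H.Adj (x i) (y i)) ∧ (∀ i j, i ≠ j → x i ≠ x j ∧ y i ≠ y j) ∧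
    (∀ i j, x i ≠ y j) ∧ ∀ i, (x i ∈ X ∧ x i ≠ v) ∧ (y i ∈ X ∧ y i ≠ v) := by
  intro v hv
  obtain ⟨x, y, h1, h2, h3, h4⟩ := match_in H (X.erase v) (m := p)
    (by rw [card_erase_of_mem hv]; omega) (fun U I _ comp hUS hno hlt hab => by
      obtain ⟨a, b, ⟨ha, haU⟩, ⟨hb, hbU⟩, hab⟩ := hab
      obtain ⟨c, hc⟩ : Y.Nonempty := card_pos.1 (by omega)
      have hXY : ∀ w, w ∉ X → w ∈ Y := fun w hw => (cov w).resolve_left hw
      have hcX : c ∉ X := fun hcX => dis c hcX hc
      let comp' : V → Option I := fun w => if w ∈ X then some (comp w) else none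
      have hin : ∀ w ∈ X, comp' w = some (comp w) := fun w hw => if_pos hw
      have hout : ∀ w, w ∉ X → comp' w = none := fun w hw => if_neg hw
      have hvX : ∀ w ∈ U, w ∈ X := fun w hw => mem_of_mem_erase (hUS hw)
      refine no_three h hnc hsep hclq hn (insert v U) comp' ?_ ?_ (a := a) (b := b) (c := c) ?_ ?_ ?_ ?_ ?_ ?_
      · intro u w hu hw hc' hH
        rw [mem_insert, not_or] at hu hw
        by_cases huX : u ∈ X <;> by_cases hwX : w ∈ X
        · rw [hin u huX, hin w hwX] at hc'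
          exact hno u (mem_erase.2 ⟨hu.1, huX⟩) w (mem_erase.2 ⟨hw.1, hwX⟩) hu.2 hw.2
            (fun e => hc' (by rw [e])) hH
        · exact nh u huX w (hXY w hwX) hH
        · exact nh w hwX u (hXY u huX) hH.symm
        · exact hc' (by rw [hout u huX, hout w hwX])
      · rw [Fintype.sum_option]
        refine le_trans (Nat.add_le_add (card_insert_le v U) (Nat.add_le_add
          (Nat.div_le_div_right (c := 2) (card_le_card (t := Y) ?_))
          (sum_le_sum (g := fun i => ((X.erase v).filter (fun w => w ∉ U ∧ comp w = i)).card / 2)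
            (fun i _ => Nat.div_le_div_right (c := 2) (card_le_card ?_))))) ?_
        · intro w hw
          obtain ⟨-, hw3⟩ := mf _ _ _ hw
          apply hXY
          intro hwX
          rw [hin w hwX] at hw3
          exact absurd hw3 (by simp)
        · intro w hw
          obtain ⟨hw1, hw3⟩ := mf _ _ _ hw
          rw [mem_insert, not_or] at hw1
          obtain ⟨hw1, hw2⟩ := hw1
          have hwX : w ∈ X := by
            by_contra hwX
            rw [hout w hwX] at hw3
            exact absurd hw3 (by simp)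
          rw [hin w hwX] at hw3
          exact mem_filter.2 ⟨mem_erase.2 ⟨hw1, hwX⟩, hw2, Option.some.inj hw3⟩
        · omega
      · rw [mem_insert, not_or]
        exact ⟨ne_of_mem_erase ha, haU⟩
      · rw [mem_insert, not_or]
        exact ⟨ne_of_mem_erase hb, hbU⟩
      · rw [mem_insert, not_or]
        exact ⟨fun e => hcX (e ▸ hv), fun e => hcX (hvX c e)⟩
      · rw [hin a (mem_of_mem_erase ha), hin b (mem_of_mem_erase hb)]
        exact fun e => hab (Option.some.inj e)
      · rw [hin a (mem_of_mem_erase ha), hout c hcX]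
        simp
      · rw [hin b (mem_of_mem_erase hb), hout c hcX]
        simp)
  exact ⟨x, y, h1, h2, h3, fun i => ⟨⟨mem_of_mem_erase (h4 i).1, ne_of_mem_erase (h4 i).1⟩,
    ⟨mem_of_mem_erase (h4 i).2, ne_of_mem_erase (h4 i).2⟩⟩⟩

/-- the two sides -/
theorem exists_sid {V : Type} [Fintype V] {G H : SimpleGraph V} (h : Two G H) {k : ℕ}
    (hnc : ¬ G.Colorable k)
    (hsep : ∀ A B : Finset V, Disjoint A B → A.Nonempty → B.Nonempty → (∀ a ∈ A, ∀ b ∈ B, ¬ G.Adj a b) →
      k + 1 ≤ (univ \ (A ∪ B)).card)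
    (hclq : ∀ Q : Finset V, (∀ x ∈ Q, ∀ y ∈ Q, x ≠ y → G.Adj x y) → Q.card ≤ k)
    (hn : 2 * (k + 1) ≤ Fintype.card V) {I : Type} [Fintype I] (U : Finset V) (comp : V → I)
    (hno : ∀ u v, u ∉ U → v ∉ U → comp u ≠ comp v → ¬ H.Adj u v)
    (hU : U.card + ∑ i, (univ.filter (fun v => v ∉ U ∧ comp v = i)).card / 2 ≤ k) :
    ∃ (X Y : Finset V) (p q : ℕ), Sid H X Y p q ∧ p + q = k := by
  have h3 := fun a b c ha hb hc => no_three h hnc hsep hclq hn U comp hno hU (a := a) (b := b) (c := c)
    ha hb hc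
  have e3 := odd_parts (univ \ U) comp
  have e5 : ∀ i, (univ \ U).filter (fun v => comp v = i) =
      univ.filter (fun v => v ∉ U ∧ comp v = i) := by
    intro i
    ext v
    simp only [mem_filter, mem_sdiff, mem_univ, true_and]
  simp only [e5] at e3
  have e4 : (univ \ U).card + U.card = Fintype.card V := by
    rw [card_sdiff_add_card_eq_card (subset_univ U), card_univ]
  have e6 : 1 < (univ.filter (fun i => Odd (univ.filter (fun v => v ∉ U ∧ comp v = i)).card)).card := by
    omega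
  obtain ⟨i, hi, j, hj, hij⟩ := one_lt_card.1 e6
  obtain ⟨a, ha⟩ := card_pos.1 (mem_filter.1 hi).2.pos
  obtain ⟨b, hb⟩ := card_pos.1 (mem_filter.1 hj).2.pos
  obtain ⟨-, ha2, ha3⟩ := mem_filter.1 ha
  obtain ⟨-, hb2, hb3⟩ := mem_filter.1 hb
  have hall : ∀ v, v ∉ U → comp v = i ∨ comp v = j := by
    intro v hv
    by_contra hcon
    push Not at hcon
    exact h3 a b v ha2 hb2 hv (by rw [ha3, hb3]; exact hij) (by rw [ha3]; exact hcon.1.symm)
      (by rw [hb3]; exact hcon.2.symm)
  have e7 : (univ.filter (fun i => Odd (univ.filter (fun v => v ∉ U ∧ comp v = i)).card)) ⊆ {i, j} := by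
    intro l hl
    obtain ⟨c, hc⟩ := card_pos.1 (mem_filter.1 hl).2.pos
    obtain ⟨-, hc2, hc3⟩ := mem_filter.1 hc
    rw [mem_insert, mem_singleton]
    rcases hall c hc2 with h' | h'
    · exact Or.inl (hc3.symm.trans h')
    · exact Or.inr (hc3.symm.trans h')
  have e8 := card_le_card e7
  rw [card_pair hij] at e8
  have hU0 : U = ∅ := card_eq_zero.1 (by omega)
  subst hU0
  have hall : ∀ v, comp v = i ∨ comp v = j := fun v => hall v (notMem_empty v)
  simp only [notMem_empty, not_false_eq_true, true_and] at hi hj hU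
  have e9 : Fintype.card V = (univ.filter (fun v => comp v = i)).card + (univ.filter (fun v => comp v = j)).card := by
    rw [← card_univ, ← card_union_of_disjoint]
    · congr 1
      ext v
      simp only [mem_univ, mem_union, mem_filter, true_and, true_iff]
      exact hall v
    · rw [Finset.disjoint_left]
      intro v hv hv'
      exact hij ((mem_filter.1 hv).2.symm.trans (mem_filter.1 hv').2)
  obtain ⟨p, hp⟩ := (mem_filter.1 hi).2
  obtain ⟨q, hq⟩ := (mem_filter.1 hj).2
  have e10 : ∑ l, (univ.filter (fun v => comp v = l)).card / 2 = p + q := by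
    have hrest : ∀ l, l ∉ ({i, j} : Finset I) → (univ.filter (fun v => comp v = l)).card / 2 = 0 := by
      intro l hl
      rw [mem_insert, mem_singleton, not_or] at hl
      rw [show (univ.filter (fun v => comp v = l)).card = 0 from ?_]
      rw [card_eq_zero, filter_eq_empty_iff]
      intro v _ hvl
      rcases hall v with h' | h'
      · exact hl.1 (hvl.symm.trans h')
      · exact hl.2 (hvl.symm.trans h')
    rw [← Finset.sum_subset (subset_univ ({i, j} : Finset I)) (fun l _ hl => hrest l hl),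
      Finset.sum_pair hij, hp, hq]
    omega
  have hpq : p + q = k := by omega
  have cov : ∀ v, v ∈ univ.filter (fun v => comp v = i) ∨ v ∈ univ.filter (fun v => comp v = j) := by
    intro v
    rcases hall v with h' | h'
    · exact Or.inl (mem_filter.2 ⟨mem_univ _, h'⟩)
    · exact Or.inr (mem_filter.2 ⟨mem_univ _, h'⟩)
  have dis : ∀ v, v ∈ univ.filter (fun v => comp v = i) → v ∉ univ.filter (fun v => comp v = j) := by
    intro v hv hv'
    exact hij ((mem_filter.1 hv).2.symm.trans (mem_filter.1 hv').2)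
  have nh : ∀ x ∈ univ.filter (fun v => comp v = i), ∀ y ∈ univ.filter (fun v => comp v = j), ¬ H.Adj x y := by
    intro x hx y hy
    refine hno x y (notMem_empty _) (notMem_empty _) ?_
    rw [(mem_filter.1 hx).2, (mem_filter.1 hy).2]
    exact hij
  refine ⟨univ.filter (fun v => comp v = i), univ.filter (fun v => comp v = j), p, q,
    ⟨cov, dis, nh, ?_, ?_, hp, hq⟩, hpq⟩
  · exact side_match h hnc hsep hclq hn cov dis nh hp hq hpq
  · exact side_match h hnc hsep hclq hn (fun v => (cov v).symm) (fun v hv hv' => dis v hv' hv)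
      (fun x hx y hy hxy => nh y hy x hx hxy.symm) hq hp (by omega)

/-- full Hadwiger for the class `Two`: the case of at least `2 chi` vertices -/
theorem big {V : Type} [Fintype V] {G H : SimpleGraph V} (h : Two G H) {k : ℕ}
    (hnc : ¬ G.Colorable k)
    (hsep : ∀ A B : Finset V, Disjoint A B → A.Nonempty → B.Nonempty → (∀ a ∈ A, ∀ b ∈ B, ¬ G.Adj a b) →
      k + 1 ≤ (univ \ (A ∪ B)).card)
    (hclq : ∀ Q : Finset V, (∀ x ∈ Q, ∀ y ∈ Q, x ≠ y → G.Adj x y) → Q.card ≤ k)
    (hn : 2 * (k + 1) ≤ Fintype.card V) : HasMinor G (k + 1) := by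
  by_cases hb : ∀ (U : Finset V) (I : Type) [Fintype I] (comp : V → I),
      (∀ u v, u ∉ U → v ∉ U → comp u ≠ comp v → ¬ H.Adj u v) →
      k + 1 ≤ U.card + ∑ i, (univ.filter (fun v => v ∉ U ∧ comp v = i)).card / 2
  · obtain ⟨x, y, h1, h2, h3⟩ := berge H (k + 1) hn hb
    exact T3F.hasMinor_of_pairs x y (fun i => h.1 _ _ (h1 i)) (fun i j hij => (h2 i j hij).1)
      (fun i j hij => (h2 i j hij).2) h3 (fun i j hij => h.2.1 _ _ _ _ (h1 i) (h1 j)
        (h2 i j hij).1 (h3 i j) (h3 j i).symm (h2 i j hij).2)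
  push Not at hb
  obtain ⟨U, I, hI, comp, hno, hU⟩ := hb
  obtain ⟨X, Y, p, q, S, hpq⟩ := exists_sid h hnc hsep hclq hn U comp hno (by omega)
  by_contra hminor
  have hI : ∀ a ∈ X, ∀ b ∈ X, ∀ c ∈ Y, ∀ d ∈ Y, H.Adj a b → H.Adj c d → G.Adj a c → G.Adj a d →
      ¬ G.Adj b c := by
    intro a ha b hb c hc d hd hab hcd hac had hbc
    have := S.minor h ha hb hc hd hab hcd hac had hbc
    rw [hpq] at this
    exact hminor this
  have h1 := S.claim h hsep hclq (by omega) hI
  have h2 := S.symm.claim h hsep hclq (by omega) (fun a ha b hb c hc d hd hab hcd hac had hbc =>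
    hI c hc d hd a ha b hb hcd hab hac.symm hbc.symm had.symm)
  let K : SimpleGraph V :=
    { Adj := fun u v => (¬ (u ∈ X ↔ v ∈ X)) ∧ G.Adj u v
      symm := ⟨fun u v h => ⟨fun h' => h.1 h'.symm, h.2.symm⟩⟩
      loopless := ⟨fun u h => h.2.ne rfl⟩ }
  have hparts := S.parts h K (fun u v => Iff.rfl) h1 h2
  have hXY : ∀ v, v ∉ X → v ∈ Y := fun v hv => (S.cov v).resolve_left hv
  have hYX : ∀ v, v ∈ Y → v ∉ X := fun v hv hv' => S.dis v hv' hv
  have hcross : ∀ u ∈ X, ∀ v ∈ Y, G.Adj u v → K.Adj u v := by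
    intro u hu v hv huv
    exact ⟨fun h' => hYX v hv (h'.1 hu), huv⟩
  let cl : V → K.ConnectedComponent := fun v => K.connectedComponentMk v
  have hclq2 : ∀ u v, cl u = cl v → u ≠ v → G.Adj u v := fun u v huv =>
    hparts u v (SimpleGraph.ConnectedComponent.exact huv)
  let C : V → Bool := fun v => decide (v ∈ X)
  have hCt : ∀ v, C v = true ↔ v ∈ X := fun v => decide_eq_true_iff
  have hCf : ∀ v, C v = false ↔ v ∉ X := fun v => decide_eq_false_iff_not
  have hCeq : ∀ u v, C u = C v ↔ (u ∈ X ↔ v ∈ X) := by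
    intro u v
    show decide (u ∈ X) = decide (v ∈ X) ↔ _
    exact decide_eq_decide
  have hX : univ.filter (fun v => C v = true) = X := by
    ext v
    rw [mem_filter, hCt]
    exact ⟨fun h => h.2, fun h => ⟨mem_univ _, h⟩⟩
  have hY : univ.filter (fun v => C v = false) = Y := by
    ext v
    rw [mem_filter, hCf]
    exact ⟨fun h => hXY v h.2, fun h => ⟨mem_univ _, hYX v h⟩⟩
  have hsumB : (∅ : Finset V).card + ∑ i : Bool, (univ.filter (fun v => v ∉ (∅ : Finset V) ∧ C v = i)).card / 2 ≤ k := by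
    rw [Fintype.sum_bool]
    simp only [notMem_empty, not_false_eq_true, true_and, card_empty]
    rw [hX, hY, S.cX, S.cY]
    omega
  obtain ⟨-, i, j, hij, -, hci, hcj, hpar, hx⟩ := countG (G := G) cl hnc ∅ C
    (fun u v _ _ hc hcl' hadj => hcl' (SimpleGraph.ConnectedComponent.sound
      (SimpleGraph.Adj.reachable (show K.Adj u v from ⟨fun h' => hc ((hCeq u v).2 h'), hadj⟩))))
    hsep (by
      intro a _
      refine hclq _ ?_
      intro x hx y hy hxy
      exact hclq2 x y ((mem_filter.1 hx).2.2.trans (mem_filter.1 hy).2.2.symm) hxy) hn (by convert hsumB)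
  have hfX : ∀ a, X.filter (fun v => cl v = a) = univ.filter (fun v => C v = true ∧ cl v = a) := by
    intro a
    ext v
    simp only [mem_filter, mem_univ, true_and, hCt]
  have hfY : ∀ a, Y.filter (fun v => cl v = a) = univ.filter (fun v => C v = false ∧ cl v = a) := by
    intro a
    ext v
    simp only [mem_filter, mem_univ, true_and, hCf]
    exact ⟨fun h => ⟨hYX v h.1, h.2⟩, fun h => ⟨hXY v h.1, h.2⟩⟩
  -- in either order of the two labels
  have key : X.card = k + 1 ∧ Y.card = k + 1 ∧ ∀ a, (X.filter (fun v => cl v = a)).card =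
      (Y.filter (fun v => cl v = a)).card ∧ 2 * (X.filter (fun v => cl v = a)).card ≤ k := by
    have hb : (i = true ∧ j = false) ∨ (i = false ∧ j = true) := by
      revert hij
      cases i <;> cases j <;> simp
    rcases hb with ⟨rfl, rfl⟩ | ⟨rfl, rfl⟩
    · refine ⟨?_, ?_, fun a => ?_⟩
      · rw [← hX]
        convert hci
      · rw [← hY]
        convert hcj
      · rw [hfX, hfY]
        convert hx a
    · refine ⟨?_, ?_, fun a => ?_⟩
      · rw [← hX]
        convert hcj
      · rw [← hY]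
        convert hci
      · rw [hfX, hfY]
        obtain ⟨g1, g2⟩ := hx a
        have g3 := g2
        rw [g1] at g3
        exact ⟨by convert g1.symm, by convert g3⟩
  obtain ⟨cX, cY, hx⟩ := key
  have hk2 : 2 * (k / 2) = k := by omega
  have hsys : Sys G cl X Y (k / 2) := by
    refine ⟨S.cov, S.dis, ?_, ?_, ?_, ?_, ?_, fun a => (hx a).1, fun a => ?_, by omega, by omega, ?_⟩
    · intro u hu v hv huv
      exact SimpleGraph.ConnectedComponent.sound (SimpleGraph.Adj.reachable (hcross u hu v hv huv))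
    · intro x hx y hy z hz hxy hzy hxz
      exact S.cli h hx hy hz hxy hzy hxz
    · intro x hx y hy z hz hxy hzy hxz
      exact S.symm.cli h hx hy hz hxy hzy hxz
    · intro x hxX
      have g1 : 0 < (X.filter (fun v => cl v = cl x)).card :=
        card_pos.2 ⟨x, mem_filter.2 ⟨hxX, rfl⟩⟩
      rw [(hx (cl x)).1] at g1
      obtain ⟨y, hy⟩ := card_pos.1 g1
      obtain ⟨hyY, hcly⟩ := mem_filter.1 hy
      exact ⟨y, hyY, hclq2 x y hcly.symm (fun e => S.dis x hxX (e ▸ hyY))⟩
    · intro y hyY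
      have g1 : 0 < (Y.filter (fun v => cl v = cl y)).card :=
        card_pos.2 ⟨y, mem_filter.2 ⟨hyY, rfl⟩⟩
      rw [← (hx (cl y)).1] at g1
      obtain ⟨x, hx'⟩ := card_pos.1 g1
      obtain ⟨hxX, hclx⟩ := mem_filter.1 hx'
      exact ⟨x, hxX, hclq2 y x hclx.symm (fun e => S.dis x hxX (e ▸ hyY))⟩
    · have := (hx a).2
      omega
    · intro s hs
      by_contra hcon
      obtain ⟨t, ht, htc⟩ := exists_subset_card_eq (s := s) (n := k) (by omega)
      exact hminor (T3F.hasMinor_of_clique hsep (by omega) htc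
        (fun u hu v hv huv => hs u (ht hu) v (ht hv) huv))
  have hcol := colorable hsys
  rw [hk2] at hcol
  exact hnc hcol

end Pool.Agent.T2F
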