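import Mathlib
import Pool.Agent.T2F.Main
import Pool.Agent.T3F.Alpha2

/-!
# Full Hadwiger for the class `Two`: independence number two and small cliques

If all cliques have at most `k / 2` vertices, then every vertex `v` and a suitable matching of `H - v`
with `k` edges give a minor.
-/

set_option autoImplicit false

namespace Pool.Agent.T2F

open Finset Pool.Agent.CA31 Pool.Agent.CA72 Pool.Agent.CA31C Pool.Agent.T3 Pool.Agent.T2S
open scoped Classical

/-- a vertex and a matching of pairwise touching edges dominated by it -/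
theorem hasMinor_of_vertex_pairs {V : Type} {G : SimpleGraph V} {m : ℕ} (v : V) (x y : Fin m → V)
    (hxy : ∀ i, G.Adj (x i) (y i)) (hx : ∀ i j, i ≠ j → x i ≠ x j) (hy : ∀ i j, i ≠ j → y i ≠ y j)
    (hd : ∀ i j, x i ≠ y j) (hvx : ∀ i, x i ≠ v) (hvy : ∀ i, y i ≠ v)
    (hv : ∀ i, G.Adj v (x i) ∨ G.Adj v (y i))
    (ht : ∀ i j, i ≠ j → G.Adj (x i) (x j) ∨ G.Adj (x i) (y j) ∨ G.Adj (y i) (x j) ∨ G.Adj (y i) (y j)) :
    HasMinor G (m + 1) := by
  refine T3F.hasMinor_of_fam (ι := Option (Fin m)) (fun o => match o with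
    | none => {v}
    | some i => {x i} ∪ {y i}) ?_ ?_ ?_ (by rw [Fintype.card_option, Fintype.card_fin])
  · rintro (_ | i)
    · exact singleton_conn G _
    · exact conn_two (singleton_conn G _) (singleton_conn G _) ⟨x i, rfl, y i, rfl, hxy i⟩
  · rintro (_ | i) (_ | j) hij
    · exact absurd rfl hij
    · exact Set.disjoint_union_right.2 ⟨by rw [Set.disjoint_singleton]; exact (hvx j).symm,
        by rw [Set.disjoint_singleton]; exact (hvy j).symm⟩
    · exact Set.disjoint_union_left.2 ⟨by rw [Set.disjoint_singleton]; exact hvx i,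
        by rw [Set.disjoint_singleton]; exact hvy i⟩
    · have hij' : i ≠ j := fun e => hij (congrArg some e)
      refine Set.disjoint_union_left.2 ⟨Set.disjoint_union_right.2 ⟨?_, ?_⟩, Set.disjoint_union_right.2 ⟨?_, ?_⟩⟩
      · rw [Set.disjoint_singleton]; exact hx i j hij'
      · rw [Set.disjoint_singleton]; exact hd i j
      · rw [Set.disjoint_singleton]; exact (hd j i).symm
      · rw [Set.disjoint_singleton]; exact hy i j hij'
  · rintro (_ | i) (_ | j) hij
    · exact absurd rfl hij
    · rcases hv j with h | h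
      · exact ⟨v, rfl, x j, Or.inl rfl, h⟩
      · exact ⟨v, rfl, y j, Or.inr rfl, h⟩
    · rcases hv i with h | h
      · exact ⟨x i, Or.inl rfl, v, rfl, h.symm⟩
      · exact ⟨y i, Or.inr rfl, v, rfl, h.symm⟩
    · have hij' : i ≠ j := fun e => hij (congrArg some e)
      rcases ht i j hij' with h | h | h | h
      · exact ⟨x i, Or.inl rfl, x j, Or.inl rfl, h⟩
      · exact ⟨x i, Or.inl rfl, y j, Or.inr rfl, h⟩
      · exact ⟨y i, Or.inr rfl, x j, Or.inl rfl, h⟩
      · exact ⟨y i, Or.inr rfl, y j, Or.inr rfl, h⟩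

/-- the counting: `O` is the set of vertices outside `U` and different from `v`, `N` the set of
non-neighbours of `v` -/
theorem small_count {V I : Type} [Fintype V] [Fintype I] (O N : Finset V) (comp : V → I) (u k : ℕ)
    (hO : u + O.card = 2 * k) (hU : u + ∑ i, (O.filter (fun v => comp v = i)).card / 2 < k)
    (hN : 2 * N.card ≤ k)
    (h1 : ∀ x ∈ O, x ∉ N → (O.filter (fun v => comp v ≠ comp x)).card < k)
    (h2 : ∀ t ∈ O, t ∈ N → (∀ y ∈ O, comp y = comp t → y ∈ N) → 2 * (2 * k + 1) ≤ 2 * u + 2 * N.card + 2 * k) :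
    False := by
  let c : I → ℕ := fun i => (O.filter (fun v => comp v = i)).card
  let R : Finset I := univ.filter (fun i => Odd (c i))
  have hpar := odd_parts O comp
  have hR : u + 2 ≤ R.card := by
    have e : R.card = (univ.filter (fun i => Odd (O.filter (fun v => comp v = i)).card)).card := rfl
    omega
  have hne : ∀ i ∈ R, ∃ x ∈ O, comp x = i := by
    intro i hi
    obtain ⟨x, hx⟩ := card_pos.1 (mem_filter.1 hi).2.pos
    exact ⟨x, (mem_filter.1 hx).1, (mem_filter.1 hx).2⟩
  -- the parts which are not inside `N`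
  let P : Finset I := R.filter (fun i => ∃ x ∈ O, comp x = i ∧ x ∉ N)
  have hPQ := card_filter_add_card_filter_not (s := R) (fun i => ∃ x ∈ O, comp x = i ∧ x ∉ N)
  rcases Nat.lt_or_ge 1 P.card with hP | hP
  · obtain ⟨i, hi, j, hj, hij⟩ := one_lt_card.1 hP
    obtain ⟨hiR, x, hx, hxi, hxN⟩ := mem_filter.1 hi
    obtain ⟨hjR, y, hy, hyj, hyN⟩ := mem_filter.1 hj
    have a1 := h1 x hx hxN
    have a2 := h1 y hy hyN
    have a3 : (O.filter (fun v => comp v ≠ comp x)).card + (O.filter (fun v => comp v ≠ comp y)).card =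
        ((O.filter (fun v => comp v ≠ comp x)) ∪ (O.filter (fun v => comp v ≠ comp y))).card +
        ((O.filter (fun v => comp v ≠ comp x)) ∩ (O.filter (fun v => comp v ≠ comp y))).card :=
      (card_union_add_card_inter _ _).symm
    have a4 : O ⊆ (O.filter (fun v => comp v ≠ comp x)) ∪ (O.filter (fun v => comp v ≠ comp y)) := by
      intro v hv
      by_cases h : comp v = comp x
      · refine mem_union_right _ (mem_filter.2 ⟨hv, fun h' => hij ?_⟩)
        rw [← hxi, ← hyj, ← h, h']
      · exact mem_union_left _ (mem_filter.2 ⟨hv, h⟩)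
    have a5 := card_le_card a4
    have a6 : (R.erase i).erase j ⊆ ((O.filter (fun v => comp v ≠ comp x)) ∩
        (O.filter (fun v => comp v ≠ comp y))).image comp := by
      intro l hl
      obtain ⟨hlj, hl'⟩ := mem_erase.1 hl
      obtain ⟨hli, hlR⟩ := mem_erase.1 hl'
      obtain ⟨z, hz, hzl⟩ := hne l hlR
      refine mem_image.2 ⟨z, mem_inter.2 ⟨mem_filter.2 ⟨hz, ?_⟩, mem_filter.2 ⟨hz, ?_⟩⟩, hzl⟩
      · rw [hzl, hxi]; exact hli
      · rw [hzl, hyj]; exact hlj
    have a7 := (card_le_card a6).trans card_image_le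
    rw [card_erase_of_mem (mem_erase.2 ⟨hij.symm, hjR⟩), card_erase_of_mem hiR] at a7
    omega
  · have hQ : u + 1 ≤ (R.filter (fun i => ¬ ∃ x ∈ O, comp x = i ∧ x ∉ N)).card := by
      have e : P.card = (R.filter (fun i => ∃ x ∈ O, comp x = i ∧ x ∉ N)).card := rfl
      omega
    have hQN : R.filter (fun i => ¬ ∃ x ∈ O, comp x = i ∧ x ∉ N) ⊆ N.image comp := by
      intro i hi
      obtain ⟨hiR, hi'⟩ := mem_filter.1 hi
      obtain ⟨x, hx, hxi⟩ := hne i hiR
      refine mem_image.2 ⟨x, ?_, hxi⟩
      by_contra h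
      exact hi' ⟨x, hx, hxi, h⟩
    have b1 := (card_le_card hQN).trans card_image_le
    obtain ⟨i, hi⟩ := card_pos.1 (show 0 < (R.filter (fun i => ¬ ∃ x ∈ O, comp x = i ∧ x ∉ N)).card by omega)
    obtain ⟨hiR, hi'⟩ := mem_filter.1 hi
    obtain ⟨t, ht, hti⟩ := hne i hiR
    have htN : t ∈ N := by
      by_contra h
      exact hi' ⟨t, ht, hti, h⟩
    have b2 := h2 t ht htN (fun y hy hyt => by
      by_contra h
      exact hi' ⟨y, hy, hyt.trans hti, h⟩)
    omega

/-- full Hadwiger for the class `Two` with independence number two and cliques of order at most `k / 2` -/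
theorem alpha_low {V : Type} [Fintype V] {G H : SimpleGraph V} (h : Two G H) {k : ℕ}
    (hα : ∀ a b c, a ≠ b → a ≠ c → b ≠ c → G.Adj a b ∨ G.Adj a c ∨ G.Adj b c)
    (hω : ∀ Q : Finset V, (∀ x ∈ Q, ∀ y ∈ Q, x ≠ y → G.Adj x y) → 2 * Q.card ≤ k)
    (hn : Fintype.card V = 2 * k + 1) : HasMinor G (k + 1) := by
  have hV : Nonempty V := by
    rw [← Fintype.card_pos_iff]; omega
  obtain ⟨v⟩ := hV
  let N : Finset V := univ.filter (fun y => y ≠ v ∧ ¬ G.Adj v y)
  have hN : 2 * N.card ≤ k := hω N (by
    intro x hx y hy hxy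
    obtain ⟨-, hx1, hx2⟩ := mem_filter.1 hx
    obtain ⟨-, hy1, hy2⟩ := mem_filter.1 hy
    rcases hα v x y hx1.symm hy1.symm hxy with h | h | h
    · exact absurd h hx2
    · exact absurd h hy2
    · exact h)
  -- non-neighbours
  let A : V → Finset V := fun t => univ.filter (fun y => y ≠ t ∧ ¬ G.Adj t y)
  have hA : ∀ t, 2 * (A t).card ≤ k := by
    intro t
    refine hω (A t) ?_
    intro x hx y hy hxy
    obtain ⟨-, hx1, hx2⟩ := mem_filter.1 hx
    obtain ⟨-, hy1, hy2⟩ := mem_filter.1 hy
    rcases hα t x y hx1.symm hy1.symm hxy with h | h | h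
    · exact absurd h hx2
    · exact absurd h hy2
    · exact h
  -- neighbours by edges outside `H`
  let B : V → Finset V := fun t => univ.filter (fun y => y = t ∨ (G.Adj t y ∧ ¬ H.Adj t y))
  have hB : ∀ t, 2 * (B t).card ≤ k := by
    intro t
    refine hω (B t) ?_
    intro x hx y hy hxy
    obtain ⟨-, hx'⟩ := mem_filter.1 hx
    obtain ⟨-, hy'⟩ := mem_filter.1 hy
    rcases hx' with rfl | ⟨hx1, hx2⟩
    · rcases hy' with rfl | ⟨hy1, hy2⟩
      · exact absurd rfl hxy
      · exact hy1
    · rcases hy' with rfl | ⟨hy1, hy2⟩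
      · exact hx1.symm
      · by_contra hn'
        rcases h.2.2 x t y hx1.symm hy1 hxy hn' with h' | h'
        · exact hx2 h'.symm
        · exact hy2 h'
  let J : SimpleGraph V :=
    { Adj := fun x y => (x ≠ v ∧ y ≠ v) ∧ H.Adj x y ∧ (G.Adj v x ∨ G.Adj v y)
      symm := ⟨fun x y h => ⟨⟨h.1.2, h.1.1⟩, h.2.1.symm, h.2.2.symm⟩⟩
      loopless := ⟨fun x h => h.2.1.ne rfl⟩ }
  obtain ⟨x, y, h1, h2, h3⟩ := berge J k (by omega) (fun U I _ comp hno => by
    by_contra hcon
    push Not at hcon
    let U' : Finset V := U.erase v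
    let O : Finset V := univ.filter (fun w => w ∉ U ∧ w ≠ v)
    have hUO : U'.card + O.card = 2 * k := by
      have e1 : univ.erase v = U' ∪ O := by
        ext w
        simp only [U', O, mem_erase, mem_univ, and_true, mem_union, mem_filter, true_and]
        tauto
      have e2 : Disjoint U' O := by
        rw [Finset.disjoint_left]
        intro w hw hw'
        exact (mem_filter.1 hw').2.1 (mem_of_mem_erase hw)
      have e3 := congrArg Finset.card e1
      rw [card_union_of_disjoint e2, card_erase_of_mem (mem_univ _), card_univ, hn] at e3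
      omega
    have hOm : ∀ w, w ∈ O ↔ w ∉ U ∧ w ≠ v := fun w => by simp [O]
    have hno' : ∀ a ∈ O, ∀ b ∈ O, comp a ≠ comp b → (a ∉ N ∨ b ∉ N) → ¬ H.Adj a b := by
      intro a ha b hb hab hor hH
      rw [hOm] at ha hb
      refine hno a b ha.1 hb.1 hab ⟨⟨ha.2, hb.2⟩, hH, ?_⟩
      rcases hor with h' | h'
      · left
        by_contra h''
        exact h' (mem_filter.2 ⟨mem_univ _, ha.2, h''⟩)
      · right
        by_contra h''
        exact h' (mem_filter.2 ⟨mem_univ _, hb.2, h''⟩)
    refine small_count O N comp U'.card k hUO ?_ hN ?_ ?_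
    · have e1 : U'.card ≤ U.card := card_le_card (erase_subset _ _)
      have e2 : ∑ i, (O.filter (fun w => comp w = i)).card / 2 ≤
          ∑ i, (univ.filter (fun w => w ∉ U ∧ comp w = i)).card / 2 := by
        refine sum_le_sum (fun i _ => Nat.div_le_div_right (card_le_card ?_))
        intro w hw
        obtain ⟨hw1, hw2⟩ := mem_filter.1 hw
        exact mem_filter.2 ⟨mem_univ _, ((hOm w).1 hw1).1, hw2⟩
      omega
    · intro x hx hxN
      have e1 : O.filter (fun w => comp w ≠ comp x) ⊆ A x ∪ (B x).erase x := by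
        intro w hw
        obtain ⟨hw1, hw2⟩ := mem_filter.1 hw
        have hwx : w ≠ x := fun e => hw2 (by rw [e])
        by_cases hadj : G.Adj x w
        · refine mem_union_right _ (mem_erase.2 ⟨hwx, mem_filter.2 ⟨mem_univ _, Or.inr ⟨hadj, ?_⟩⟩⟩)
          exact hno' x hx w hw1 hw2.symm (Or.inl hxN)
        · exact mem_union_left _ (mem_filter.2 ⟨mem_univ _, hwx, hadj⟩)
      have e2 := (card_le_card e1).trans (card_union_le _ _)
      have e3 : x ∈ B x := mem_filter.2 ⟨mem_univ _, Or.inl rfl⟩
      have e4 := card_erase_of_mem e3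
      have e5 := card_pos.2 ⟨x, e3⟩
      have e6 := hA x
      have e7 := hB x
      omega
    · intro t ht htN hin
      have e1 : (univ : Finset V) ⊆ U' ∪ (N ∪ (A t ∪ B t)) := by
        intro w _
        by_cases hwt : w = t
        · exact mem_union_right _ (mem_union_right _ (mem_union_right _ (mem_filter.2 ⟨mem_univ _, Or.inl hwt⟩)))
        · by_cases hadj : G.Adj t w
          · by_cases hH : H.Adj t w
            · by_cases hwN : w ∈ N
              · exact mem_union_right _ (mem_union_left _ hwN)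
              · have hwv : w ≠ v := by
                  rintro rfl
                  exact (mem_filter.1 htN).2.2 hadj.symm
                by_cases hwU : w ∈ U
                · exact mem_union_left _ (mem_erase.2 ⟨hwv, hwU⟩)
                · exfalso
                  have hwO : w ∈ O := (hOm w).2 ⟨hwU, hwv⟩
                  by_cases hc : comp w = comp t
                  · exact hwN (hin w hwO hc)
                  · exact hno' t ht w hwO (Ne.symm hc) (Or.inr hwN) hH
            · exact mem_union_right _ (mem_union_right _ (mem_union_right _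
                (mem_filter.2 ⟨mem_univ _, Or.inr ⟨hadj, hH⟩⟩)))
          · exact mem_union_right _ (mem_union_right _ (mem_union_left _
              (mem_filter.2 ⟨mem_univ _, hwt, hadj⟩)))
      have e2 := card_le_card e1
      rw [card_univ, hn] at e2
      have e3 := card_union_le U' (N ∪ (A t ∪ B t))
      have e4 := card_union_le N (A t ∪ B t)
      have e5 := card_union_le (A t) (B t)
      have e6 := hA t
      have e7 := hB t
      omega)
  refine hasMinor_of_vertex_pairs v x y (fun i => h.1 _ _ (h1 i).2.1) (fun i j hij => (h2 i j hij).1)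
    (fun i j hij => (h2 i j hij).2) h3 (fun i => (h1 i).1.1) (fun i => (h1 i).1.2)
    (fun i => (h1 i).2.2) ?_
  intro i j hij
  exact h.2.1 (x i) (y i) (x j) (y j) (h1 i).2.1 (h1 j).2.1 (h2 i j hij).1 (h3 i j)
    (fun e => h3 j i e.symm) (h2 i j hij).2

end Pool.Agent.T2F
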