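import Mathlib
import Pool.Agent.T2F.Small

/-!
# Full Hadwiger for the class `Two`: independence number two, cliques of order at most `(k + 1) / 2`

The borderline of the argument of `T2F/Small.lean`.
-/

set_option autoImplicit false

namespace Pool.Agent.T2F

open Finset Pool.Agent.CA31 Pool.Agent.CA72 Pool.Agent.CA31C Pool.Agent.T3 Pool.Agent.T2S
open scoped Classical

/-- membership in a filter, for any decision procedure -/
theorem mf2 {V : Type} (S : Finset V) (p : V → Prop) (inst : DecidablePred p) (v : V)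
    (h : v ∈ @Finset.filter V p inst S) : v ∈ S ∧ p v := Finset.mem_filter.1 h

section PTwo

variable {V : Type} [Fintype V] {G H : SimpleGraph V}

/-- the neighbours by edges outside `H` -/
noncomputable def Ls (G H : SimpleGraph V) (x : V) : Finset V := univ.filter (fun y => G.Adj x y ∧ ¬ H.Adj x y)

theorem mem_Ls {x y : V} : y ∈ Ls G H x ↔ G.Adj x y ∧ ¬ H.Adj x y := by simp [Ls]

theorem Ls_symm {x y : V} (h : y ∈ Ls G H x) : x ∈ Ls G H y := by
  rw [mem_Ls] at h ⊢
  exact ⟨h.1.symm, fun e => h.2 e.symm⟩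

theorem Ls_trans (h : Two G H) {x y z : V} (h1 : y ∈ Ls G H x) (h2 : z ∈ Ls G H y) (hxz : x ≠ z) :
    G.Adj x z := by
  rw [mem_Ls] at h1 h2
  by_contra hn
  rcases h.2.2 x y z h1.1 h2.1 hxz hn with h' | h'
  · exact h1.2 h'
  · exact h2.2 h'

theorem mixed_half (h : Two G H) {q : ℕ}
    (hω : ∀ Q : Finset V, (∀ x ∈ Q, ∀ y ∈ Q, x ≠ y → G.Adj x y) → Q.card ≤ q)
    {C D T : Finset V} (hCD : Disjoint C D) (hCT : Disjoint C T) (hDT : Disjoint D T)
    (hLC : ∀ x ∈ C, Ls G H x ⊆ D ∪ T) (hLD : ∀ y ∈ D, Ls G H y ⊆ C ∪ T)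
    (cC : ∀ x ∈ C, (Ls G H x).card + 1 = q) (cD : ∀ y ∈ D, (Ls G H y).card + 1 = q)
    (nCD : ∀ x ∈ C, ∀ y ∈ D, ¬ H.Adj x y) (nCT : ∀ x ∈ C, ∀ y ∈ T, ¬ H.Adj x y)
    (nDT : ∀ x ∈ D, ∀ y ∈ T, ¬ H.Adj x y)
    {x y t : V} (hx : x ∈ C) (hy : y ∈ D) (ht : t ∈ T) (hxy : y ∈ Ls G H x) (hxt : t ∈ Ls G H x) :
    q ≤ ((Ls G H x).filter (fun z => z ∈ T)).card + 2 := by
  have dCD : ∀ a ∈ C, ∀ b ∈ D, a ≠ b := fun a ha b hb e => Finset.disjoint_left.1 hCD ha (e ▸ hb)
  have dCT : ∀ a ∈ C, ∀ b ∈ T, a ≠ b := fun a ha b hb e => Finset.disjoint_left.1 hCT ha (e ▸ hb)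
  have dDT : ∀ a ∈ D, ∀ b ∈ T, a ≠ b := fun a ha b hb e => Finset.disjoint_left.1 hDT ha (e ▸ hb)
  -- closure
  have lDT : ∀ a ∈ C, ∀ b ∈ D, ∀ c ∈ T, b ∈ Ls G H a → c ∈ Ls G H a → c ∈ Ls G H b := by
    intro a ha b hb c hc h1 h2
    rw [mem_Ls]
    exact ⟨Ls_trans h (Ls_symm h1) h2 (dDT b hb c hc), nDT b hb c hc⟩
  have lCT : ∀ a ∈ C, ∀ b ∈ D, ∀ c ∈ T, b ∈ Ls G H a → c ∈ Ls G H b → c ∈ Ls G H a := by
    intro a ha b hb c hc h1 h2
    rw [mem_Ls]
    exact ⟨Ls_trans h h1 h2 (dCT a ha c hc), nCT a ha c hc⟩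
  let X : Finset V := (Ls G H y).filter (fun z => z ∈ C)
  let S : Finset V := insert x (Ls G H x) ∪ X
  have hX : ∀ x' ∈ X, x' ∈ C ∧ y ∈ Ls G H x' := fun x' hx' =>
    ⟨(mem_filter.1 hx').2, Ls_symm (mem_filter.1 hx').1⟩
  have hXt : ∀ x' ∈ X, ∀ c ∈ T, c ∈ Ls G H x → c ∈ Ls G H x' := by
    intro x' hx' c hc hcx
    exact lCT x' (hX x' hx').1 y hy c hc (hX x' hx').2 (lDT x hx y hy c hc hxy hcx)
  have hXB : ∀ x' ∈ X, ∀ z ∈ insert x (Ls G H x), x' ≠ z → G.Adj x' z := by
    intro x' hx' z hz hne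
    obtain ⟨hx'C, hyx'⟩ := hX x' hx'
    rcases mem_insert.1 hz with rfl | hz
    · exact Ls_trans h hyx' (Ls_symm hxy) hne
    · rcases mem_union.1 (hLC x hx hz) with hzD | hzT
      · exact Ls_trans h (hXt x' hx' t ht hxt) (Ls_symm (lDT x hx z hzD t ht hz hxt)) hne
      · exact (mem_Ls.1 (hXt x' hx' z hzT hz)).1
  have hcl : ∀ a ∈ S, ∀ b ∈ S, a ≠ b → G.Adj a b := by
    intro a ha b hb hab
    rcases mem_union.1 ha with ha | ha <;> rcases mem_union.1 hb with hb | hb
    · rcases mem_insert.1 ha with rfl | ha <;> rcases mem_insert.1 hb with rfl | hb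
      · exact absurd rfl hab
      · exact (mem_Ls.1 hb).1
      · exact (mem_Ls.1 ha).1.symm
      · exact Ls_trans h (Ls_symm ha) hb hab
    · exact (hXB b hb a ha hab.symm).symm
    · exact hXB a ha b hb hab
    · exact Ls_trans h (hX a ha).2 (Ls_symm (hX b hb).2) hab
  have hS := hω S hcl
  have hxL : x ∉ Ls G H x := fun e => (mem_Ls.1 e).1.ne rfl
  have hins : (insert x (Ls G H x)).card = q := by
    rw [card_insert_of_notMem hxL]; exact cC x hx
  have hsub : insert x (Ls G H x) = S := eq_of_subset_of_card_le subset_union_left (by rw [hins]; exact hS)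
  have hXx : X ⊆ {x} := by
    intro x' hx'
    have h1 : x' ∈ insert x (Ls G H x) := by rw [hsub]; exact mem_union_right _ hx'
    rcases mem_insert.1 h1 with rfl | h1
    · exact mem_singleton_self _
    · exfalso
      rcases mem_union.1 (hLC x hx h1) with h2 | h2
      · exact dCD x' (hX x' hx').1 x' h2 rfl
      · exact dCT x' (hX x' hx').1 x' h2 rfl
  have hLy : Ls G H y ⊆ {x} ∪ (Ls G H x).filter (fun z => z ∈ T) := by
    intro z hz
    rcases mem_union.1 (hLD y hy hz) with h1 | h1
    · exact mem_union_left _ (hXx (mem_filter.2 ⟨hz, h1⟩))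
    · exact mem_union_right _ (mem_filter.2 ⟨lCT x hx y hy z h1 hxy hz, h1⟩)
  have e1 := (card_le_card hLy).trans (card_union_le _ _)
  rw [card_singleton] at e1
  have e2 := cD y hy
  omega

theorem pure_case (h : Two G H) {q : ℕ} (hq : 3 ≤ q)
    (hω : ∀ Q : Finset V, (∀ x ∈ Q, ∀ y ∈ Q, x ≠ y → G.Adj x y) → Q.card ≤ q)
    {C D : Finset V} (hCD : Disjoint C D) (cC : C.card + 1 = q)
    {x : V} (hLx : Ls G H x ⊆ D) (cx : (Ls G H x).card + 1 = q)
    (hL : ∀ y ∈ Ls G H x, Ls G H y ⊆ C) (cL : ∀ y ∈ Ls G H x, (Ls G H y).card + 1 = q) : False := by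
  have hLC : ∀ y ∈ Ls G H x, Ls G H y = C := fun y hy =>
    eq_of_subset_of_card_le (hL y hy) (by have := cL y hy; omega)
  have hS := hω (C ∪ Ls G H x) (by
    intro a ha b hb hab
    rcases mem_union.1 ha with ha | ha <;> rcases mem_union.1 hb with hb | hb
    · obtain ⟨y, hy⟩ := card_pos.1 (show 0 < (Ls G H x).card by omega)
      have h1 : a ∈ Ls G H y := by rw [hLC y hy]; exact ha
      have h2 : b ∈ Ls G H y := by rw [hLC y hy]; exact hb
      exact Ls_trans h (Ls_symm h1) h2 hab
    · have h1 : a ∈ Ls G H b := by rw [hLC b hb]; exact ha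
      exact (mem_Ls.1 h1).1.symm
    · have h1 : b ∈ Ls G H a := by rw [hLC a ha]; exact hb
      exact (mem_Ls.1 h1).1
    · exact Ls_trans h (Ls_symm ha) hb hab)
  rw [card_union_of_disjoint (disjoint_of_subset_right hLx hCD)] at hS
  omega

/-- the structure with two large parts is impossible -/
theorem p2_false (h : Two G H) {q : ℕ} (hq : 4 ≤ q)
    (hω : ∀ Q : Finset V, (∀ x ∈ Q, ∀ y ∈ Q, x ≠ y → G.Adj x y) → Q.card ≤ q)
    {C D T : Finset V} (hCD : Disjoint C D) (hCT : Disjoint C T) (hDT : Disjoint D T)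
    (hLC : ∀ x ∈ C, Ls G H x ⊆ D ∪ T) (hLD : ∀ y ∈ D, Ls G H y ⊆ C ∪ T)
    (hLT : ∀ y ∈ T, Ls G H y ⊆ C ∪ D)
    (cC : ∀ x ∈ C, (Ls G H x).card + 1 = q) (cD : ∀ y ∈ D, (Ls G H y).card + 1 = q)
    (cT : ∀ y ∈ T, (Ls G H y).card + 1 = q)
    (nCD : ∀ x ∈ C, ∀ y ∈ D, ¬ H.Adj x y) (nCT : ∀ x ∈ C, ∀ y ∈ T, ¬ H.Adj x y)
    (nDT : ∀ x ∈ D, ∀ y ∈ T, ¬ H.Adj x y) (hC : C.card + 1 = q) : False := by
  obtain ⟨x, hx⟩ := card_pos.1 (show 0 < C.card by omega)
  have dCD : ∀ a ∈ C, ∀ b ∈ D, a ≠ b := fun a ha b hb e => Finset.disjoint_left.1 hCD ha (e ▸ hb)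
  have dCT : ∀ a ∈ C, ∀ b ∈ T, a ≠ b := fun a ha b hb e => Finset.disjoint_left.1 hCT ha (e ▸ hb)
  have lCT : ∀ a ∈ C, ∀ b, ∀ c ∈ T, b ∈ Ls G H a → c ∈ Ls G H b → c ∈ Ls G H a := by
    intro a ha b c hc h1 h2
    rw [mem_Ls]
    exact ⟨Ls_trans h h1 h2 (dCT a ha c hc), nCT a ha c hc⟩
  have lCD : ∀ a ∈ C, ∀ b, ∀ c ∈ D, b ∈ Ls G H a → c ∈ Ls G H b → c ∈ Ls G H a := by
    intro a ha b c hc h1 h2
    rw [mem_Ls]
    exact ⟨Ls_trans h h1 h2 (dCD a ha c hc), nCD a ha c hc⟩
  by_cases hD : ∃ y ∈ Ls G H x, y ∈ D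
  · by_cases hT : ∃ t ∈ Ls G H x, t ∈ T
    · obtain ⟨y, hyx, hy⟩ := hD
      obtain ⟨t, htx, ht⟩ := hT
      have e1 := mixed_half h hω hCD hCT hDT hLC hLD cC cD nCD nCT nDT hx hy ht hyx htx
      have e2 := mixed_half h hω hCT hCD hDT.symm (fun x hx => by rw [union_comm]; exact hLC x hx)
        hLT cC cT nCT nCD (fun x hx y hy e => nDT y hy x hx e.symm) hx ht hy htx hyx
      have e3 : Disjoint ((Ls G H x).filter (fun z => z ∈ T)) ((Ls G H x).filter (fun z => z ∈ D)) := by
        rw [Finset.disjoint_left]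
        intro z hz hz'
        exact Finset.disjoint_left.1 hDT (mem_filter.1 hz').2 (mem_filter.1 hz).2
      have e4 := card_le_card (union_subset (filter_subset (fun z => z ∈ T) (Ls G H x))
        (filter_subset (fun z => z ∈ D) (Ls G H x)))
      rw [card_union_of_disjoint e3] at e4
      have e5 := cC x hx
      omega
    · push Not at hT
      refine pure_case h (by omega) hω hCD hC (x := x) ?_ (cC x hx) ?_ ?_
      · intro z hz
        rcases mem_union.1 (hLC x hx hz) with h1 | h1
        · exact h1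
        · exact absurd h1 (hT z hz)
      · intro y hy z hz
        have hyD : y ∈ D := by
          rcases mem_union.1 (hLC x hx hy) with h1 | h1
          · exact h1
          · exact absurd h1 (hT y hy)
        rcases mem_union.1 (hLD y hyD hz) with h1 | h1
        · exact h1
        · exact absurd h1 (hT z (lCT x hx y z h1 hy hz))
      · intro y hy
        have hyD : y ∈ D := by
          rcases mem_union.1 (hLC x hx hy) with h1 | h1
          · exact h1
          · exact absurd h1 (hT y hy)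
        exact cD y hyD
  · push Not at hD
    have hT' : ∀ y ∈ Ls G H x, y ∈ T := by
      intro y hy
      rcases mem_union.1 (hLC x hx hy) with h1 | h1
      · exact absurd h1 (hD y hy)
      · exact h1
    refine pure_case h (by omega) hω hCT hC (x := x) hT' (cC x hx) ?_ (fun y hy => cT y (hT' y hy))
    intro y hy z hz
    rcases mem_union.1 (hLT y (hT' y hy) hz) with h1 | h1
    · exact h1
    · exact absurd h1 (hD z (lCD x hx y z h1 hy hz))

end PTwo

/-- the counting in the borderline case -/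
theorem border_count {V I : Type} [Fintype V] [Fintype I] (O N : Finset V) (comp : V → I) (u k q : ℕ)
    (hq : 2 * q = k + 1)
    (hO : u + O.card = 2 * k) (hU : u + ∑ i, (O.filter (fun v => comp v = i)).card / 2 < k)
    (hN : N.card ≤ q)
    (h1 : ∀ x ∈ O, x ∉ N → (O.filter (fun v => comp v ≠ comp x)).card ≤ k)
    (h2 : ∀ t ∈ O, t ∈ N → (∀ y ∈ O, comp y = comp t → y ∈ N) → 2 * k + 2 ≤ u + N.card + 2 * q) :
    ((∀ x ∈ O, ∀ y ∈ O, comp x = comp y → x = y) ∧ u + 1 = k) ∨
    (∃ i j, i ≠ j ∧ (O.filter (fun v => comp v = i)).card + u = k ∧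
      (O.filter (fun v => comp v = j)).card + u = k ∧ Odd (O.filter (fun v => comp v = i)).card ∧
      (∀ x ∈ O, comp x ≠ i → comp x ≠ j → x ∈ N) ∧
      (O.filter (fun v => comp v ≠ i ∧ comp v ≠ j)).card = u) := by
  let c : I → ℕ := fun i => (O.filter (fun v => comp v = i)).card
  let R : Finset I := univ.filter (fun i => Odd (c i))
  have hpar := odd_parts O comp
  have hR : u + 2 ≤ R.card := by
    have e : R.card = (univ.filter (fun i => Odd (O.filter (fun v => comp v = i)).card)).card := rfl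
    omega
  have hne : ∀ i ∈ R, ∃ x ∈ O, comp x = i := by
    intro i hi
    obtain ⟨x, hx⟩ := card_pos.1 (mem_filter.1 hi).2.pos
    exact ⟨x, (mem_filter.1 hx).1, (mem_filter.1 hx).2⟩
  have hcc : ∀ i, (O.filter (fun v => comp v ≠ i)).card + c i = O.card := by
    intro i
    have := card_filter_add_card_filter_not (s := O) (fun v => comp v = i)
    have e : c i = (O.filter (fun v => comp v = i)).card := rfl
    have e2 : (O.filter (fun v => comp v ≠ i)).card = (O.filter (fun v => ¬ comp v = i)).card := rfl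
    omega
  -- two parts which are not inside `N`
  have two : ∀ i ∈ R, ∀ j ∈ R, i ≠ j → (∃ x ∈ O, comp x = i ∧ x ∉ N) → (∃ x ∈ O, comp x = j ∧ x ∉ N) →
      c i + u = k ∧ c j + u = k ∧ (O.filter (fun v => comp v ≠ i ∧ comp v ≠ j)).card = u ∧
      (∀ x ∈ O, comp x ≠ i → comp x ≠ j → ∀ y ∈ O, comp x = comp y → x = y) := by
    intro i hiR j hjR hij ⟨x, hx, hxi, hxN⟩ ⟨y, hy, hyj, hyN⟩
    have a1 := h1 x hx hxN
    have a2 := h1 y hy hyN
    rw [hxi] at a1
    rw [hyj] at a2
    have a3 : (O.filter (fun v => comp v ≠ i)).card + (O.filter (fun v => comp v ≠ j)).card =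
        ((O.filter (fun v => comp v ≠ i)) ∪ (O.filter (fun v => comp v ≠ j))).card +
        ((O.filter (fun v => comp v ≠ i)) ∩ (O.filter (fun v => comp v ≠ j))).card :=
      (card_union_add_card_inter _ _).symm
    have a4 : O ⊆ (O.filter (fun v => comp v ≠ i)) ∪ (O.filter (fun v => comp v ≠ j)) := by
      intro v hv
      by_cases h : comp v = i
      · refine mem_union_right _ (mem_filter.2 ⟨hv, fun h' => hij ?_⟩)
        rw [← h, h']
      · exact mem_union_left _ (mem_filter.2 ⟨hv, h⟩)
    have a5 := card_le_card a4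
    have a8 : (O.filter (fun v => comp v ≠ i)) ∩ (O.filter (fun v => comp v ≠ j)) =
        O.filter (fun v => comp v ≠ i ∧ comp v ≠ j) := by
      ext v
      simp only [mem_inter, mem_filter]
      tauto
    rw [a8] at a3
    have a6 : (R.erase i).erase j ⊆ (O.filter (fun v => comp v ≠ i ∧ comp v ≠ j)).image comp := by
      intro l hl
      obtain ⟨hlj, hl'⟩ := mem_erase.1 hl
      obtain ⟨hli, hlR⟩ := mem_erase.1 hl'
      obtain ⟨z, hz, hzl⟩ := hne l hlR
      exact mem_image.2 ⟨z, mem_filter.2 ⟨hz, by rw [hzl]; exact hli, by rw [hzl]; exact hlj⟩, hzl⟩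
    have a7 := card_le_card a6
    have a9 : ((O.filter (fun v => comp v ≠ i ∧ comp v ≠ j)).image comp).card ≤
      (O.filter (fun v => comp v ≠ i ∧ comp v ≠ j)).card := card_image_le
    rw [card_erase_of_mem (mem_erase.2 ⟨hij.symm, hjR⟩), card_erase_of_mem hiR] at a7
    have b1 := hcc i
    have b2 := hcc j
    refine ⟨by omega, by omega, by omega, ?_⟩
    intro x' hx' hxi' hxj' y' hy' hxy'
    have b3 : ((O.filter (fun v => comp v ≠ i ∧ comp v ≠ j)).image comp).card =
      (O.filter (fun v => comp v ≠ i ∧ comp v ≠ j)).card := by omega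
    rw [card_image_iff] at b3
    exact b3 (mem_coe.2 (mem_filter.2 ⟨hx', hxi', hxj'⟩))
      (mem_coe.2 (mem_filter.2 ⟨hy', by rw [← hxy']; exact hxi', by rw [← hxy']; exact hxj'⟩)) hxy'
  -- the parts which are not inside `N`
  let P : Finset I := R.filter (fun i => ∃ x ∈ O, comp x = i ∧ x ∉ N)
  have hPQ := card_filter_add_card_filter_not (s := R) (fun i => ∃ x ∈ O, comp x = i ∧ x ∉ N)
  have hPm : ∀ i, i ∈ P ↔ i ∈ R ∧ ∃ x ∈ O, comp x = i ∧ x ∉ N := fun i => mem_filter
  rcases Nat.lt_or_ge 2 P.card with hP | hP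
  · left
    obtain ⟨i, hi, j, hj, l, hl, hij, hil, hjl⟩ := two_lt_card.1 hP
    obtain ⟨hiR, hi'⟩ := (hPm i).1 hi
    obtain ⟨hjR, hj'⟩ := (hPm j).1 hj
    obtain ⟨hlR, hl'⟩ := (hPm l).1 hl
    obtain ⟨a1, a2, a3, a4⟩ := two i hiR j hjR hij hi' hj'
    obtain ⟨b1, b2, b3, b4⟩ := two j hjR l hlR hjl hj' hl'
    obtain ⟨d1, d2, d3, d4⟩ := two i hiR l hlR hil hi' hl'
    refine ⟨?_, ?_⟩
    · intro x hx y hy hxy
      by_cases e1 : comp x = i
      · exact b4 x hx (by rw [e1]; exact hij) (by rw [e1]; exact hil) y hy hxy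
      · by_cases e2 : comp x = j
        · exact d4 x hx e1 (by rw [e2]; exact hjl) y hy hxy
        · exact a4 x hx e1 e2 y hy hxy
    · have e1 : c l ≤ 1 := by
        rw [card_le_one]
        intro x hx y hy
        obtain ⟨hx1, hx2⟩ := mem_filter.1 hx
        obtain ⟨hy1, hy2⟩ := mem_filter.1 hy
        exact a4 x hx1 (by rw [hx2]; exact hil.symm) (by rw [hx2]; exact hjl.symm) y hy1 (by rw [hx2, hy2])
      have e2 := (mem_filter.1 hlR).2.pos
      omega
  · rcases Nat.lt_or_ge 1 P.card with hP2 | hP2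
    · right
      obtain ⟨i, hi, j, hj, hij⟩ := one_lt_card.1 hP2
      obtain ⟨hiR, hi'⟩ := (hPm i).1 hi
      obtain ⟨hjR, hj'⟩ := (hPm j).1 hj
      obtain ⟨a1, a2, a3, a4⟩ := two i hiR j hjR hij hi' hj'
      refine ⟨i, j, hij, a1, a2, (mem_filter.1 hiR).2, ?_, a3⟩
      intro x hx hxi hxj
      by_contra hxN
      have hxR : comp x ∈ R := by
        refine mem_filter.2 ⟨mem_univ _, ?_⟩
        have e1 : c (comp x) = 1 := by
          rw [card_eq_one]
          refine ⟨x, ?_⟩
          ext y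
          rw [mem_filter, mem_singleton]
          constructor
          · rintro ⟨h3, h4⟩
            exact (a4 x hx hxi hxj y h3 h4.symm).symm
          · rintro rfl
            exact ⟨hx, rfl⟩
        rw [e1]
        exact odd_one
      have hsub : ({i, j, comp x} : Finset I) ⊆ P := by
        intro l hl
        rw [mem_insert, mem_insert, mem_singleton] at hl
        rcases hl with rfl | rfl | rfl
        · exact hi
        · exact hj
        · exact (hPm _).2 ⟨hxR, x, hx, rfl, hxN⟩
      have e1 := card_le_card hsub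
      rw [card_insert_of_notMem (by
        rw [mem_insert, mem_singleton]
        rintro (e | e)
        · exact hij e
        · exact hxi e.symm), card_insert_of_notMem (by
        rw [mem_singleton]
        exact fun e => hxj e.symm), card_singleton] at e1
      omega
    · exfalso
      have hQ : u + 1 ≤ (R.filter (fun i => ¬ ∃ x ∈ O, comp x = i ∧ x ∉ N)).card := by
        have e : P.card = (R.filter (fun i => ∃ x ∈ O, comp x = i ∧ x ∉ N)).card := rfl
        omega
      have hQN : R.filter (fun i => ¬ ∃ x ∈ O, comp x = i ∧ x ∉ N) ⊆ N.image comp := by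
        intro i hi
        obtain ⟨hiR, hi'⟩ := mem_filter.1 hi
        obtain ⟨x, hx, hxi⟩ := hne i hiR
        refine mem_image.2 ⟨x, ?_, hxi⟩
        by_contra h
        exact hi' ⟨x, hx, hxi, h⟩
      have b1 := (card_le_card hQN).trans card_image_le
      obtain ⟨i, hi⟩ := card_pos.1 (show 0 < (R.filter (fun i => ¬ ∃ x ∈ O, comp x = i ∧ x ∉ N)).card by omega)
      obtain ⟨hiR, hi'⟩ := mem_filter.1 hi
      obtain ⟨t, ht, hti⟩ := hne i hiR
      have htN : t ∈ N := by
        by_contra h
        exact hi' ⟨t, ht, hti, h⟩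
      have b2 := h2 t ht htN (fun y hy hyt => by
        by_contra h
        exact hi' ⟨y, hy, hyt.trans hti, h⟩)
      omega

section Border

variable {V : Type} [Fintype V] {G H : SimpleGraph V} {k q : ℕ}

/-- the non-neighbours -/
noncomputable def As (G : SimpleGraph V) (x : V) : Finset V := univ.filter (fun y => y ≠ x ∧ ¬ G.Adj x y)

theorem mem_As {x y : V} : y ∈ As G x ↔ y ≠ x ∧ ¬ G.Adj x y := by simp [As]

theorem As_card (hα : ∀ a b c : V, a ≠ b → a ≠ c → b ≠ c → G.Adj a b ∨ G.Adj a c ∨ G.Adj b c)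
    (hω : ∀ Q : Finset V, (∀ x ∈ Q, ∀ y ∈ Q, x ≠ y → G.Adj x y) → Q.card ≤ q) (x : V) :
    (As G x).card ≤ q := by
  refine hω _ ?_
  intro a ha b hb hab
  rw [mem_As] at ha hb
  rcases hα x a b ha.1.symm hb.1.symm hab with h | h | h
  · exact absurd h ha.2
  · exact absurd h hb.2
  · exact h

theorem Ls_card (h : Two G H)
    (hω : ∀ Q : Finset V, (∀ x ∈ Q, ∀ y ∈ Q, x ≠ y → G.Adj x y) → Q.card ≤ q) (x : V) :
    (Ls G H x).card + 1 ≤ q := by
  have h1 := hω (insert x (Ls G H x)) (by
    intro a ha b hb hab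
    rcases mem_insert.1 ha with rfl | ha <;> rcases mem_insert.1 hb with rfl | hb
    · exact absurd rfl hab
    · exact (mem_Ls.1 hb).1
    · exact (mem_Ls.1 ha).1.symm
    · exact Ls_trans h (Ls_symm ha) hb hab)
  rwa [card_insert_of_notMem (fun e => (mem_Ls.1 e).1.ne rfl)] at h1

theorem tight_union {S X Y : Finset V} {a b : ℕ} (h : S ⊆ X ∪ Y) (hX : X.card ≤ a) (hY : Y.card ≤ b)
    (hS : a + b ≤ S.card) : S = X ∪ Y ∧ X.card = a ∧ Y.card = b := by
  have h1 := card_le_card h
  have h2 := card_union_le X Y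
  exact ⟨eq_of_subset_of_card_le h (by omega), by omega, by omega⟩

/-- small cases are impossible -/
theorem three_le (hα : ∀ a b c : V, a ≠ b → a ≠ c → b ≠ c → G.Adj a b ∨ G.Adj a c ∨ G.Adj b c)
    (hω : ∀ Q : Finset V, (∀ x ∈ Q, ∀ y ∈ Q, x ≠ y → G.Adj x y) → Q.card ≤ q)
    (hq : 2 * q = k + 1) (hn : Fintype.card V = 2 * k + 1) : 3 ≤ q := by
  by_contra hcon
  have hV : Nonempty V := by
    rw [← Fintype.card_pos_iff]; omega
  obtain ⟨w⟩ := hV
  let D : Finset V := univ.filter (fun y => G.Adj w y)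
  have h1 := As_card hα hω w
  have h2 : (univ : Finset V) ⊆ {w} ∪ (As G w ∪ D) := by
    intro y _
    by_cases e1 : y = w
    · exact mem_union_left _ (by rw [e1]; exact mem_singleton_self _)
    · by_cases e2 : G.Adj w y
      · exact mem_union_right _ (mem_union_right _ (mem_filter.2 ⟨mem_univ _, e2⟩))
      · exact mem_union_right _ (mem_union_left _ (mem_As.2 ⟨e1, e2⟩))
  have h3 := card_le_card h2
  have h4 := card_union_le {w} (As G w ∪ D)
  have h5 := card_union_le (As G w) D
  rw [card_univ, hn] at h3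
  rw [card_singleton] at h4
  have hD : ∀ y ∈ D, G.Adj w y := fun y hy => (mem_filter.1 hy).2
  have hq12 : q = 1 ∨ q = 2 := by omega
  rcases hq12 with rfl | rfl
  · obtain ⟨a, ha⟩ := card_pos.1 (show 0 < D.card by omega)
    have h6 := hω {w, a} (by
      intro x hx y hy hxy
      rw [mem_insert, mem_singleton] at hx hy
      rcases hx with rfl | rfl <;> rcases hy with rfl | rfl
      · exact absurd rfl hxy
      · exact hD _ ha
      · exact (hD _ ha).symm
      · exact absurd rfl hxy)
    rw [card_pair (hD _ ha).ne] at h6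
    omega
  · obtain ⟨a, ha, b, hb, c, hc, hab, hac, hbc⟩ := two_lt_card.1 (show 2 < D.card by omega)
    have key : ∀ a b : V, a ∈ D → b ∈ D → a ≠ b → G.Adj a b → False := by
      intro a b ha hb hab hadj
      have h6 := hω {w, a, b} (by
        intro x hx y hy hxy
        rw [mem_insert, mem_insert, mem_singleton] at hx hy
        rcases hx with rfl | rfl | rfl <;> rcases hy with rfl | rfl | rfl
        · exact absurd rfl hxy
        · exact hD _ ha
        · exact hD _ hb
        · exact (hD _ ha).symm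
        · exact absurd rfl hxy
        · exact hadj
        · exact (hD _ hb).symm
        · exact hadj.symm
        · exact absurd rfl hxy)
      rw [card_insert_of_notMem (by
        rw [mem_insert, mem_singleton]
        rintro (e | e)
        · exact (hD _ ha).ne e
        · exact (hD _ hb).ne e), card_pair hab] at h6
      omega
    rcases hα a b c hab hac hbc with h | h | h
    · exact key a b ha hb hab h
    · exact key a c ha hc hac h
    · exact key b c hb hc hbc h

/-- the structure of a barrier -/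
theorem barrier (h : Two G H)
    (hα : ∀ a b c : V, a ≠ b → a ≠ c → b ≠ c → G.Adj a b ∨ G.Adj a c ∨ G.Adj b c)
    (hω : ∀ Q : Finset V, (∀ x ∈ Q, ∀ y ∈ Q, x ≠ y → G.Adj x y) → Q.card ≤ q)
    (hq : 2 * q = k + 1) (hn : Fintype.card V = 2 * k + 1) {I : Type} [Fintype I] (v : V)
    (U : Finset V) (hvU : v ∉ U) (comp : V → I)
    (hno : ∀ a b, a ∉ U → a ≠ v → b ∉ U → b ≠ v → comp a ≠ comp b → (G.Adj v a ∨ G.Adj v b) →
      ¬ H.Adj a b)
    (hfail : U.card + ∑ i, ((univ.filter (fun w => w ∉ U ∧ w ≠ v)).filter (fun w => comp w = i)).card / 2 < k) :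
    (∀ x y, x ∉ U → x ≠ v → y ∉ U → y ≠ v → comp x = comp y → x = y) ∧ U.card + 1 = k := by
  have hq3 := three_le hα hω hq hn
  set O : Finset V := univ.filter (fun w => w ∉ U ∧ w ≠ v) with hOdef
  have hOm : ∀ w, w ∈ O ↔ w ∉ U ∧ w ≠ v := fun w => by simp [hOdef]
  have hUO : U.card + O.card = 2 * k := by
    have e1 : univ.erase v = U ∪ O := by
      ext w
      rw [mem_erase, mem_union, hOm]
      constructor
      · rintro ⟨h1, -⟩
        by_cases h2 : w ∈ U
        · exact Or.inl h2
        · exact Or.inr ⟨h2, h1⟩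
      · rintro (h1 | h1)
        · exact ⟨fun e => hvU (e ▸ h1), mem_univ _⟩
        · exact ⟨h1.2, mem_univ _⟩
    have e2 : Disjoint U O := by
      rw [Finset.disjoint_left]
      intro w hw hw'
      exact ((hOm w).1 hw').1 hw
    have e3 := congrArg Finset.card e1
    rw [card_union_of_disjoint e2, card_erase_of_mem (mem_univ _), card_univ, hn] at e3
    omega
  have hNm : ∀ w, w ≠ v → w ∉ As G v → G.Adj v w := by
    intro w h1 h2
    by_contra h3
    exact h2 (mem_As.2 ⟨h1, h3⟩)
  have hno' : ∀ a ∈ O, ∀ b ∈ O, comp a ≠ comp b → (a ∉ As G v ∨ b ∉ As G v) → ¬ H.Adj a b := by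
    intro a ha b hb hab hor
    rw [hOm] at ha hb
    refine hno a b ha.1 ha.2 hb.1 hb.2 hab ?_
    rcases hor with h' | h'
    · exact Or.inl (hNm a ha.2 h')
    · exact Or.inr (hNm b hb.2 h')
  have hA := fun x => As_card (q := q) hα hω x
  have hL := fun x => Ls_card (q := q) h hω x
  -- the vertices outside a part
  have hout : ∀ x ∈ O, x ∉ As G v → O.filter (fun w => comp w ≠ comp x) ⊆ As G x ∪ Ls G H x := by
    intro x hx hxN w hw
    obtain ⟨hw1, hw2⟩ := mem_filter.1 hw
    have hwx : w ≠ x := fun e => hw2 (by rw [e])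
    by_cases hadj : G.Adj x w
    · exact mem_union_right _ (mem_Ls.2 ⟨hadj, hno' x hx w hw1 hw2.symm (Or.inl hxN)⟩)
    · exact mem_union_left _ (mem_As.2 ⟨hwx, hadj⟩)
  have hcount := border_count O (As G v) comp U.card k q hq hUO hfail (hA v) (by
      intro x hx hxN
      have e1 := (card_le_card (hout x hx hxN)).trans (card_union_le _ _)
      have e2 := hA x
      have e3 := hL x
      omega) (by
      intro t ht htN hin
      have e1 : (univ : Finset V) ⊆ U ∪ (As G v ∪ (As G t ∪ Ls G H t)) := by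
        intro w _
        by_cases hwt : w = t
        · exact mem_union_right _ (mem_union_left _ (by rw [hwt]; exact htN))
        · by_cases hadj : G.Adj t w
          · by_cases hH : H.Adj t w
            · by_cases hwN : w ∈ As G v
              · exact mem_union_right _ (mem_union_left _ hwN)
              · have hwv : w ≠ v := by
                  rintro rfl
                  exact (mem_As.1 htN).2 hadj.symm
                by_cases hwU : w ∈ U
                · exact mem_union_left _ hwU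
                · exfalso
                  have hwO : w ∈ O := (hOm w).2 ⟨hwU, hwv⟩
                  by_cases hc : comp w = comp t
                  · exact hwN (hin w hwO hc)
                  · exact hno' t ht w hwO (Ne.symm hc) (Or.inr hwN) hH
            · exact mem_union_right _ (mem_union_right _ (mem_union_right _ (mem_Ls.2 ⟨hadj, hH⟩)))
          · exact mem_union_right _ (mem_union_right _ (mem_union_left _ (mem_As.2 ⟨hwt, hadj⟩)))
      have e2 := card_le_card e1
      rw [card_univ, hn] at e2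
      have e3 := card_union_le U (As G v ∪ (As G t ∪ Ls G H t))
      have e4 := card_union_le (As G v) (As G t ∪ Ls G H t)
      have e5 := card_union_le (As G t) (Ls G H t)
      have e6 := hA t
      have e7 := hL t
      omega)
  rcases hcount with ⟨h1, h2⟩ | ⟨i, j, hij, hi, hj, hodd, hrest, hcard⟩
  · exact ⟨fun x y hx hxv hy hyv => h1 x ((hOm x).2 ⟨hx, hxv⟩) y ((hOm y).2 ⟨hy, hyv⟩), h2⟩
  · exfalso
    set C : Finset V := O.filter (fun w => comp w = i) with hC
    set D : Finset V := O.filter (fun w => comp w = j) with hD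
    set T : Finset V := O.filter (fun w => comp w ≠ i ∧ comp w ≠ j) with hT
    have hCm : ∀ w, w ∈ C ↔ w ∈ O ∧ comp w = i := fun w => mem_filter
    have hDm : ∀ w, w ∈ D ↔ w ∈ O ∧ comp w = j := fun w => mem_filter
    have hTm : ∀ w, w ∈ T ↔ w ∈ O ∧ comp w ≠ i ∧ comp w ≠ j := fun w => mem_filter
    have hCD : Disjoint C D := by
      rw [Finset.disjoint_left]
      intro w hw hw'
      exact hij (((hCm w).1 hw).2.symm.trans ((hDm w).1 hw').2)
    have hCT : Disjoint C T := by
      rw [Finset.disjoint_left]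
      intro w hw hw'
      exact ((hTm w).1 hw').2.1 ((hCm w).1 hw).2
    have hDT : Disjoint D T := by
      rw [Finset.disjoint_left]
      intro w hw hw'
      exact ((hTm w).1 hw').2.2 ((hDm w).1 hw).2
    have hTN : T ⊆ As G v := fun w hw => hrest w ((hTm w).1 hw).1 ((hTm w).1 hw).2.1 ((hTm w).1 hw).2.2
    have hCout : ∀ w, w ∈ O.filter (fun w => comp w ≠ i) → w ∈ D ∪ T := by
      intro w hw
      obtain ⟨h1, h2⟩ := mem_filter.1 hw
      by_cases h3 : comp w = j
      · exact mem_union_left _ ((hDm w).2 ⟨h1, h3⟩)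
      · exact mem_union_right _ ((hTm w).2 ⟨h1, h2, h3⟩)
    have hDout : ∀ w, w ∈ O.filter (fun w => comp w ≠ j) → w ∈ C ∪ T := by
      intro w hw
      obtain ⟨h1, h2⟩ := mem_filter.1 hw
      by_cases h3 : comp w = i
      · exact mem_union_left _ ((hCm w).2 ⟨h1, h3⟩)
      · exact mem_union_right _ ((hTm w).2 ⟨h1, h3, h2⟩)
    have cCo : (O.filter (fun w => comp w ≠ i)).card = k := by
      have e1 := card_filter_add_card_filter_not (s := O) (fun w => comp w = i)
      have e2 : (O.filter (fun w => comp w ≠ i)).card = (O.filter (fun w => ¬ comp w = i)).card := rfl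
      have e3 : C.card = (O.filter (fun w => comp w = i)).card := rfl
      omega
    have cDo : (O.filter (fun w => comp w ≠ j)).card = k := by
      have e1 := card_filter_add_card_filter_not (s := O) (fun w => comp w = j)
      have e2 : (O.filter (fun w => comp w ≠ j)).card = (O.filter (fun w => ¬ comp w = j)).card := rfl
      have e3 : D.card = (O.filter (fun w => comp w = j)).card := rfl
      omega
    have tC : ∀ x ∈ C, x ∉ As G v → As G x ⊆ D ∪ T ∧ Ls G H x ⊆ D ∪ T ∧ (Ls G H x).card + 1 = q := by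
      intro x hx hxN
      obtain ⟨hxO, hxi⟩ := (hCm x).1 hx
      have e0 := hout x hxO hxN
      rw [hxi] at e0
      obtain ⟨e1, e2, e3⟩ := tight_union (a := q) (b := q - 1) e0 (hA x) (by have := hL x; omega)
        (by rw [cCo]; omega)
      refine ⟨fun w hw => hCout w ?_, fun w hw => hCout w ?_, by omega⟩
      · rw [e1]; exact mem_union_left _ hw
      · rw [e1]; exact mem_union_right _ hw
    have tD : ∀ x ∈ D, x ∉ As G v → As G x ⊆ C ∪ T ∧ Ls G H x ⊆ C ∪ T ∧ (Ls G H x).card + 1 = q := by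
      intro x hx hxN
      obtain ⟨hxO, hxi⟩ := (hDm x).1 hx
      have e0 := hout x hxO hxN
      rw [hxi] at e0
      obtain ⟨e1, e2, e3⟩ := tight_union (a := q) (b := q - 1) e0 (hA x) (by have := hL x; omega)
        (by rw [cDo]; omega)
      refine ⟨fun w hw => hDout w ?_, fun w hw => hDout w ?_, by omega⟩
      · rw [e1]; exact mem_union_left _ hw
      · rw [e1]; exact mem_union_right _ hw
    -- the set `N` restricted
    have hNsub : ((C ∪ D).filter (fun w => w ∈ As G v)) ∪ T ⊆ As G v :=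
      union_subset (fun w hw => (mem_filter.1 hw).2) hTN
    have hNdis : Disjoint ((C ∪ D).filter (fun w => w ∈ As G v)) T := by
      rw [Finset.disjoint_left]
      intro w hw hw'
      rcases mem_union.1 (mem_filter.1 hw).1 with h1 | h1
      · exact Finset.disjoint_left.1 hCT h1 hw'
      · exact Finset.disjoint_left.1 hDT h1 hw'
    have hNc := card_le_card hNsub
    rw [card_union_of_disjoint hNdis] at hNc
    have hNq := hA v
    have hsplit := card_filter_add_card_filter_not (s := C ∪ D) (fun w => w ∈ As G v)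
    rw [card_union_of_disjoint hCD] at hsplit
    rcases Nat.eq_zero_or_pos U.card with hu | hu
    · -- no further parts
      have k1 := hω (C.filter (fun w => w ∉ As G v)) (by
        intro a ha b hb hab
        obtain ⟨ha1, ha2⟩ := mem_filter.1 ha
        obtain ⟨hb1, hb2⟩ := mem_filter.1 hb
        by_contra hn'
        rcases mem_union.1 ((tC a ha1 ha2).1 (mem_As.2 ⟨hab.symm, hn'⟩)) with h1 | h1
        · exact Finset.disjoint_left.1 hCD hb1 h1
        · exact Finset.disjoint_left.1 hCT hb1 h1)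
      have k2 := hω (D.filter (fun w => w ∉ As G v)) (by
        intro a ha b hb hab
        obtain ⟨ha1, ha2⟩ := mem_filter.1 ha
        obtain ⟨hb1, hb2⟩ := mem_filter.1 hb
        by_contra hn'
        rcases mem_union.1 ((tD a ha1 ha2).1 (mem_As.2 ⟨hab.symm, hn'⟩)) with h1 | h1
        · exact Finset.disjoint_left.1 hCD h1 hb1
        · exact Finset.disjoint_left.1 hDT hb1 h1)
      have k3 : (C ∪ D).filter (fun w => ¬ w ∈ As G v) ⊆
          C.filter (fun w => w ∉ As G v) ∪ D.filter (fun w => w ∉ As G v) := by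
        intro w hw
        obtain ⟨h1, h2⟩ := mem_filter.1 hw
        rcases mem_union.1 h1 with h1 | h1
        · exact mem_union_left _ (mem_filter.2 ⟨h1, h2⟩)
        · exact mem_union_right _ (mem_filter.2 ⟨h1, h2⟩)
      have k4 := (card_le_card k3).trans (card_union_le _ _)
      omega
    · -- further parts
      have hTpos : 0 < T.card := by omega
      have hTt : ∀ t ∈ T, (C ∪ D).filter (fun w => ¬ w ∈ As G v) ⊆ (As G t).erase v ∪ Ls G H t := by
        intro t ht w hw
        obtain ⟨h1, h2⟩ := mem_filter.1 hw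
        have hwO : w ∈ O := by
          rcases mem_union.1 h1 with h1 | h1
          · exact ((hCm w).1 h1).1
          · exact ((hDm w).1 h1).1
        have hcomp : comp t ≠ comp w := by
          intro e
          rcases mem_union.1 h1 with h1 | h1
          · exact ((hTm t).1 ht).2.1 (e.trans ((hCm w).1 h1).2)
          · exact ((hTm t).1 ht).2.2 (e.trans ((hDm w).1 h1).2)
        have hwt : w ≠ t := fun e => hcomp (by rw [e])
        by_cases hadj : G.Adj t w
        · exact mem_union_right _ (mem_Ls.2 ⟨hadj, hno' t ((hTm t).1 ht).1 w hwO hcomp (Or.inr h2)⟩)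
        · exact mem_union_left _ (mem_erase.2 ⟨((hOm w).1 hwO).2, mem_As.2 ⟨hwt, hadj⟩⟩)
      have hvt : ∀ t ∈ T, ((As G t).erase v).card ≤ q - 1 := by
        intro t ht
        have h1 : v ∈ As G t := by
          obtain ⟨h2, h3⟩ := mem_As.1 (hTN ht)
          exact mem_As.2 ⟨h2.symm, fun e => h3 e.symm⟩
        rw [card_erase_of_mem h1]
        have := hA t
        omega
      obtain ⟨t0, ht0⟩ := card_pos.1 hTpos
      have m1 := (card_le_card (hTt t0 ht0)).trans (card_union_le _ _)
      have m2 := hvt t0 ht0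
      have m3 := hL t0
      have hu' : U.card = q := by omega
      have hzero : ((C ∪ D).filter (fun w => w ∈ As G v)).card = 0 := by omega
      have hCN : ∀ x ∈ C, x ∉ As G v := by
        intro x hx hxN
        have : x ∈ (C ∪ D).filter (fun w => w ∈ As G v) := mem_filter.2 ⟨mem_union_left _ hx, hxN⟩
        rw [card_eq_zero] at hzero
        rw [hzero] at this
        exact notMem_empty _ this
      have hDN : ∀ x ∈ D, x ∉ As G v := by
        intro x hx hxN
        have : x ∈ (C ∪ D).filter (fun w => w ∈ As G v) := mem_filter.2 ⟨mem_union_right _ hx, hxN⟩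
        rw [card_eq_zero] at hzero
        rw [hzero] at this
        exact notMem_empty _ this
      have hq4 : 4 ≤ q := by
        have e1 : C.card = q - 1 := by omega
        rw [e1] at hodd
        obtain ⟨r, hr⟩ := hodd
        omega
      have tT : ∀ t ∈ T, Ls G H t ⊆ C ∪ D ∧ (Ls G H t).card + 1 = q := by
        intro t ht
        obtain ⟨e1, e2, e3⟩ := tight_union (a := q - 1) (b := q - 1) (hTt t ht) (hvt t ht)
          (by have := hL t; omega) (by omega)
        refine ⟨fun w hw => ?_, by omega⟩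
        have : w ∈ (C ∪ D).filter (fun w => ¬ w ∈ As G v) := by
          rw [e1]; exact mem_union_right _ hw
        exact (mem_filter.1 this).1
      refine p2_false h hq4 hω hCD hCT hDT (fun x hx => (tC x hx (hCN x hx)).2.1)
        (fun x hx => (tD x hx (hDN x hx)).2.1) (fun x hx => (tT x hx).1)
        (fun x hx => (tC x hx (hCN x hx)).2.2) (fun x hx => (tD x hx (hDN x hx)).2.2)
        (fun x hx => (tT x hx).2) ?_ ?_ ?_ (by omega)
      · intro x hx y hy
        refine hno' x ((hCm x).1 hx).1 y ((hDm y).1 hy).1 ?_ (Or.inl (hCN x hx))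
        rw [((hCm x).1 hx).2, ((hDm y).1 hy).2]
        exact hij
      · intro x hx y hy
        refine hno' x ((hCm x).1 hx).1 y ((hTm y).1 hy).1 ?_ (Or.inl (hCN x hx))
        rw [((hCm x).1 hx).2]
        exact ((hTm y).1 hy).2.1.symm
      · intro x hx y hy
        refine hno' x ((hDm x).1 hx).1 y ((hTm y).1 hy).1 ?_ (Or.inl (hDN x hx))
        rw [((hDm x).1 hx).2]
        exact ((hTm y).1 hy).2.2.symm

/-- full Hadwiger for the class `Two` with independence number two, borderline -/
theorem border (h : Two G H)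
    (hα : ∀ a b c : V, a ≠ b → a ≠ c → b ≠ c → G.Adj a b ∨ G.Adj a c ∨ G.Adj b c)
    (hω : ∀ Q : Finset V, (∀ x ∈ Q, ∀ y ∈ Q, x ≠ y → G.Adj x y) → Q.card ≤ q)
    (hq : 2 * q = k + 1) (hn : Fintype.card V = 2 * k + 1) : HasMinor G (k + 1) := by
  have hq3 := three_le hα hω hq hn
  have hV : Nonempty V := by
    rw [← Fintype.card_pos_iff]; omega
  obtain ⟨v⟩ := hV
  let J : SimpleGraph V :=
    { Adj := fun x y => (x ≠ v ∧ y ≠ v) ∧ H.Adj x y ∧ (G.Adj v x ∨ G.Adj v y)
      symm := ⟨fun x y h => ⟨⟨h.1.2, h.1.1⟩, h.2.1.symm, h.2.2.symm⟩⟩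
      loopless := ⟨fun x h => h.2.1.ne rfl⟩ }
  by_cases hb : ∀ (U : Finset V) (I : Type) [Fintype I] (comp : V → I),
      (∀ u w, u ∉ U → w ∉ U → comp u ≠ comp w → ¬ J.Adj u w) →
      k ≤ U.card + ∑ i, (univ.filter (fun w => w ∉ U ∧ comp w = i)).card / 2
  · obtain ⟨x, y, h1, h2, h3⟩ := berge J k (by omega) hb
    refine hasMinor_of_vertex_pairs v x y (fun i => h.1 _ _ (h1 i).2.1) (fun i j hij => (h2 i j hij).1)
      (fun i j hij => (h2 i j hij).2) h3 (fun i => (h1 i).1.1) (fun i => (h1 i).1.2)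
      (fun i => (h1 i).2.2) ?_
    intro i j hij
    exact h.2.1 (x i) (y i) (x j) (y j) (h1 i).2.1 (h1 j).2.1 (h2 i j hij).1 (h3 i j)
      (fun e => h3 j i e.symm) (h2 i j hij).2
  · push Not at hb
    obtain ⟨U0, I, hI, comp, hno, hfail⟩ := hb
    set U : Finset V := U0.erase v with hUdef
    have hvU : v ∉ U := notMem_erase v U0
    have hUm : ∀ w, w ≠ v → w ∉ U → w ∉ U0 := fun w h1 h2 h3 => h2 (mem_erase.2 ⟨h1, h3⟩)
    obtain ⟨hinj, hUk⟩ := barrier h hα hω hq hn v U hvU comp (by
        intro a b ha hav hb' hbv hab hor hH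
        exact hno a b (hUm a hav ha) (hUm b hbv hb') hab ⟨⟨hav, hbv⟩, hH, hor⟩) (by
        have e1 : U.card ≤ U0.card := card_le_card (erase_subset _ _)
        have e2 : ∑ i, ((univ.filter (fun w => w ∉ U ∧ w ≠ v)).filter (fun w => comp w = i)).card / 2 ≤
            ∑ i, (univ.filter (fun w => w ∉ U0 ∧ comp w = i)).card / 2 := by
          refine sum_le_sum (fun i _ => Nat.div_le_div_right (card_le_card ?_))
          intro w hw
          obtain ⟨hw1, hw2⟩ := mem_filter.1 hw
          obtain ⟨-, hw3, hw4⟩ := mem_filter.1 hw1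
          exact mem_filter.2 ⟨mem_univ _, hUm w hw4 hw3, hw2⟩
        omega)
    set O : Finset V := univ.filter (fun w => w ∉ U ∧ w ≠ v) with hOdef
    have hOm : ∀ w, w ∈ O ↔ w ∉ U ∧ w ≠ v := fun w => by simp [hOdef]
    have hUO : U.card + O.card = 2 * k := by
      have e1 : univ.erase v = U ∪ O := by
        ext w
        rw [mem_erase, mem_union, hOm]
        constructor
        · rintro ⟨h1, -⟩
          by_cases h2 : w ∈ U
          · exact Or.inl h2
          · exact Or.inr ⟨h2, h1⟩
        · rintro (h1 | h1)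
          · exact ⟨fun e => hvU (e ▸ h1), mem_univ _⟩
          · exact ⟨h1.2, mem_univ _⟩
      have e2 : Disjoint U O := by
        rw [Finset.disjoint_left]
        intro w hw hw'
        exact ((hOm w).1 hw').1 hw
      have e3 := congrArg Finset.card e1
      rw [card_union_of_disjoint e2, card_erase_of_mem (mem_univ _), card_univ, hn] at e3
      omega
    -- no edges of `J` inside `O`
    have hJO : ∀ a ∈ O, ∀ b ∈ O, a ≠ b → (G.Adj v a ∨ G.Adj v b) → ¬ H.Adj a b := by
      intro a ha b hb' hab hor hH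
      rw [hOm] at ha hb'
      exact hno a b (hUm a ha.2 ha.1) (hUm b hb'.2 hb'.1)
        (fun e => hab (hinj a b ha.1 ha.2 hb'.1 hb'.2 e)) ⟨⟨ha.2, hb'.2⟩, hH, hor⟩
    have hN := As_card (q := q) hα hω v
    -- two vertices outside `N`
    have hON : 1 < (O \ As G v).card := by
      have e1 : O.card ≤ (O \ As G v).card + (As G v).card := by
        have := card_le_card (show O ⊆ (O \ As G v) ∪ As G v from fun w hw => by
          by_cases h1 : w ∈ As G v
          · exact mem_union_right _ h1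
          · exact mem_union_left _ (mem_sdiff.2 ⟨hw, h1⟩))
        exact this.trans (card_union_le _ _)
      omega
    obtain ⟨x, hx, y, hy, hxy⟩ := one_lt_card.1 hON
    obtain ⟨hxO, hxN⟩ := mem_sdiff.1 hx
    obtain ⟨hyO, hyN⟩ := mem_sdiff.1 hy
    have hadjv : ∀ w ∈ O, w ∉ As G v → G.Adj v w := by
      intro w hw h1
      by_contra h2
      exact h1 (mem_As.2 ⟨((hOm w).1 hw).2, h2⟩)
    have hvx := hadjv x hxO hxN
    have hvy := hadjv y hyO hyN
    -- such vertices are adjacent to all of `U`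
    have hfull : ∀ w ∈ O, G.Adj v w → ∀ u ∈ U, G.Adj w u := by
      intro w hw hvw u hu
      have e0 : O.erase w ⊆ As G w ∪ Ls G H w := by
        intro z hz
        obtain ⟨hzw, hz⟩ := mem_erase.1 hz
        by_cases hadj : G.Adj w z
        · exact mem_union_right _ (mem_Ls.2 ⟨hadj, hJO w hw z hz hzw.symm (Or.inl hvw)⟩)
        · exact mem_union_left _ (mem_As.2 ⟨hzw, hadj⟩)
      have e1 := Ls_card (q := q) h hω w
      have e2 : (O.erase w).card = O.card - 1 := card_erase_of_mem hw
      obtain ⟨e3, -, -⟩ := tight_union (a := q) (b := q - 1) e0 (As_card hα hω w) (by omega) (by omega)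
      by_contra hn'
      have e4 : u ∈ O.erase w := by
        rw [e3]
        refine mem_union_left _ (mem_As.2 ⟨fun e => ?_, hn'⟩)
        exact ((hOm w).1 hw).1 (e ▸ hu)
      exact ((hOm u).1 (mem_of_mem_erase e4)).1 hu
    -- a matching of `U` into `O`
    let O' : Finset V := (O.erase x).erase y
    have hO' : ∀ w, w ∈ O' ↔ w ∈ O ∧ w ≠ x ∧ w ≠ y := by
      intro w
      rw [mem_erase, mem_erase]
      tauto
    have hO'c : O'.card = k - 1 := by
      rw [card_erase_of_mem (mem_erase.2 ⟨hxy.symm, hyO⟩), card_erase_of_mem hxO]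
      omega
    obtain ⟨f, hfinj, hf⟩ := (Finset.all_card_le_biUnion_card_iff_exists_injective
      (fun u : {u // u ∈ U} => O'.filter (fun w => H.Adj u.1 w))).1 (by
      intro S
      by_contra hcon
      push Not at hcon
      let S' : Finset V := S.map ⟨Subtype.val, Subtype.val_injective⟩
      have hS' : S'.card = S.card := card_map _
      have hS'U : S' ⊆ U := by
        intro w hw
        obtain ⟨a, -, rfl⟩ := mem_map.1 hw
        exact a.2
      let M : Finset V := S.biUnion (fun u : {u // u ∈ U} => O'.filter (fun w => H.Adj u.1 w))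
      have hM : M.card < S.card := hcon
      have hMm : ∀ w ∈ O', w ∉ M → ∀ u ∈ S', ¬ H.Adj u w := by
        intro w hw hwM u hu hH
        obtain ⟨a, ha, rfl⟩ := mem_map.1 hu
        exact hwM (mem_biUnion.2 ⟨a, ha, mem_filter.2 ⟨hw, hH⟩⟩)
      have hMO : M ⊆ O' := by
        intro w hw
        obtain ⟨a, -, ha⟩ := mem_biUnion.1 hw
        exact (mem_filter.1 ha).1
      let comp' : V → Option V := fun w => if w ∈ O' ∧ w ∉ M then some w else none
      have hc1 : ∀ w, w ∈ O' → w ∉ M → comp' w = some w := fun w h1 h2 => if_pos ⟨h1, h2⟩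
      have hc2 : ∀ w, ¬ (w ∈ O' ∧ w ∉ M) → comp' w = none := fun w h1 => if_neg h1
      have hUS : (U \ S').card + S.card = U.card := by
        rw [card_sdiff_of_subset hS'U, hS']
        have := card_le_card hS'U
        omega
      -- an edge at a vertex of the independent set
      have hkey : ∀ a b, a ∈ O' → a ∉ M → b ∉ U \ S' → b ≠ v → a ≠ b → (G.Adj v a ∨ G.Adj v b) →
          ¬ H.Adj a b := by
        intro a b ha haM hb1 hbv hab hor hH
        by_cases hbU : b ∈ U
        · have hbS : b ∈ S' := by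
            by_contra h1
            exact hb1 (mem_sdiff.2 ⟨hbU, h1⟩)
          exact hMm a ha haM b hbS hH.symm
        · exact hJO a ((hO' a).1 ha).1 b ((hOm b).2 ⟨hbU, hbv⟩) hab hor hH
      obtain ⟨-, hcard⟩ := barrier h hα hω hq hn v (U \ S') (fun e => hvU (mem_sdiff.1 e).1) comp' (by
          intro a b ha hav hb1 hbv hab hor hH
          by_cases h1 : a ∈ O' ∧ a ∉ M
          · exact hkey a b h1.1 h1.2 hb1 hbv (fun e => hab (by rw [e])) hor hH
          · by_cases h2 : b ∈ O' ∧ b ∉ M
            · exact hkey b a h2.1 h2.2 ha hav (fun e => hab (by rw [e])) hor.symm hH.symm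
            · exact hab (by rw [hc2 a h1, hc2 b h2])) (by
          rw [Fintype.sum_option]
          have e3 := card_union_le S' ({x, y} ∪ M)
          have e4 := card_union_le ({x, y} : Finset V) M
          rw [card_pair hxy] at e4
          refine lt_of_le_of_lt (Nat.add_le_add_left (Nat.add_le_add (Nat.div_le_div_right
            (card_le_card (t := S' ∪ ({x, y} ∪ M)) ?_)) (le_of_eq (sum_eq_zero (fun w _ => ?_)))) _) ?_
          · intro z hz
            obtain ⟨hz1, hz2⟩ := mf2 _ _ _ _ hz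
            obtain ⟨-, hz3, hz4⟩ := mem_filter.1 hz1
            by_cases hzU : z ∈ U
            · refine mem_union_left _ ?_
              by_contra h1
              exact hz3 (mem_sdiff.2 ⟨hzU, h1⟩)
            · refine mem_union_right _ ?_
              have hzO : z ∈ O := (hOm z).2 ⟨hzU, hz4⟩
              by_cases h1 : z = x
              · exact mem_union_left _ (by rw [h1]; exact mem_insert_self _ _)
              · by_cases h2 : z = y
                · exact mem_union_left _ (by rw [h2]; exact mem_insert_of_mem (mem_singleton_self _))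
                · refine mem_union_right _ ?_
                  by_contra h3
                  rw [hc1 z ((hO' z).2 ⟨hzO, h1, h2⟩) h3] at hz2
                  cases hz2
          · refine Nat.div_eq_of_lt (Nat.lt_of_le_of_lt (card_le_one.2 ?_) one_lt_two)
            intro a ha b hb1
            have ha2 := (mf2 _ _ _ _ ha).2
            have hb2 := (mf2 _ _ _ _ hb1).2
            have key : ∀ z, comp' z = some w → z = w := by
              intro z hz
              by_cases h1 : z ∈ O' ∧ z ∉ M
              · rw [hc1 z h1.1 h1.2] at hz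
                exact Option.some.inj hz
              · rw [hc2 z h1] at hz
                cases hz
            rw [key a ha2, key b hb2]
          · omega)
      omega)
    -- the bags
    have hfO : ∀ u : {u // u ∈ U}, f u ∈ O ∧ f u ≠ x ∧ f u ≠ y ∧ H.Adj u.1 (f u) := by
      intro u
      obtain ⟨h1, h2⟩ := mem_filter.1 (hf u)
      exact ⟨((hO' _).1 h1).1, ((hO' _).1 h1).2.1, ((hO' _).1 h1).2.2, h2⟩
    have hUne : ∀ u ∈ U, ∀ w ∈ O, u ≠ w := fun u hu w hw e => ((hOm w).1 hw).1 (e ▸ hu)
    have hUv : ∀ u ∈ U, u ≠ v := fun u hu e => hvU (e ▸ hu)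
    have hOv : ∀ w ∈ O, w ≠ v := fun w hw => ((hOm w).1 hw).2
    refine T3F.hasMinor_of_fam (ι := Option (Option {u // u ∈ U})) (fun o => match o with
      | none => {y}
      | some none => {v} ∪ {x}
      | some (some u) => {u.1} ∪ {f u}) ?_ ?_ ?_ ?_
    · rintro (_ | _ | u)
      · exact singleton_conn G _
      · exact conn_two (singleton_conn G _) (singleton_conn G _) ⟨v, rfl, x, rfl, hvx⟩
      · exact conn_two (singleton_conn G _) (singleton_conn G _) ⟨u.1, rfl, f u, rfl, h.1 _ _ (hfO u).2.2.2⟩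
    · have d1 : Disjoint ({y} : Set V) ({v} ∪ {x}) := by
        rw [Set.disjoint_singleton_left]
        rintro (e | e)
        · exact hOv y hyO e
        · exact hxy e.symm
      have d2 : ∀ u : {u // u ∈ U}, Disjoint ({y} : Set V) ({u.1} ∪ {f u}) := by
        intro u
        rw [Set.disjoint_singleton_left]
        rintro (e | e)
        · exact hUne u.1 u.2 y hyO e.symm
        · exact (hfO u).2.2.1 e.symm
      have d3 : ∀ u : {u // u ∈ U}, Disjoint ({v} ∪ {x} : Set V) ({u.1} ∪ {f u}) := by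
        intro u
        rw [Set.disjoint_left]
        rintro z (rfl | rfl) (e | e)
        · exact hUv u.1 u.2 e.symm
        · exact hOv (f u) (hfO u).1 e.symm
        · exact hUne u.1 u.2 z hxO e.symm
        · exact (hfO u).2.1 e.symm
      have d4 : ∀ u w : {u // u ∈ U}, u ≠ w → Disjoint ({u.1} ∪ {f u} : Set V) ({w.1} ∪ {f w}) := by
        intro u w huw
        rw [Set.disjoint_left]
        rintro z (rfl | rfl) (e | e)
        · exact huw (Subtype.ext e)
        · exact hUne u.1 u.2 (f w) (hfO w).1 e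
        · exact hUne w.1 w.2 (f u) (hfO u).1 e.symm
        · exact huw (hfinj e)
      rintro (_ | _ | u) (_ | _ | w) hij
      · exact absurd rfl hij
      · exact d1
      · exact d2 w
      · exact d1.symm
      · exact absurd rfl hij
      · exact d3 w
      · exact (d2 u).symm
      · exact (d3 u).symm
      · exact d4 u w (fun e => hij (by rw [e]))
    · rintro (_ | _ | u) (_ | _ | w) hij
      · exact absurd rfl hij
      · exact ⟨y, rfl, v, Or.inl rfl, hvy.symm⟩
      · exact ⟨y, rfl, w.1, Or.inl rfl, hfull y hyO hvy w.1 w.2⟩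
      · exact ⟨v, Or.inl rfl, y, rfl, hvy⟩
      · exact absurd rfl hij
      · exact ⟨x, Or.inr rfl, w.1, Or.inl rfl, hfull x hxO hvx w.1 w.2⟩
      · exact ⟨u.1, Or.inl rfl, y, rfl, (hfull y hyO hvy u.1 u.2).symm⟩
      · exact ⟨u.1, Or.inl rfl, x, Or.inr rfl, (hfull x hxO hvx u.1 u.2).symm⟩
      · have huw : u ≠ w := fun e => hij (by rw [e])
        have huw' : u.1 ≠ w.1 := fun e => huw (Subtype.ext e)
        rcases h.2.1 u.1 (f u) w.1 (f w) (hfO u).2.2.2 (hfO w).2.2.2 huw'
          (hUne u.1 u.2 (f w) (hfO w).1) (fun e => hUne w.1 w.2 (f u) (hfO u).1 e.symm)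
          (fun e => huw (hfinj e)) with h1 | h1 | h1 | h1
        · exact ⟨u.1, Or.inl rfl, w.1, Or.inl rfl, h1⟩
        · exact ⟨u.1, Or.inl rfl, f w, Or.inr rfl, h1⟩
        · exact ⟨f u, Or.inr rfl, w.1, Or.inl rfl, h1⟩
        · exact ⟨f u, Or.inr rfl, f w, Or.inr rfl, h1⟩
    · rw [Fintype.card_option, Fintype.card_option, Fintype.card_coe]
      omega

/-- full Hadwiger for the class `Two` with independence number two and `2 ω ≤ k + 1` -/
theorem small_all (h : Two G H)
    (hα : ∀ a b c : V, a ≠ b → a ≠ c → b ≠ c → G.Adj a b ∨ G.Adj a c ∨ G.Adj b c)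
    (hω : ∀ Q : Finset V, (∀ x ∈ Q, ∀ y ∈ Q, x ≠ y → G.Adj x y) → 2 * Q.card ≤ k + 1)
    (hn : Fintype.card V = 2 * k + 1) : HasMinor G (k + 1) := by
  by_cases hpar : ∃ q, 2 * q = k + 1
  · obtain ⟨q, hq⟩ := hpar
    exact border h hα (fun Q hQ => by have := hω Q hQ; omega) hq hn
  · refine alpha_low h hα (fun Q hQ => ?_) hn
    have h1 := hω Q hQ
    by_contra h2
    exact hpar ⟨Q.card, by omega⟩

end Border

end Pool.Agent.T2F
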