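import Mathlib
import Pool.Agent.T3.SM
import Pool.Agent.T3F.Alpha2
import Pool.Agent.SG.Base

/-!
# Graphs without stable sets of size three: seagulls outside a maximum clique

The application of the seagull packing theorem: if `G` has `2 k + 1` vertices, no stable set of size
three, no separators with at most `k` vertices and a maximum clique `Q` with `k + 2 ≤ 2 |Q|`, then
`G` has a clique minor of order `k + 1`.
-/

set_option autoImplicit false

namespace Pool.Agent.T2F

open Finset Pool.Agent.CA31 Pool.Agent.CA72 Pool.Agent.CA31C Pool.Agent.T3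
open scoped Classical

/-- the statement of the seagull packing theorem -/
def SGStmt : Prop := ∀ {V : Type} {F : SimpleGraph V} (_ : SG.TriFree F) {R : Finset V} {s : ℕ}
    (_ : 1 ≤ s) (_ : 3 * s ≤ R.card)
    (_ : ∀ I, I ⊆ R → (∀ x ∈ I, ∀ y ∈ I, ¬ F.Adj x y) → I.card + 2 * s ≤ R.card + 1)
    (_ : ∀ x ∈ R, (R.filter (fun y => F.Adj x y)).card + 2 * s ≤ R.card)
    (_ : ∀ A B, A ⊆ R → B ⊆ R → Disjoint A B → A.Nonempty → B.Nonempty →
      (∀ a ∈ A, ∀ b ∈ B, F.Adj a b) → A.card + B.card + s ≤ R.card)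
    (_ : ¬ (s = 2 ∧ R.card = 6)), ∃ SS, SG.Fam F R SS ∧ SS.card = s

/-- `R(3,4) ≤ 9` in the form needed here -/
theorem ramsey9 {V : Type} [Fintype V] {G : SimpleGraph V}
    (hα : ∀ a b c : V, a ≠ b → a ≠ c → b ≠ c → G.Adj a b ∨ G.Adj a c ∨ G.Adj b c)
    (hclq : ∀ Q : Finset V, (∀ x ∈ Q, ∀ y ∈ Q, x ≠ y → G.Adj x y) → Q.card ≤ 3)
    (hn : Fintype.card V = 9) : False := by
  have h4 : ∀ a b c d : V, G.Adj a b → G.Adj a c → G.Adj a d → G.Adj b c → G.Adj b d → G.Adj c d → False := by
    intro a b c d h1 h2 h3 h4 h5 h6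
    have h := hclq {a, b, c, d} (by
      intro x hx y hy hxy
      simp only [mem_insert, mem_singleton] at hx hy
      rcases hx with rfl | rfl | rfl | rfl <;> rcases hy with rfl | rfl | rfl | rfl <;>
        first | exact absurd rfl hxy | assumption | (apply SimpleGraph.Adj.symm; assumption))
    have hc : ({a, b, c, d} : Finset V).card = 4 := by
      rw [card_insert_of_notMem, card_insert_of_notMem, card_pair h6.ne]
      · simp only [mem_insert, mem_singleton, not_or]
        exact ⟨h4.ne, h5.ne⟩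
      · simp only [mem_insert, mem_singleton, not_or]
        exact ⟨h1.ne, h2.ne, h3.ne⟩
    omega
  -- degrees
  have hdeg : ∀ v, (univ.filter (fun w => G.Adj v w)).card = 5 := by
    intro v
    have hF : (univ.filter (fun w => w ≠ v ∧ ¬ G.Adj v w)).card ≤ 3 := by
      apply hclq
      intro x hx y hy hxy
      obtain ⟨-, hxv, hvx⟩ := mem_filter.1 hx
      obtain ⟨-, hyv, hvy⟩ := mem_filter.1 hy
      rcases hα v x y hxv.symm hyv.symm hxy with h | h | h
      · exact absurd h hvx
      · exact absurd h hvy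
      · exact h
    have hsum : (univ.filter (fun w => G.Adj v w)).card + (univ.filter (fun w => w ≠ v ∧ ¬ G.Adj v w)).card + 1 =
        Fintype.card V := by
      have h1 := Finset.card_filter_add_card_filter_not (s := (univ : Finset V)) (fun w => G.Adj v w)
      have h2 : univ.filter (fun w => ¬ G.Adj v w) = insert v (univ.filter (fun w => w ≠ v ∧ ¬ G.Adj v w)) := by
        ext w
        simp only [mem_filter, mem_univ, true_and, mem_insert]
        constructor
        · intro h
          by_cases hw : w = v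
          · exact Or.inl hw
          · exact Or.inr ⟨hw, h⟩
        · rintro (rfl | h)
          · exact G.irrefl
          · exact h.2
      rw [h2, card_insert_of_notMem (by simp)] at h1
      rw [card_univ] at h1
      omega
    have hG : (univ.filter (fun w => G.Adj v w)).card ≤ 5 := by
      by_contra hcon
      push Not at hcon
      obtain ⟨a, ha⟩ : (univ.filter (fun w => G.Adj v w)).Nonempty := card_pos.1 (by omega)
      have hva : G.Adj v a := (mem_filter.1 ha).2
      set X := (univ.filter (fun w => G.Adj v w)).erase a with hX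
      have hXc : 5 ≤ X.card := by
        rw [hX, card_erase_of_mem ha]
        omega
      have hXm : ∀ w ∈ X, w ≠ a ∧ G.Adj v w := fun w hw =>
        ⟨ne_of_mem_erase hw, (mem_filter.1 (mem_of_mem_erase hw)).2⟩
      have h1 := Finset.card_filter_add_card_filter_not (s := X) (fun w => G.Adj a w)
      by_cases h2 : 2 < (X.filter (fun w => G.Adj a w)).card
      · obtain ⟨b, hb, c, hc, d, hd, hbc, hbd, hcd⟩ := Finset.two_lt_card.1 h2
        obtain ⟨hbX, hab⟩ := mem_filter.1 hb
        obtain ⟨hcX, hac⟩ := mem_filter.1 hc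
        obtain ⟨hdX, had⟩ := mem_filter.1 hd
        rcases hα b c d hbc hbd hcd with h | h | h
        · exact h4 v a b c hva (hXm b hbX).2 (hXm c hcX).2 hab hac h
        · exact h4 v a b d hva (hXm b hbX).2 (hXm d hdX).2 hab had h
        · exact h4 v a c d hva (hXm c hcX).2 (hXm d hdX).2 hac had h
      · obtain ⟨b, hb, c, hc, d, hd, hbc, hbd, hcd⟩ := Finset.two_lt_card.1
          (show 2 < (X.filter (fun w => ¬ G.Adj a w)).card by omega)
        obtain ⟨hbX, hab⟩ := mem_filter.1 hb
        obtain ⟨hcX, hac⟩ := mem_filter.1 hc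
        obtain ⟨hdX, had⟩ := mem_filter.1 hd
        have e1 : ∀ x ∈ X, ∀ y ∈ X, ¬ G.Adj a x → ¬ G.Adj a y → x ≠ y → G.Adj x y := by
          intro x hx y hy hax hay hxy
          rcases hα a x y (hXm x hx).1.symm (hXm y hy).1.symm hxy with h | h | h
          · exact absurd h hax
          · exact absurd h hay
          · exact h
        exact h4 v b c d (hXm b hbX).2 (hXm c hcX).2 (hXm d hdX).2 (e1 b hbX c hcX hab hac hbc)
          (e1 b hbX d hdX hab had hbd) (e1 c hcX d hdX hac had hcd)
    omega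
  have hsum := G.sum_degrees_eq_twice_card_edges
  have hd : ∀ v, G.degree v = 5 := by
    intro v
    rw [← hdeg v, ← SimpleGraph.card_neighborFinset_eq_degree]
    congr 1
    ext w
    simp
  rw [Finset.sum_congr rfl (fun v _ => hd v), sum_const, card_univ, hn, smul_eq_mul] at hsum
  omega

/-- the case of a clique with more than half of the order of the wanted clique minor -/
theorem alphaHigh (hSG : SGStmt) {V : Type} [Fintype V] {G : SimpleGraph V} {k : ℕ}
    (hα : ∀ a b c : V, a ≠ b → a ≠ c → b ≠ c → G.Adj a b ∨ G.Adj a c ∨ G.Adj b c)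
    (hsep : ∀ A B : Finset V, Disjoint A B → A.Nonempty → B.Nonempty → (∀ a ∈ A, ∀ b ∈ B, ¬ G.Adj a b) →
      k + 1 ≤ (univ \ (A ∪ B)).card)
    (hclq : ∀ Q : Finset V, (∀ x ∈ Q, ∀ y ∈ Q, x ≠ y → G.Adj x y) → Q.card ≤ k)
    (hn : Fintype.card V = 2 * k + 1) {Q : Finset V} (hQ : ∀ x ∈ Q, ∀ y ∈ Q, x ≠ y → G.Adj x y)
    (hmax : ∀ Q' : Finset V, (∀ x ∈ Q', ∀ y ∈ Q', x ≠ y → G.Adj x y) → Q'.card ≤ Q.card)
    (hq : k + 2 ≤ 2 * Q.card) : HasMinor G (k + 1) := by
  have hqk := hclq Q hQ
  have hRc : (univ \ Q).card + Q.card = 2 * k + 1 := by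
    rw [card_sdiff_add_card_eq_card (subset_univ Q), card_univ, hn]
  obtain ⟨F, hFc⟩ : ∃ F : SimpleGraph V, ∀ x y, F.Adj x y ↔ x ≠ y ∧ ¬ G.Adj x y :=
    ⟨Gᶜ, fun x y => SimpleGraph.compl_adj G x y⟩
  have hF : ∀ x y, ¬ F.Adj x y → x ≠ y → G.Adj x y := by
    intro x y h hxy
    by_contra hn
    exact h ((hFc x y).2 ⟨hxy, hn⟩)
  have htri : SG.TriFree F := by
    intro x y z hxy hyz hxz
    rw [hFc] at hxy hyz hxz
    rcases hα x y z hxy.1 hxz.1 hyz.1 with h | h | h
    · exact hxy.2 h
    · exact hxz.2 h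
    · exact hyz.2 h
  have hnbr : ∀ x, ∀ y z, F.Adj x y → F.Adj x z → y ≠ z → G.Adj y z := by
    intro x y z hxy hxz hyz
    exact hF y z (fun h => htri x y z hxy h hxz) hyz
  obtain ⟨SS, hfam, hSS⟩ := hSG (F := F) htri (R := univ \ Q) (s := k + 1 - Q.card) (by omega) (by omega)
    (by
      intro I hI hind
      have h1 := hmax I (fun x hx y hy hxy => hF x y (hind x hx y hy) hxy)
      omega)
    (by
      intro x hx
      have hxQ : x ∉ Q := (mem_sdiff.1 hx).2
      obtain ⟨z, hzQ, hxz⟩ : ∃ z ∈ Q, F.Adj x z := by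
        by_contra hcon
        push Not at hcon
        have h1 := hmax (insert x Q) (by
          intro u hu v hv huv
          rw [mem_insert] at hu hv
          rcases hu with rfl | hu <;> rcases hv with rfl | hv
          · exact absurd rfl huv
          · exact hF u v (hcon v hv) huv
          · exact (hF v u (hcon u hu) huv.symm).symm
          · exact hQ u hu v hv huv)
        rw [card_insert_of_notMem hxQ] at h1
        omega
      have hz : z ∉ (univ \ Q).filter (fun y => F.Adj x y) := fun h =>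
        (mem_sdiff.1 (mem_filter.1 h).1).2 hzQ
      have h1 := hmax (insert z ((univ \ Q).filter (fun y => F.Adj x y))) (by
        intro u hu v hv huv
        rw [mem_insert, mem_filter] at hu hv
        refine hnbr x u v ?_ ?_ huv
        · rcases hu with rfl | hu
          · exact hxz
          · exact hu.2
        · rcases hv with rfl | hv
          · exact hxz
          · exact hv.2)
      rw [card_insert_of_notMem hz] at h1
      omega)
    (by
      intro A B _ _ hAB hA hB hcomp
      have h1 := hsep A B hAB hA hB (fun a ha b hb => by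
        have := hcomp a ha b hb
        rw [hFc] at this
        exact this.2)
      have h2 : (univ \ (A ∪ B)).card + (A ∪ B).card = 2 * k + 1 := by
        rw [card_sdiff_add_card_eq_card (subset_univ _), card_univ, hn]
      rw [card_union_of_disjoint hAB] at h2
      omega)
    (by
      rintro ⟨h1, h2⟩
      have hk4 : k = 4 := by omega
      exact ramsey9 hα (fun Q' hQ' => (hmax Q' hQ').trans (by omega)) (by omega))
  -- the bags
  have hbag : ∀ S : Finset V, SG.IsSg F S → (G.induce (S : Set V)).Connected ∧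
      ∀ v, v ∉ S → ∃ u ∈ S, G.Adj u v := by
    rintro S ⟨a, c, b, hs, rfl⟩
    have hab : G.Adj a b := hF a b hs.ab hs.nab
    have hcb : G.Adj c b := hF c b hs.cb hs.ncb
    constructor
    · have h1 : (({a, c, b} : Finset V) : Set V) = ({a} ∪ {b}) ∪ {c} := by
        ext v
        simp only [Finset.coe_insert, Finset.coe_singleton, Set.mem_insert_iff, Set.mem_singleton_iff,
          Set.mem_union]
        tauto
      rw [h1]
      exact conn_two (conn_two (singleton_conn G _) (singleton_conn G _) ⟨a, rfl, b, rfl, hab⟩)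
        (singleton_conn G _) ⟨b, Or.inr rfl, c, rfl, hcb.symm⟩
    · intro v hv
      simp only [mem_insert, mem_singleton, not_or] at hv
      by_cases h1 : G.Adj a v
      · exact ⟨a, by simp, h1⟩
      · refine ⟨c, by simp, ?_⟩
        rcases hα a c v hs.ac.ne (fun e => hv.1 e.symm) (fun e => hv.2.1 e.symm) with h | h | h
        · have := hs.ac
          rw [hFc] at this
          exact absurd h this.2
        · exact absurd h h1
        · exact h
  let f : ({v // v ∈ Q} ⊕ {S // S ∈ SS}) → Set V := Sum.elim (fun v => {v.1}) (fun S => (S.1 : Set V))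
  have hcard : Fintype.card ({v // v ∈ Q} ⊕ {S // S ∈ SS}) = k + 1 := by
    rw [Fintype.card_sum, Fintype.card_coe, Fintype.card_coe, hSS]
    omega
  have hSQ : ∀ S ∈ SS, ∀ v ∈ Q, v ∉ S := fun S hS v hv hvS => (mem_sdiff.1 (hfam.sub S hS hvS)).2 hv
  refine T3F.hasMinor_of_fam f ?_ ?_ ?_ (by omega)
  · rintro (v | S)
    · exact singleton_conn G _
    · exact (hbag S.1 (hfam.sg S.1 S.2)).1
  · rintro (v | S) (w | T) hne
    · show Disjoint ({v.1} : Set V) {w.1}
      rw [Set.disjoint_singleton]
      exact fun e => hne (by rw [Subtype.ext e])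
    · show Disjoint ({v.1} : Set V) (T.1 : Set V)
      rw [Set.disjoint_singleton_left]
      exact fun h => hSQ T.1 T.2 v.1 v.2 h
    · show Disjoint (S.1 : Set V) ({w.1} : Set V)
      rw [Set.disjoint_singleton_right]
      exact fun h => hSQ S.1 S.2 w.1 w.2 h
    · show Disjoint (S.1 : Set V) (T.1 : Set V)
      rw [Finset.disjoint_coe]
      exact hfam.dis S.1 S.2 T.1 T.2 (fun e => hne (by rw [Subtype.ext e]))
  · rintro (v | S) (w | T) hne
    · exact ⟨v.1, rfl, w.1, rfl, hQ v.1 v.2 w.1 w.2 (fun e => hne (by rw [Subtype.ext e]))⟩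
    · obtain ⟨u, hu, huv⟩ := (hbag T.1 (hfam.sg T.1 T.2)).2 v.1 (hSQ T.1 T.2 v.1 v.2)
      exact ⟨v.1, rfl, u, hu, huv.symm⟩
    · obtain ⟨u, hu, huv⟩ := (hbag S.1 (hfam.sg S.1 S.2)).2 w.1 (hSQ S.1 S.2 w.1 w.2)
      exact ⟨u, hu, w.1, rfl, huv⟩
    · have hST : S.1 ≠ T.1 := fun e => hne (by rw [Subtype.ext e])
      have hd := hfam.dis S.1 S.2 T.1 T.2 hST
      obtain ⟨x, hx⟩ : T.1.Nonempty := card_pos.1 (by rw [(hfam.sg T.1 T.2).card]; omega)
      obtain ⟨u, hu, hux⟩ := (hbag S.1 (hfam.sg S.1 S.2)).2 x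
        (fun h => Finset.disjoint_left.1 hd h hx)
      exact ⟨u, hu, x, hx, hux⟩

end Pool.Agent.T2F
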