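import Mathlib
import Pool.Agent.HM.Reduce
import Pool.Agent.T2S.Main
import Pool.Agent.T2F.Main
import Pool.Agent.T2F.AlphaHigh

/-!
# Full Hadwiger for the class `Two`: the assembly from its parts
-/

set_option autoImplicit false

namespace Pool.Agent.T2F

open Finset Pool.Agent.CA31 Pool.Agent.CA72 Pool.Agent.CA31C Pool.Agent.T3 Pool.Agent.T2S
open scoped Classical

/-- the class of graphs `G` with a subgraph `H` such that `Two G H` -/
def G2 (V : Type) (G : SimpleGraph V) : Prop := ∃ H, Two G H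

theorem G2.quot {V W : Type} {G : SimpleGraph V} {f : W → Set V} (h : G2 V G)
    (hc : ∀ i, (G.induce (f i)).Connected) (hd : ∀ i j, i ≠ j → Disjoint (f i) (f j)) :
    G2 W (QG G f) := by
  obtain ⟨H, h⟩ := h
  exact ⟨QH G H f, h.quot hc hd⟩

/-- the statement of the case of small cliques -/
def SmallStmt : Prop := ∀ {V : Type} [Fintype V] {G H : SimpleGraph V} (_ : Two G H) {k : ℕ}
    (_ : ¬ G.Colorable k) (_ : ConCrit G k)
    (_ : ∀ A B : Finset V, Disjoint A B → A.Nonempty → B.Nonempty → (∀ a ∈ A, ∀ b ∈ B, ¬ G.Adj a b) →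
      k + 1 ≤ (univ \ (A ∪ B)).card)
    (_ : ∀ a b c : V, a ≠ b → a ≠ c → b ≠ c → G.Adj a b ∨ G.Adj a c ∨ G.Adj b c)
    (_ : ∀ Q : Finset V, (∀ x ∈ Q, ∀ y ∈ Q, x ≠ y → G.Adj x y) → Q.card ≤ k)
    (_ : ∀ Q : Finset V, (∀ x ∈ Q, ∀ y ∈ Q, x ≠ y → G.Adj x y) → 2 * Q.card ≤ k + 1)
    (_ : Fintype.card V = 2 * k + 1), HasMinor G (k + 1)

/-- Hadwiger's conjecture for the class, from its parts -/
theorem full_of (hSG : SGStmt) (hsmall : SmallStmt) {V : Type} [Fintype V] {G H : SimpleGraph V}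
    (h : Two G H) {k : ℕ} (hk : ¬ G.Colorable k) : HasMinor G (k + 1) := by
  refine HM.reduce G2 (fun V W G f h hc hd => h.quot hc hd) ?_ V G k ⟨H, h⟩ hk
  clear hk h H
  intro V _ G k ⟨H, h⟩ hk hcc hclq hn
  have hsep : ∀ A B : Finset V, Disjoint A B → A.Nonempty → B.Nonempty →
      (∀ a ∈ A, ∀ b ∈ B, ¬ G.Adj a b) → k + 1 ≤ (univ \ (A ∪ B)).card :=
    fun A B hAB hA hB hno => h.sep hk hcc A B hAB hA hB hno
  rcases hn with hn | ⟨hn, hα⟩
  · exact big h hk hsep hclq (by omega)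
  · -- a maximum clique
    obtain ⟨Q, hQm, hmax⟩ := Finset.exists_max_image
      (univ.filter (fun Q : Finset V => ∀ x ∈ Q, ∀ y ∈ Q, x ≠ y → G.Adj x y)) Finset.card
      ⟨∅, mem_filter.2 ⟨mem_univ _, by simp⟩⟩
    have hQ := (mem_filter.1 hQm).2
    have hmax' : ∀ Q' : Finset V, (∀ x ∈ Q', ∀ y ∈ Q', x ≠ y → G.Adj x y) → Q'.card ≤ Q.card :=
      fun Q' hQ' => hmax Q' (mem_filter.2 ⟨mem_univ _, hQ'⟩)
    by_cases hq : k + 2 ≤ 2 * Q.card
    · exact alphaHigh hSG hα hsep hclq hn hQ hmax' hq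
    · refine hsmall h hk hcc hsep hα hclq (fun Q' hQ' => ?_) hn
      have := hmax' Q' hQ'
      omega

end Pool.Agent.T2F
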