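import Mathlib
import Pool.Agent.T2F.Border
import Pool.Agent.T2F.FullOf

/-!
# Full Hadwiger for the class `Two`: independence number two and `2 ω ≤ k + 1`
-/

set_option autoImplicit false

namespace Pool.Agent.T2F

/-- the case of small cliques -/
theorem small : SmallStmt := by
  intro V _ G H h k _ _ _ hα _ hω hn
  exact small_all h hα hω hn

end Pool.Agent.T2F
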