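import Mathlib
import Pool.Agent.T2F.SmallMain
import Pool.Agent.SG.Main

/-!
# Hadwiger's conjecture for the class `Two`: the final theorem
-/

set_option autoImplicit false

namespace Pool.Agent.T2F

open Pool.Agent.CA31 Pool.Agent.T2S

/-- Hadwiger's conjecture for the class `Two` -/
theorem full {V : Type} [Fintype V] {G H : SimpleGraph V} (h : Two G H) {k : ℕ}
    (hk : ¬ G.Colorable k) : HasMinor G (k + 1) :=
  full_of (fun hF _ _ hs hR hI hD hC hE => SG.main hF hs hR hI hD hC hE) small h hk

end Pool.Agent.T2F
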