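import Mathlib
import Pool.Agent.T3F.Alpha2
import Pool.Agent.T2S.Main

/-!
# The bags of the borderline case of small cliques
-/

set_option autoImplicit false

namespace Pool.Agent.T2F

open Finset Pool.Agent.CA31 Pool.Agent.CA72 Pool.Agent.CA31C Pool.Agent.T3 Pool.Agent.T2S
open scoped Classical

/-- bags `{y}`, `{v, x}` and `k - 1` edges of `H` from `U`, where `x` and `y` are complete to `U` -/
theorem bags {V : Type} {G H : SimpleGraph V} (h : Two G H) {k : ℕ} {v x y : V} {U : Finset V}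
    {g : V → V} (hvx : G.Adj v x) (hvy : G.Adj v y) (hxy : x ≠ y) (hxU : ∀ u ∈ U, G.Adj x u)
    (hyU : ∀ u ∈ U, G.Adj y u) (hvU : v ∉ U) (hg : ∀ u ∈ U, H.Adj u (g u))
    (hinj : ∀ u ∈ U, ∀ u' ∈ U, g u = g u' → u = u') (hgU : ∀ u ∈ U, g u ∉ U)
    (hgv : ∀ u ∈ U, g u ≠ v) (hgx : ∀ u ∈ U, g u ≠ x) (hgy : ∀ u ∈ U, g u ≠ y)
    (hc : k ≤ U.card + 1) : HasMinor G (k + 1) := by
  have hxU' : x ∉ U := fun hh => (hxU x hh).ne rfl
  have hyU' : y ∉ U := fun hh => (hyU y hh).ne rfl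
  let f : Bool ⊕ {u // u ∈ U} → Set V :=
    Sum.elim (fun b => if b then ({v} : Set V) ∪ {x} else {y}) (fun u => ({u.1} : Set V) ∪ {g u.1})
  have hft : f (Sum.inl true) = ({v} : Set V) ∪ {x} := by simp [f]
  have hff : f (Sum.inl false) = ({y} : Set V) := by simp [f]
  have hfu : ∀ u, f (Sum.inr u) = ({u.1} : Set V) ∪ {g u.1} := fun u => rfl
  have hcard : Fintype.card (Bool ⊕ {u // u ∈ U}) = U.card + 2 := by
    rw [Fintype.card_sum, Fintype.card_bool, Fintype.card_coe]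
    omega
  have hy_vx : Disjoint ({y} : Set V) (({v} : Set V) ∪ {x}) := by
    rw [Set.disjoint_singleton_left]
    rintro (e | e)
    · exact hvy.ne e.symm
    · exact hxy e.symm
  have hu_vx : ∀ u ∈ U, Disjoint (({u} : Set V) ∪ {g u}) (({v} : Set V) ∪ {x}) := by
    intro u hu
    rw [Set.disjoint_left]
    rintro z (hz | hz) (hz' | hz')
    · exact hvU ((hz'.symm.trans hz : v = u) ▸ hu)
    · exact hxU' ((hz'.symm.trans hz : x = u) ▸ hu)
    · exact hgv u hu (hz.symm.trans hz')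
    · exact hgx u hu (hz.symm.trans hz')
  have hu_y : ∀ u ∈ U, Disjoint (({u} : Set V) ∪ {g u}) ({y} : Set V) := by
    intro u hu
    rw [Set.disjoint_singleton_right]
    rintro (e | e)
    · exact hyU' ((e : y = u) ▸ hu)
    · exact hgy u hu (e : y = g u).symm
  refine T3F.hasMinor_of_fam f ?_ ?_ ?_ (by omega)
  · rintro ((_ | _) | u)
    · rw [hff]
      exact singleton_conn G _
    · rw [hft]
      exact conn_two (singleton_conn G _) (singleton_conn G _) ⟨v, rfl, x, rfl, hvx⟩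
    · rw [hfu]
      exact conn_two (singleton_conn G _) (singleton_conn G _) ⟨u.1, rfl, g u.1, rfl, h.1 _ _ (hg u.1 u.2)⟩
  · rintro ((_ | _) | u) ((_ | _) | w) hne
    · exact absurd rfl hne
    · rw [hff, hft]
      exact hy_vx
    · rw [hff, hfu]
      exact (hu_y w.1 w.2).symm
    · rw [hff, hft]
      exact hy_vx.symm
    · exact absurd rfl hne
    · rw [hft, hfu]
      exact (hu_vx w.1 w.2).symm
    · rw [hff, hfu]
      exact hu_y u.1 u.2
    · rw [hft, hfu]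
      exact hu_vx u.1 u.2
    · rw [hfu, hfu, Set.disjoint_left]
      have huw : u.1 ≠ w.1 := fun e => hne (by rw [Subtype.ext e])
      rintro z (hz | hz) (hz' | hz')
      · exact huw (hz.symm.trans hz')
      · exact hgU w.1 w.2 ((hz.symm.trans hz' : u.1 = g w.1) ▸ u.2)
      · exact hgU u.1 u.2 ((hz'.symm.trans hz : w.1 = g u.1) ▸ w.2)
      · exact huw (hinj u.1 u.2 w.1 w.2 (hz.symm.trans hz'))
  · rintro ((_ | _) | u) ((_ | _) | w) hne
    · exact absurd rfl hne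
    · rw [hff, hft]
      exact ⟨y, rfl, v, Or.inl rfl, hvy.symm⟩
    · rw [hff, hfu]
      exact ⟨y, rfl, w.1, Or.inl rfl, hyU w.1 w.2⟩
    · rw [hff, hft]
      exact ⟨v, Or.inl rfl, y, rfl, hvy⟩
    · exact absurd rfl hne
    · rw [hft, hfu]
      exact ⟨x, Or.inr rfl, w.1, Or.inl rfl, hxU w.1 w.2⟩
    · rw [hff, hfu]
      exact ⟨u.1, Or.inl rfl, y, rfl, (hyU u.1 u.2).symm⟩
    · rw [hft, hfu]
      exact ⟨u.1, Or.inl rfl, x, Or.inr rfl, (hxU u.1 u.2).symm⟩
    · rw [hfu, hfu]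
      have huw : u.1 ≠ w.1 := fun e => hne (by rw [Subtype.ext e])
      rcases h.2.1 u.1 (g u.1) w.1 (g w.1) (hg u.1 u.2) (hg w.1 w.2) huw
        (fun e => hgU w.1 w.2 (e ▸ u.2)) (fun e => hgU u.1 u.2 (e ▸ w.2))
        (fun e => huw (hinj u.1 u.2 w.1 w.2 e)) with e | e | e | e
      · exact ⟨u.1, Or.inl rfl, w.1, Or.inl rfl, e⟩
      · exact ⟨u.1, Or.inl rfl, g w.1, Or.inr rfl, e⟩
      · exact ⟨g u.1, Or.inr rfl, w.1, Or.inl rfl, e⟩
      · exact ⟨g u.1, Or.inr rfl, g w.1, Or.inr rfl, e⟩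

end Pool.Agent.T2F
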