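import Mathlib
import Pool.Agent.T2F.Final

/-!
# Graphs whose complement has fractional chromatic number less than three

If the vertices of `G` carry `w`-element sets of indices out of `N` (the cliques of a family, each
vertex in at least `w` of them) such that vertices with a common index are adjacent, and `N < 3 * w`
(or `N = 3 * w` and `w` odd), then `G` is in the class `Two`, so Hadwiger's conjecture holds.
-/

set_option autoImplicit false

namespace Pool.Agent.T2F

open Pool.Agent.CA31 Pool.Agent.T2S

section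

variable {V : Type} {G : SimpleGraph V} {N w : ℕ}

/-- adjacent vertices with at most `w / 2` common indices -/
def fracH (G : SimpleGraph V) (S : V → Finset (Fin N)) (w : ℕ) : SimpleGraph V where
  Adj x y := G.Adj x y ∧ 2 * (S x ∩ S y).card ≤ w
  symm := ⟨fun x y h => ⟨h.1.symm, by rw [Finset.inter_comm]; exact h.2⟩⟩
  loopless := ⟨fun x h => G.loopless.irrefl x h.1⟩

theorem frac_two (S : V → Finset (Fin N)) (hw : N < 3 * w ∨ (N = 3 * w ∧ Odd w))
    (hS : ∀ v, (S v).card = w)
    (hcl : ∀ u v, u ≠ v → (∃ i, i ∈ S u ∧ i ∈ S v) → G.Adj u v) : Two G (fracH G S w) := by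
  have hdis : ∀ u v, u ≠ v → ¬ G.Adj u v → Disjoint (S u) (S v) := by
    intro u v huv hn
    rw [Finset.disjoint_left]
    intro i hu hv
    exact hn (hcl u v huv ⟨i, hu, hv⟩)
  refine ⟨fun x y h => h.1, ?_, ?_⟩
  · intro x y z t hxy hzt hxz hxt hyz hyt
    by_contra hcon
    push Not at hcon
    obtain ⟨h1, h2, h3, h4⟩ := hcon
    have hd : Disjoint (S x ∪ S y) (S z ∪ S t) := by
      rw [Finset.disjoint_union_left, Finset.disjoint_union_right, Finset.disjoint_union_right]
      exact ⟨⟨hdis _ _ hxz h1, hdis _ _ hxt h2⟩, hdis _ _ hyz h3, hdis _ _ hyt h4⟩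
    have hc := Finset.card_union_of_disjoint hd
    have hle : ((S x ∪ S y) ∪ (S z ∪ S t)).card ≤ N := by
      have := Finset.card_le_univ ((S x ∪ S y) ∪ (S z ∪ S t))
      simpa using this
    have a1 := Finset.card_union_add_card_inter (S x) (S y)
    have a2 := Finset.card_union_add_card_inter (S z) (S t)
    have b1 := hxy.2
    have b2 := hzt.2
    rw [hS, hS] at a1 a2
    rcases hw with hw | ⟨hw, ⟨h, hh⟩⟩ <;> omega
  · intro x y z hxy hyz hxz hn
    have hd : Disjoint (S x ∩ S y) (S y ∩ S z) :=
      (hdis x z hxz hn).mono Finset.inter_subset_left Finset.inter_subset_right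
    have hsub : (S x ∩ S y) ∪ (S y ∩ S z) ⊆ S y :=
      Finset.union_subset Finset.inter_subset_right Finset.inter_subset_left
    have hc := Finset.card_le_card hsub
    rw [Finset.card_union_of_disjoint hd, hS] at hc
    by_cases h1 : 2 * (S x ∩ S y).card ≤ w
    · exact Or.inl ⟨hxy, h1⟩
    · exact Or.inr ⟨hyz, by omega⟩

/-- Hadwiger's conjecture for every graph with a family of `N` cliques such that every vertex is in
at least `w` of them, `N < 3 w` (that is, the complement has fractional chromatic number less than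
three), or `N = 3 w` with `w` odd. -/
theorem frac [Fintype V] [DecidableEq V] (C : Fin N → Finset V) (hw : N < 3 * w ∨ (N = 3 * w ∧ Odd w))
    (hcl : ∀ i, ∀ u ∈ C i, ∀ v ∈ C i, u ≠ v → G.Adj u v)
    (hcov : ∀ v, w ≤ (Finset.univ.filter (fun i => v ∈ C i)).card)
    {k : ℕ} (hk : ¬ G.Colorable k) : HasMinor G (k + 1) := by
  classical
  have hex : ∀ v, ∃ T ⊆ Finset.univ.filter (fun i => v ∈ C i), T.card = w :=
    fun v => Finset.exists_subset_card_eq (hcov v)
  choose S hS1 hS2 using hex
  refine full (frac_two S hw hS2 ?_) hk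
  rintro u v huv ⟨i, hu, hv⟩
  have h1 := (Finset.mem_filter.1 (hS1 u hu)).2
  have h2 := (Finset.mem_filter.1 (hS1 v hv)).2
  exact hcl i u h1 v h2 huv

end

end Pool.Agent.T2F
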