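import Mathlib
import Pool.Agent.T2S.Main

/-!
# Two large components in the borderline case of small cliques

If all cliques have at most `q` vertices and `|V| = 4 q - 1`, a Tutte barrier of `H - v` without the
edges inside the non-neighbourhood of `v` cannot have exactly two components which are not inside the
non-neighbourhood.
-/

set_option autoImplicit false

namespace Pool.Agent.T2F

open Finset
open scoped Classical

section PTwo

variable {V : Type} {G H : SimpleGraph V} {q : ℕ}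

/-- the non-neighbours of a vertex in a set form a clique -/
theorem nonnbr_card (hα : ∀ a b c : V, a ≠ b → a ≠ c → b ≠ c → G.Adj a b ∨ G.Adj a c ∨ G.Adj b c)
    (hclq : ∀ Q : Finset V, (∀ x ∈ Q, ∀ y ∈ Q, x ≠ y → G.Adj x y) → Q.card ≤ q) (x : V)
    (Q : Finset V) (hQ : ∀ y ∈ Q, y ≠ x ∧ ¬ G.Adj x y) : Q.card ≤ q := by
  apply hclq
  intro y hy z hz hyz
  rcases hα x y z (hQ y hy).1.symm (hQ z hz).1.symm hyz with h | h | h
  · exact absurd h (hQ y hy).2
  · exact absurd h (hQ z hz).2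
  · exact h

/-- the neighbours of a vertex by edges outside `H` form a clique with it -/
theorem nbr_card (hP : ∀ x y z, G.Adj x y → G.Adj y z → x ≠ z → ¬ G.Adj x z → H.Adj x y ∨ H.Adj y z)
    (hclq : ∀ Q : Finset V, (∀ x ∈ Q, ∀ y ∈ Q, x ≠ y → G.Adj x y) → Q.card ≤ q) (x : V)
    (Q : Finset V) (hQ : ∀ y ∈ Q, G.Adj x y ∧ ¬ H.Adj x y) : Q.card + 1 ≤ q := by
  have hx : x ∉ Q := fun h => (hQ x h).1.ne rfl
  rw [← card_insert_of_notMem hx]
  apply hclq
  intro y hy z hz hyz
  rw [mem_insert] at hy hz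
  rcases hy with rfl | hy <;> rcases hz with rfl | hz
  · exact absurd rfl hyz
  · exact (hQ z hz).1
  · exact (hQ y hy).1.symm
  · by_contra hn
    rcases hP y x z (hQ y hy).1.symm (hQ z hz).1 hyz hn with h | h
    · exact (hQ y hy).2 h.symm
    · exact (hQ z hz).2 h

/-- a vertex without `H`-neighbours in a large set -/
theorem tight_vertex
    (hα : ∀ a b c : V, a ≠ b → a ≠ c → b ≠ c → G.Adj a b ∨ G.Adj a c ∨ G.Adj b c)
    (hP : ∀ x y z, G.Adj x y → G.Adj y z → x ≠ z → ¬ G.Adj x z → H.Adj x y ∨ H.Adj y z)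
    (hclq : ∀ Q : Finset V, (∀ x ∈ Q, ∀ y ∈ Q, x ≠ y → G.Adj x y) → Q.card ≤ q)
    {x : V} {D : Finset V} (hx : x ∉ D) (hD : ∀ y ∈ D, ¬ H.Adj x y) (hc : 2 * q ≤ D.card + 1) :
    (D.filter (fun y => G.Adj x y)).card + 1 = q ∧ ∀ y, y ≠ x → ¬ G.Adj x y → y ∈ D := by
  have h1 := nbr_card hP hclq x (D.filter (fun y => G.Adj x y))
    (fun y hy => ⟨(mem_filter.1 hy).2, hD y (mem_filter.1 hy).1⟩)
  have hne : ∀ y ∈ D.filter (fun y => ¬ G.Adj x y), y ≠ x ∧ ¬ G.Adj x y := fun y hy =>
    ⟨fun e => hx (e ▸ (mem_filter.1 hy).1), (mem_filter.1 hy).2⟩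
  have h2 := nonnbr_card hα hclq x (D.filter (fun y => ¬ G.Adj x y)) hne
  have h3 := Finset.card_filter_add_card_filter_not (s := D) (fun y => G.Adj x y)
  refine ⟨by omega, fun y hy hxy => ?_⟩
  by_contra hyD
  have h4 := nonnbr_card hα hclq x (insert y (D.filter (fun y => ¬ G.Adj x y))) (by
    intro z hz
    rcases mem_insert.1 hz with rfl | hz
    · exact ⟨hy, hxy⟩
    · exact hne z hz)
  rw [card_insert_of_notMem (fun h => hyD (mem_filter.1 h).1)] at h4
  omega

/-- three parts, all vertices with `q - 1` neighbours in the other parts, and no edges of `H` between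
the parts: a vertex with neighbours in both other parts -/
theorem tri_one
    (hP : ∀ x y z, G.Adj x y → G.Adj y z → x ≠ z → ¬ G.Adj x z → H.Adj x y ∨ H.Adj y z)
    (hclq : ∀ Q : Finset V, (∀ x ∈ Q, ∀ y ∈ Q, x ≠ y → G.Adj x y) → Q.card ≤ q)
    {S : Finset V} {c : V → Fin 3} (hH : ∀ x ∈ S, ∀ y ∈ S, c x ≠ c y → ¬ H.Adj x y)
    (hdeg : ∀ x ∈ S, q ≤ (S.filter (fun y => c x ≠ c y ∧ G.Adj x y)).card + 1)
    {x y t : V} (hx : x ∈ S) (hy : y ∈ S) (ht : t ∈ S) (hxy : c x ≠ c y) (hxt : c x ≠ c t)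
    (hyt : c y ≠ c t) (h1 : G.Adj x y) (h2 : G.Adj x t) {x' : V} (hx' : x' ∈ S) (hcx : c x' = c x)
    (h3 : G.Adj x' y) : x' = x := by
  by_contra hne
  have cl : ∀ u ∈ S, ∀ v ∈ S, ∀ w ∈ S, c u ≠ c v → c v ≠ c w → u ≠ w → G.Adj u v → G.Adj v w →
      G.Adj u w := by
    intro u hu v hv w hw huv hvw huw e1 e2
    by_contra hn
    rcases hP u v w e1 e2 huw hn with h | h
    · exact hH u hu v hv huv h
    · exact hH v hv w hw hvw h
  have hyt' : G.Adj y t := cl y hy x hx t ht hxy.symm hxt (fun e => hyt (by rw [e])) h1.symm h2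
  have hx'x : G.Adj x' x := cl x' hx' y hy x hx (by rw [hcx]; exact hxy) hxy.symm hne h3 h1.symm
  have hx't : G.Adj x' t := cl x' hx' y hy t ht (by rw [hcx]; exact hxy) hyt
    (fun e => hxt (by rw [← hcx, e])) h3 hyt'
  set N := S.filter (fun y => c x ≠ c y ∧ G.Adj x y) with hN
  have hNm : ∀ z ∈ N, z ∈ S ∧ c x ≠ c z ∧ G.Adj x z := fun z hz => by
    rw [hN, mem_filter] at hz
    exact ⟨hz.1, hz.2.1, hz.2.2⟩
  have hNN : ∀ z ∈ N, ∀ w ∈ N, z ≠ w → G.Adj z w := by
    intro z hz w hw hzw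
    obtain ⟨hzS, hcz, hxz⟩ := hNm z hz
    obtain ⟨hwS, hcw, hxw⟩ := hNm w hw
    exact cl z hzS x hx w hwS hcz.symm hcw hzw hxz.symm hxw
  have hyN : y ∈ N := by rw [hN, mem_filter]; exact ⟨hy, hxy, h1⟩
  have htN : t ∈ N := by rw [hN, mem_filter]; exact ⟨ht, hxt, h2⟩
  have hx'N : ∀ z ∈ N, G.Adj x' z := by
    intro z hz
    obtain ⟨hzS, hcz, hxz⟩ := hNm z hz
    have hx'z : x' ≠ z := fun e => hcz (by rw [← hcx, e])
    by_cases hzy : c z = c y
    · -- via t
      have hzt : z ≠ t := fun e => hyt (by rw [← hzy, e])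
      exact cl x' hx' t ht z hzS (by rw [hcx]; exact hxt) (by rw [hzy]; exact hyt.symm) hx'z hx't
        (hNN t htN z hz hzt.symm)
    · have hzy' : y ≠ z := fun e => hzy (by rw [e])
      exact cl x' hx' y hy z hzS (by rw [hcx]; exact hxy) (fun e => hzy e.symm) hx'z h3
        (hNN y hyN z hz hzy')
  have hxN : x ∉ N := fun h => (hNm x h).2.1 rfl
  have hx'N' : x' ∉ insert x N := by
    rw [mem_insert, not_or]
    exact ⟨hne, fun h => (hNm x' h).2.1 hcx.symm⟩
  have hcl := hclq (insert x' (insert x N)) (by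
    intro u hu v hv huv
    rw [mem_insert, mem_insert] at hu hv
    rcases hu with rfl | rfl | hu <;> rcases hv with rfl | rfl | hv
    · exact absurd rfl huv
    · exact hx'x
    · exact hx'N v hv
    · exact hx'x.symm
    · exact absurd rfl huv
    · exact (hNm v hv).2.2
    · exact (hx'N u hu).symm
    · exact (hNm u hu).2.2.symm
    · exact hNN u hu v hv huv)
  rw [card_insert_of_notMem hx'N', card_insert_of_notMem hxN] at hcl
  have h5 := hdeg x hx
  rw [← hN] at h5
  omega

/-- no triangle across the parts if `4 ≤ q` -/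
theorem tri_two
    (hP : ∀ x y z, G.Adj x y → G.Adj y z → x ≠ z → ¬ G.Adj x z → H.Adj x y ∨ H.Adj y z)
    (hclq : ∀ Q : Finset V, (∀ x ∈ Q, ∀ y ∈ Q, x ≠ y → G.Adj x y) → Q.card ≤ q) (hq : 4 ≤ q)
    {S : Finset V} {c : V → Fin 3} (hH : ∀ x ∈ S, ∀ y ∈ S, c x ≠ c y → ¬ H.Adj x y)
    (hdeg : ∀ x ∈ S, q ≤ (S.filter (fun y => c x ≠ c y ∧ G.Adj x y)).card + 1)
    {x y t : V} (hx : x ∈ S) (hy : y ∈ S) (ht : t ∈ S) (hxy : c x ≠ c y) (hxt : c x ≠ c t)
    (hyt : c y ≠ c t) (h1 : G.Adj x y) (h2 : G.Adj x t) : False := by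
  have hyt' : G.Adj y t := by
    by_contra hn
    rcases hP y x t h1.symm h2 (fun e => hyt (by rw [e])) hn with h | h
    · exact hH y hy x hx hxy.symm h
    · exact hH x hx t ht hxt h
  have hN : S.filter (fun z => c x ≠ c z ∧ G.Adj x z) ⊆ {y, t} := by
    intro z hz
    obtain ⟨hzS, hcz, hxz⟩ := mem_filter.1 hz
    rw [mem_insert, mem_singleton]
    have hc : c z = c y ∨ c z = c t := by
      revert hcz hxy hxt hyt
      generalize c x = a
      generalize c y = b
      generalize c z = d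
      generalize c t = e
      revert a b d e
      decide
    rcases hc with hc | hc
    · left
      exact tri_one hP hclq hH hdeg hy hx ht hxy.symm hyt hxt h1.symm hyt' hzS hc hxz.symm
    · right
      exact tri_one hP hclq hH hdeg ht hx hy hxt.symm hyt.symm hxy h2.symm hyt'.symm hzS hc hxz.symm
  have h3 := card_le_card hN
  have h4 := hdeg x hx
  have h5 : ({y, t} : Finset V).card ≤ 2 := card_le_two
  omega

/-- the impossible configuration with three parts -/
theorem tri_three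
    (hP : ∀ x y z, G.Adj x y → G.Adj y z → x ≠ z → ¬ G.Adj x z → H.Adj x y ∨ H.Adj y z)
    (hclq : ∀ Q : Finset V, (∀ x ∈ Q, ∀ y ∈ Q, x ≠ y → G.Adj x y) → Q.card ≤ q) (hq : 4 ≤ q)
    {S : Finset V} {c : V → Fin 3} (hH : ∀ x ∈ S, ∀ y ∈ S, c x ≠ c y → ¬ H.Adj x y)
    (hdeg : ∀ x ∈ S, q ≤ (S.filter (fun y => c x ≠ c y ∧ G.Adj x y)).card + 1)
    (h0 : (S.filter (fun y => c y = 0)).card + 1 = q) (h1 : (S.filter (fun y => c y = 1)).card + 1 = q) :
    False := by
  have cl : ∀ u ∈ S, ∀ v ∈ S, ∀ w ∈ S, c u ≠ c v → c v ≠ c w → u ≠ w → G.Adj u v → G.Adj v w →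
      G.Adj u w := by
    intro u hu v hv w hw huv hvw huw e1 e2
    by_contra hn
    rcases hP u v w e1 e2 huw hn with h | h
    · exact hH u hu v hv huv h
    · exact hH v hv w hw hvw h
  obtain ⟨x, hx⟩ : (S.filter (fun y => c y = 0)).Nonempty := card_pos.1 (by omega)
  obtain ⟨hxS, hcx⟩ := mem_filter.1 hx
  have hno : ∀ x y t : V, x ∈ S → y ∈ S → t ∈ S → c x ≠ c y → c x ≠ c t → c y ≠ c t →
      G.Adj x y → G.Adj x t → False := fun x y t hx hy ht a b c' d e =>
    tri_two hP hclq hq hH hdeg hx hy ht a b c' d e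
  -- every vertex has its neighbours in the other parts in one part
  obtain ⟨y, hy⟩ : (S.filter (fun y => c x ≠ c y ∧ G.Adj x y)).Nonempty := card_pos.1 (by
    have := hdeg x hxS
    omega)
  obtain ⟨hyS, hcxy, hxy⟩ := mem_filter.1 hy
  -- the neighbours of `x` are in the part of `y` and conversely
  have hNx : S.filter (fun z => c x ≠ c z ∧ G.Adj x z) ⊆ S.filter (fun z => c z = c y ∧ G.Adj x z) := by
    intro z hz
    obtain ⟨hzS, hcz, hxz⟩ := mem_filter.1 hz
    rw [mem_filter]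
    refine ⟨hzS, ?_, hxz⟩
    by_contra hne
    exact hno x z y hxS hzS hyS hcz hcxy hne hxz hxy
  have hNxc : q ≤ (S.filter (fun z => c z = c y ∧ G.Adj x z)).card + 1 :=
    (hdeg x hxS).trans (Nat.add_le_add_right (card_le_card hNx) 1)
  -- all neighbours of `x` are complete to the part of `x`
  have key : ∀ z ∈ S, c z = c y → G.Adj x z → ∀ w ∈ S, c w = c x → G.Adj z w := by
    intro z hzS hcz hxz
    have hNz : S.filter (fun w => c z ≠ c w ∧ G.Adj z w) ⊆ S.filter (fun w => c w = 0) := by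
      intro w hw
      obtain ⟨hwS, hcw, hzw⟩ := mem_filter.1 hw
      rw [mem_filter]
      refine ⟨hwS, ?_⟩
      by_contra hne
      have hne' : c x ≠ c w := by
        rw [hcx]
        exact fun e => hne e.symm
      exact hno z x w hzS hxS hwS (by rw [hcz]; exact hcxy.symm) hcw hne' hxz.symm hzw
    have heq : S.filter (fun w => c z ≠ c w ∧ G.Adj z w) = S.filter (fun w => c w = 0) := by
      apply eq_of_subset_of_card_le hNz
      have := hdeg z hzS
      omega
    intro w hwS hcw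
    have : w ∈ S.filter (fun w => c z ≠ c w ∧ G.Adj z w) := by
      rw [heq, mem_filter]
      exact ⟨hwS, by rw [hcw, hcx]⟩
    exact (mem_filter.1 this).2.2
  -- a clique with too many vertices
  have hdis : Disjoint (S.filter (fun w => c w = 0)) (S.filter (fun z => c z = c y ∧ G.Adj x z)) := by
    rw [Finset.disjoint_left]
    intro w hw hw'
    apply hcxy
    rw [hcx, ← (mem_filter.1 hw).2]
    exact (mem_filter.1 hw').2.1
  have hcl := hclq (S.filter (fun w => c w = 0) ∪ S.filter (fun z => c z = c y ∧ G.Adj x z)) (by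
    intro u hu v hv huv
    rw [mem_union, mem_filter, mem_filter] at hu hv
    rcases hu with ⟨huS, hu⟩ | ⟨huS, hu, hxu⟩ <;> rcases hv with ⟨hvS, hv⟩ | ⟨hvS, hv, hxv⟩
    · have e1 := (key y hyS rfl hxy u huS (by rw [hu, hcx])).symm
      have e2 := key y hyS rfl hxy v hvS (by rw [hv, hcx])
      exact cl u huS y hyS v hvS (by rw [hu, ← hcx]; exact hcxy) (by rw [hv, ← hcx]; exact hcxy.symm)
        huv e1 e2
    · exact (key v hvS hv hxv u huS (by rw [hu, hcx])).symm
    · exact key u huS hu hxu v hvS (by rw [hv, hcx])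
    · exact cl u huS x hxS v hvS (by rw [hu]; exact hcxy.symm) (by rw [hv]; exact hcxy) huv hxu.symm hxv)
  rw [card_union_of_disjoint hdis] at hcl
  omega

/-- the configuration with exactly two components outside the non-neighbourhood of `v` and other
components in `T`, tight count -/
theorem p_two
    (hα : ∀ a b c : V, a ≠ b → a ≠ c → b ≠ c → G.Adj a b ∨ G.Adj a c ∨ G.Adj b c)
    (hP : ∀ x y z, G.Adj x y → G.Adj y z → x ≠ z → ¬ G.Adj x z → H.Adj x y ∨ H.Adj y z)
    (hclq : ∀ Q : Finset V, (∀ x ∈ Q, ∀ y ∈ Q, x ≠ y → G.Adj x y) → Q.card ≤ q) (hq : 3 ≤ q)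
    {v : V} {C1 C2 T : Finset V} (d12 : Disjoint C1 C2) (d1T : Disjoint C1 T) (d2T : Disjoint C2 T)
    (hv1 : v ∉ C1) (hv2 : v ∉ C2) (hT : ∀ t ∈ T, t ≠ v ∧ ¬ G.Adj v t)
    (h12 : ∀ x ∈ C1, ∀ y ∈ C2, H.Adj x y → ¬ G.Adj v x ∧ ¬ G.Adj v y)
    (h1T : ∀ x ∈ C1, ∀ t ∈ T, H.Adj x t → ¬ G.Adj v x)
    (h2T : ∀ x ∈ C2, ∀ t ∈ T, H.Adj x t → ¬ G.Adj v x)
    (hc1 : C1.card + T.card + 1 = 2 * q) (hc2 : C2.card + T.card + 1 = 2 * q) (hodd : Odd C1.card) :
    False := by
  have m12 : ∀ x ∈ C1, x ∉ C2 := fun x h1 h2 => Finset.disjoint_left.1 d12 h1 h2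
  have m1T : ∀ x ∈ C1, x ∉ T := fun x h1 h2 => Finset.disjoint_left.1 d1T h1 h2
  have m2T : ∀ x ∈ C2, x ∉ T := fun x h1 h2 => Finset.disjoint_left.1 d2T h1 h2
  -- the vertices of `C1` and `C2` adjacent to `v`
  have t1 : ∀ x ∈ C1, G.Adj v x → ((C2 ∪ T).filter (fun y => G.Adj x y)).card + 1 = q ∧
      ∀ y, y ≠ x → ¬ G.Adj x y → y ∈ C2 ∪ T := by
    intro x hx hvx
    refine tight_vertex hα hP hclq (fun h => ?_) (fun y hy hxy => ?_) ?_
    · rcases mem_union.1 h with h | h
      · exact m12 x hx h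
      · exact m1T x hx h
    · rcases mem_union.1 hy with hy | hy
      · exact (h12 x hx y hy hxy).1 hvx
      · exact h1T x hx y hy hxy hvx
    · rw [card_union_of_disjoint d2T]
      omega
  have t2 : ∀ x ∈ C2, G.Adj v x → ((C1 ∪ T).filter (fun y => G.Adj x y)).card + 1 = q ∧
      ∀ y, y ≠ x → ¬ G.Adj x y → y ∈ C1 ∪ T := by
    intro x hx hvx
    refine tight_vertex hα hP hclq (fun h => ?_) (fun y hy hxy => ?_) ?_
    · rcases mem_union.1 h with h | h
      · exact m12 x h hx
      · exact m2T x hx h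
    · rcases mem_union.1 hy with hy | hy
      · exact (h12 y hy x hx hxy.symm).2 hvx
      · exact h2T x hx y hy hxy hvx
    · rw [card_union_of_disjoint d1T]
      omega
  have hA1 : (C1.filter (fun x => G.Adj v x)).card ≤ q := by
    apply hclq
    intro x hx y hy hxy
    obtain ⟨hx, hvx⟩ := mem_filter.1 hx
    obtain ⟨hy, -⟩ := mem_filter.1 hy
    by_contra hn
    rcases mem_union.1 ((t1 x hx hvx).2 y hxy.symm hn) with h | h
    · exact m12 y hy h
    · exact m1T y hy h
  have hA2 : (C2.filter (fun x => G.Adj v x)).card ≤ q := by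
    apply hclq
    intro x hx y hy hxy
    obtain ⟨hx, hvx⟩ := mem_filter.1 hx
    obtain ⟨hy, -⟩ := mem_filter.1 hy
    by_contra hn
    rcases mem_union.1 ((t2 x hx hvx).2 y hxy.symm hn) with h | h
    · exact m12 y h hy
    · exact m2T y hy h
  have e1 := Finset.card_filter_add_card_filter_not (s := C1) (fun x => G.Adj v x)
  have e2 := Finset.card_filter_add_card_filter_not (s := C2) (fun x => G.Adj v x)
  have hB : (C1.filter (fun x => ¬ G.Adj v x)).card + (C2.filter (fun x => ¬ G.Adj v x)).card +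
      T.card ≤ q := by
    have d1 : Disjoint (C1.filter (fun x => ¬ G.Adj v x)) (C2.filter (fun x => ¬ G.Adj v x)) :=
      disjoint_of_subset_left (filter_subset _ _) (disjoint_of_subset_right (filter_subset _ _) d12)
    have d2 : Disjoint (C1.filter (fun x => ¬ G.Adj v x) ∪ C2.filter (fun x => ¬ G.Adj v x)) T := by
      rw [disjoint_union_left]
      exact ⟨disjoint_of_subset_left (filter_subset _ _) d1T,
        disjoint_of_subset_left (filter_subset _ _) d2T⟩
    rw [← card_union_of_disjoint d1, ← card_union_of_disjoint d2]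
    apply nonnbr_card hα hclq v
    intro y hy
    rcases mem_union.1 hy with hy | hy
    · rcases mem_union.1 hy with hy | hy
      · exact ⟨fun e => hv1 (e ▸ (mem_filter.1 hy).1), (mem_filter.1 hy).2⟩
      · exact ⟨fun e => hv2 (e ▸ (mem_filter.1 hy).1), (mem_filter.1 hy).2⟩
    · exact hT y hy
  rcases T.eq_empty_or_nonempty with hTe | ⟨t, ht⟩
  · rw [hTe, card_empty] at hc1 hc2 hB
    omega
  -- the count at a vertex of `T`
  have hdisA : Disjoint (C1.filter (fun x => G.Adj v x)) (C2.filter (fun x => G.Adj v x)) :=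
    disjoint_of_subset_left (filter_subset _ _) (disjoint_of_subset_right (filter_subset _ _) d12)
  have hAm : ∀ y ∈ C1.filter (fun x => G.Adj v x) ∪ C2.filter (fun x => G.Adj v x),
      G.Adj v y ∧ (y ∈ C1 ∨ y ∈ C2) := by
    intro y hy
    rcases mem_union.1 hy with hy | hy
    · exact ⟨(mem_filter.1 hy).2, Or.inl (mem_filter.1 hy).1⟩
    · exact ⟨(mem_filter.1 hy).2, Or.inr (mem_filter.1 hy).1⟩
  have htA : ∀ t ∈ T,
      ((C1.filter (fun x => G.Adj v x) ∪ C2.filter (fun x => G.Adj v x)).filter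
        (fun y => G.Adj t y)).card + 1 ≤ q ∧
      ((C1.filter (fun x => G.Adj v x) ∪ C2.filter (fun x => G.Adj v x)).filter
        (fun y => ¬ G.Adj t y)).card + 1 ≤ q := by
    intro t ht
    constructor
    · apply nbr_card hP hclq t
      intro y hy
      obtain ⟨hy, hty⟩ := mem_filter.1 hy
      obtain ⟨hvy, hy⟩ := hAm y hy
      refine ⟨hty, fun h => ?_⟩
      rcases hy with hy | hy
      · exact h1T y hy t ht h.symm hvy
      · exact h2T y hy t ht h.symm hvy
    · have hvn : v ∉ (C1.filter (fun x => G.Adj v x) ∪ C2.filter (fun x => G.Adj v x)).filter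
          (fun y => ¬ G.Adj t y) := fun h => (hAm v (mem_filter.1 h).1).1.ne rfl
      rw [← card_insert_of_notMem hvn]
      apply nonnbr_card hα hclq t
      intro y hy
      rcases mem_insert.1 hy with rfl | hy
      · exact ⟨(hT t ht).1.symm, fun h => (hT t ht).2 h.symm⟩
      · obtain ⟨hy, hty⟩ := mem_filter.1 hy
        refine ⟨fun e => ?_, hty⟩
        obtain ⟨hvy, -⟩ := hAm y hy
        exact (hT t ht).2 (e ▸ hvy)
  have hcA := card_union_of_disjoint hdisA
  have e3 := Finset.card_filter_add_card_filter_not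
    (s := C1.filter (fun x => G.Adj v x) ∪ C2.filter (fun x => G.Adj v x)) (fun y => G.Adj t y)
  have h3 := htA t ht
  have hB1 : C1.filter (fun x => ¬ G.Adj v x) = ∅ := card_eq_zero.1 (by omega)
  have hB2 : C2.filter (fun x => ¬ G.Adj v x) = ∅ := card_eq_zero.1 (by omega)
  have hTq : T.card = q := by omega
  have hv1' : ∀ x ∈ C1, G.Adj v x := by
    intro x hx
    by_contra hn
    have : x ∈ C1.filter (fun x => ¬ G.Adj v x) := mem_filter.2 ⟨hx, hn⟩
    rw [hB1] at this
    exact absurd this (notMem_empty x)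
  have hv2' : ∀ x ∈ C2, G.Adj v x := by
    intro x hx
    by_contra hn
    have : x ∈ C2.filter (fun x => ¬ G.Adj v x) := mem_filter.2 ⟨hx, hn⟩
    rw [hB2] at this
    exact absurd this (notMem_empty x)
  have hq4 : 4 ≤ q := by
    obtain ⟨m, hm⟩ := hodd
    omega
  have hf1 : C1.filter (fun x => G.Adj v x) = C1 := filter_true_of_mem hv1'
  have hf2 : C2.filter (fun x => G.Adj v x) = C2 := filter_true_of_mem hv2'
  rw [hf1, hf2] at htA hcA
  let c : V → Fin 3 := fun x => if x ∈ C1 then 0 else if x ∈ C2 then 1 else 2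
  have c1 : ∀ x ∈ C1, c x = 0 := fun x hx => by simp only [c, if_pos hx]
  have c2 : ∀ x ∈ C2, c x = 1 := fun x hx => by
    have : x ∉ C1 := fun h => m12 x h hx
    simp only [c, if_neg this, if_pos hx]
  have cT : ∀ x ∈ T, c x = 2 := fun x hx => by
    have h1 : x ∉ C1 := fun h => m1T x h hx
    have h2 : x ∉ C2 := fun h => m2T x h hx
    simp only [c, if_neg h1, if_neg h2]
  have hf0 : (C1 ∪ C2 ∪ T).filter (fun y => c y = 0) = C1 := by
    ext x
    rw [mem_filter, mem_union, mem_union]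
    constructor
    · rintro ⟨(h | h) | h, hc⟩
      · exact h
      · rw [c2 x h] at hc
        exact absurd hc (by decide)
      · rw [cT x h] at hc
        exact absurd hc (by decide)
    · exact fun h => ⟨Or.inl (Or.inl h), c1 x h⟩
  have hf1' : (C1 ∪ C2 ∪ T).filter (fun y => c y = 1) = C2 := by
    ext x
    rw [mem_filter, mem_union, mem_union]
    constructor
    · rintro ⟨(h | h) | h, hc⟩
      · rw [c1 x h] at hc
        exact absurd hc (by decide)
      · exact h
      · rw [cT x h] at hc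
        exact absurd hc (by decide)
    · exact fun h => ⟨Or.inl (Or.inr h), c2 x h⟩
  refine tri_three hP hclq hq4 (S := C1 ∪ C2 ∪ T) (c := c) ?_ ?_ (by rw [hf0]; omega)
    (by rw [hf1']; omega)
  · intro x hx y hy hcxy h
    rw [mem_union, mem_union] at hx hy
    rcases hx with (hx | hx) | hx <;> rcases hy with (hy | hy) | hy
    · exact hcxy (by rw [c1 x hx, c1 y hy])
    · exact (h12 x hx y hy h).1 (hv1' x hx)
    · exact h1T x hx y hy h (hv1' x hx)
    · exact (h12 y hy x hx h.symm).1 (hv1' y hy)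
    · exact hcxy (by rw [c2 x hx, c2 y hy])
    · exact h2T x hx y hy h (hv2' x hx)
    · exact h1T y hy x hx h.symm (hv1' y hy)
    · exact h2T y hy x hx h.symm (hv2' y hy)
    · exact hcxy (by rw [cT x hx, cT y hy])
  · intro x hx
    rw [mem_union, mem_union] at hx
    rcases hx with (hx | hx) | hx
    · have h5 := (t1 x hx (hv1' x hx)).1
      rw [← h5]
      refine Nat.add_le_add_right (card_le_card ?_) 1
      intro y hy
      obtain ⟨hy, hxy⟩ := mem_filter.1 hy
      rw [mem_filter, mem_union, mem_union, c1 x hx]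
      rcases mem_union.1 hy with hy | hy
      · exact ⟨Or.inl (Or.inr hy), by rw [c2 y hy]; decide, hxy⟩
      · exact ⟨Or.inr hy, by rw [cT y hy]; decide, hxy⟩
    · have h5 := (t2 x hx (hv2' x hx)).1
      rw [← h5]
      refine Nat.add_le_add_right (card_le_card ?_) 1
      intro y hy
      obtain ⟨hy, hxy⟩ := mem_filter.1 hy
      rw [mem_filter, mem_union, mem_union, c2 x hx]
      rcases mem_union.1 hy with hy | hy
      · exact ⟨Or.inl (Or.inl hy), by rw [c1 y hy]; decide, hxy⟩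
      · exact ⟨Or.inr hy, by rw [cT y hy]; decide, hxy⟩
    · have h5 := htA x hx
      have h6 := Finset.card_filter_add_card_filter_not (s := C1 ∪ C2) (fun y => G.Adj x y)
      have h7 : ((C1 ∪ C2).filter (fun y => G.Adj x y)).card ≤
          ((C1 ∪ C2 ∪ T).filter (fun y => c x ≠ c y ∧ G.Adj x y)).card := by
        apply card_le_card
        intro y hy
        obtain ⟨hy, hxy⟩ := mem_filter.1 hy
        rw [mem_filter, mem_union, cT x hx]
        refine ⟨Or.inl hy, ?_, hxy⟩
        rcases mem_union.1 hy with hy | hy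
        · rw [c1 y hy]
          decide
        · rw [c2 y hy]
          decide
      rw [hcA] at h6
      omega

end PTwo

end Pool.Agent.T2F
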